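import Mathlib

/-!
The affine chart `u v = t (1 + u³ + v³)` over `k⟦t⟧` of the plane cubic
`x y z = t (x³ + y³ + z³)`.
-/

noncomputable section

open MvPolynomial

namespace Pool.Agent.P.MP_6277db_ag

variable (k : Type) [Field k]

/-- The equation of the chart. -/
def rel : MvPolynomial (Fin 2) (PowerSeries k) :=
  X 0 * X 1 - C PowerSeries.X * (1 + X 0 ^ 3 + X 1 ^ 3)

/-- The coordinate ring of the chart. -/
def Bq : Type := MvPolynomial (Fin 2) (PowerSeries k) ⧸ Ideal.span {rel k}

instance : CommRing (Bq k) := Ideal.Quotient.commRing (Ideal.span {rel k})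

/-- The quotient map onto the chart ring. -/
def bmk : MvPolynomial (Fin 2) (PowerSeries k) →+* Bq k := Ideal.Quotient.mk (Ideal.span {rel k})

instance : Algebra (PowerSeries k) (Bq k) := ((bmk k).comp C).toAlgebra

theorem bmk_surjective : Function.Surjective (bmk k) := Ideal.Quotient.mk_surjective

theorem ker_bmk : RingHom.ker (bmk k) = Ideal.span {rel k} := Ideal.mk_ker

theorem bmk_eq_zero (g : MvPolynomial (Fin 2) (PowerSeries k)) : bmk k g = 0 ↔ rel k ∣ g := by
  rw [← RingHom.mem_ker, ker_bmk, Ideal.mem_span_singleton]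

instance : IsNoetherianRing (Bq k) := isNoetherianRing_of_surjective _ _ (bmk k) (bmk_surjective k)

/-- The first coordinate. -/
def bu : Bq k := bmk k (X 0)

/-- The second coordinate. -/
def bv : Bq k := bmk k (X 1)

/-- The uniformizer of the base. -/
def bt : Bq k := algebraMap (PowerSeries k) (Bq k) PowerSeries.X

theorem algebraMap_Bq (a : PowerSeries k) :
    algebraMap (PowerSeries k) (Bq k) a = bmk k (C a) := rfl

instance : Algebra.FiniteType (PowerSeries k) (Bq k) :=
  Algebra.FiniteType.of_surjective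
    (⟨bmk k, fun _ => rfl⟩ : MvPolynomial (Fin 2) (PowerSeries k) →ₐ[PowerSeries k] Bq k)
    (bmk_surjective k)

theorem b_rel : bu k * bv k = bt k * (1 + bu k ^ 3 + bv k ^ 3) := by
  have h : bmk k (rel k) = 0 := (bmk_eq_zero k _).2 dvd_rfl
  rw [rel] at h
  simp only [map_sub, map_mul, map_add, map_pow, map_one] at h
  exact sub_eq_zero.1 h

variable {k}

/-- Ring maps out of the chart. -/
def bLift {R : Type} [CommRing R] (τ : PowerSeries k →+* R) (x y : R)
    (h : x * y = τ PowerSeries.X * (1 + x ^ 3 + y ^ 3)) : Bq k →+* R :=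
  Ideal.Quotient.lift _ (eval₂Hom τ ![x, y]) (by
    intro a ha
    obtain ⟨c, rfl⟩ := Ideal.mem_span_singleton'.1 ha
    simp [rel, h])

theorem bLift_bmk {R : Type} [CommRing R] (τ : PowerSeries k →+* R) (x y : R)
    (h : x * y = τ PowerSeries.X * (1 + x ^ 3 + y ^ 3)) (g : MvPolynomial (Fin 2) (PowerSeries k)) :
    bLift τ x y h (bmk k g) = eval₂Hom τ ![x, y] g := rfl

@[simp] theorem bLift_u {R : Type} [CommRing R] (τ : PowerSeries k →+* R) (x y : R)
    (h : x * y = τ PowerSeries.X * (1 + x ^ 3 + y ^ 3)) : bLift τ x y h (bu k) = x := by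
  simp [bLift_bmk, bu]

@[simp] theorem bLift_v {R : Type} [CommRing R] (τ : PowerSeries k →+* R) (x y : R)
    (h : x * y = τ PowerSeries.X * (1 + x ^ 3 + y ^ 3)) : bLift τ x y h (bv k) = y := by
  simp [bLift_bmk, bv]

@[simp] theorem bLift_algebraMap {R : Type} [CommRing R] (τ : PowerSeries k →+* R) (x y : R)
    (h : x * y = τ PowerSeries.X * (1 + x ^ 3 + y ^ 3)) (a : PowerSeries k) :
    bLift τ x y h (algebraMap (PowerSeries k) (Bq k) a) = τ a := by
  simp [bLift_bmk, algebraMap_Bq]

@[simp] theorem bLift_t {R : Type} [CommRing R] (τ : PowerSeries k →+* R) (x y : R)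
    (h : x * y = τ PowerSeries.X * (1 + x ^ 3 + y ^ 3)) :
    bLift τ x y h (bt k) = τ PowerSeries.X := bLift_algebraMap τ x y h _

theorem b_hom_ext {R : Type} [CommRing R] {f g : Bq k →+* R}
    (hA : ∀ a, f (algebraMap (PowerSeries k) (Bq k) a) = g (algebraMap (PowerSeries k) (Bq k) a))
    (hu : f (bu k) = g (bu k)) (hv : f (bv k) = g (bv k)) : f = g := by
  have : f.comp (bmk k) = g.comp (bmk k) := by
    refine MvPolynomial.ringHom_ext (fun a => hA a) fun i => ?_
    fin_cases i
    · exact hu
    · exact hv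
  ext b
  obtain ⟨a, rfl⟩ := bmk_surjective k b
  exact DFunLike.congr_fun this a

variable (k)

/-- Restriction to the line `t = u = 0`. -/
def epsU : Bq k →+* Polynomial k :=
  bLift (Polynomial.C.comp PowerSeries.constantCoeff) 0 Polynomial.X (by simp)

/-- Restriction to the line `t = v = 0`. -/
def epsV : Bq k →+* Polynomial k :=
  bLift (Polynomial.C.comp PowerSeries.constantCoeff) Polynomial.X 0 (by simp)

/-- The generic point of the line `t = u = 0`. -/
def PU : PrimeSpectrum (Bq k) := ⟨RingHom.ker (epsU k), RingHom.ker_isPrime _⟩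

/-- The generic point of the line `t = v = 0`. -/
def PV : PrimeSpectrum (Bq k) := ⟨RingHom.ker (epsV k), RingHom.ker_isPrime _⟩

end Pool.Agent.P.MP_6277db_ag
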