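import Pool.Agent.P.MP_6277db_ag.Defs
import Pool.Agent.P.MP_6277db_ag.Model

noncomputable section

open CategoryTheory AlgebraicGeometry

namespace Pool.Agent.P.MP_6277db_ag

/-- A projective `k⟦t⟧`-scheme with three charts `Spec B` glued cyclically. -/
structure Charts (k : Type) [Field k] where
  X : Scheme.{0}
  f : X ⟶ Spec (.of (PowerSeries k))
  c : Fin 3 → (Spec (.of (Bq k)) ⟶ X)
  proj : IsProjective f
  proper : IsProper f
  openImm : ∀ i, IsOpenImmersion (c i)
  surj : ∀ x : X, ∃ i p, c i p = x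
  c_f : ∀ i, c i ≫ f = Spec.map (CommRingCat.ofHom (algebraMap (PowerSeries k) (Bq k)))
  memU : ∀ i (p : PrimeSpectrum (Bq k)), c i p ∈ Set.range (c (i + 1)) ↔ bu k ∉ p.asIdeal
  memV : ∀ i (p : PrimeSpectrum (Bq k)), c i p ∈ Set.range (c (i + 2)) ↔ bv k ∉ p.asIdeal

/-- The special fibre with its three charts `Spec (B/t)`. -/
structure Fibre {k : Type} [Field k] (C : Charts k) where
  Y : Scheme.{0}
  ι : Y ⟶ C.X
  c' : Fin 3 → (Spec (.of (Bq k ⧸ Ideal.span {bt k})) ⟶ Y)
  closed : IsClosedImmersion ι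
  isPullback : ∀ i, IsPullback (c' i)
    (Spec.map (CommRingCat.ofHom (Ideal.Quotient.mk (Ideal.span {bt k})))) ι (C.c i)
  range_ι : Set.range ι = C.f ⁻¹' {IsLocalRing.closedPoint (PowerSeries k)}

end Pool.Agent.P.MP_6277db_ag
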