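import Mathlib

/-!
Definitions for the weight zero case of the restriction problem: the cdh site of schemes of
finite type over a base, its cohomology with constant coefficients `ℤ/m`, projective
morphisms and strict normal crossings divisors.
-/

noncomputable section

open CategoryTheory AlgebraicGeometry

namespace Pool.Agent.P.MP_6277db_ag

/-- The category of schemes of finite type over `S`. -/
abbrev FT (S : Scheme.{0}) : Type 1 :=
  ObjectProperty.FullSubcategory
    (fun X : Over S => LocallyOfFiniteType X.hom ∧ QuasiCompact X.hom)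

/-- Nisnevich covering family `{f i : V i ⟶ U}`: all members are etale and every point of `U`
has a preimage with the same residue field. -/
def IsNisnevichCover {S : Scheme.{0}} {U : FT S} (R : Presieve U) : Prop :=
  ∃ (I : Type 1) (V : I → FT S) (f : ∀ i, V i ⟶ U), R = Presieve.ofArrows V f ∧
    (∀ i, Etale (f i).hom.left) ∧
      ∀ x : U.obj.left, ∃ (i : I) (y : (V i).obj.left),
        (f i).hom.left y = x ∧ IsIso ((f i).hom.left.residueFieldMap y)

/-- Abstract blow-up: the family consists of a closed immersion `i : Z ⟶ U` and a proper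
morphism `p : W ⟶ U` which is an isomorphism over the open complement of `Z`. -/
def IsBlowupCover {S : Scheme.{0}} {U : FT S} (R : Presieve U) : Prop :=
  ∃ (Z W : FT S) (i : Z ⟶ U) (p : W ⟶ U) (O : U.obj.left.Opens),
    IsClosedImmersion i.hom.left ∧ IsProper p.hom.left ∧
      (O : Set U.obj.left) = (Set.range i.hom.left)ᶜ ∧ IsIso (p.hom.left ∣_ O) ∧
        R = Presieve.singleton i ⊔ Presieve.singleton p

/-- The cdh topology of Suslin and Voevodsky: the smallest Grothendieck topology for which
Nisnevich covers and abstract blow-ups are coverings. -/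
def cdh (S : Scheme.{0}) : GrothendieckTopology (FT S) :=
  Precoverage.toGrothendieck ⟨fun _ => {R | IsNisnevichCover R ∨ IsBlowupCover R}⟩

/-- The free abelian cdh sheaf `ℤ[U]` generated by a scheme `U`. -/
def freeSheaf (S : Scheme.{0}) : FT S ⥤ Sheaf (cdh S) AddCommGrpCat.{1} :=
  uliftYoneda.{1} ⋙ (Functor.whiskeringRight _ _ _).obj AddCommGrpCat.free ⋙
    presheafToSheaf (cdh S) AddCommGrpCat.{1}

/-- The constant cdh sheaf `ℤ/m`. -/
def constSheaf (S : Scheme.{0}) (m : ℕ) : Sheaf (cdh S) AddCommGrpCat.{1} :=
  (constantSheaf (cdh S) AddCommGrpCat.{1}).obj (AddCommGrpCat.of (ULift.{1} (ZMod m)))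

instance (S : Scheme.{0}) : IsGrothendieckAbelian.{1} (Sheaf (cdh S) AddCommGrpCat.{1}) :=
  have : EssentiallySmall.{1} (FT S) := inferInstance
  Sheaf.isGrothendieckAbelian_of_essentiallySmall (cdh S) AddCommGrpCat.{1}

instance hasExtCdh (S : Scheme.{0}) : HasExt.{1} (Sheaf (cdh S) AddCommGrpCat.{1}) :=
  inferInstance

/-- `H^i_cdh(U, ℤ/m) = Ext^i(ℤ[U], ℤ/m)` in the category of abelian cdh sheaves, as a
contravariant functor of `U`. -/
def cdhCohomology (S : Scheme.{0}) (m i : ℕ) : (FT S)ᵒᵖ ⥤ AddCommGrpCat.{1} :=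
  (freeSheaf S).op ⋙ (Abelian.extFunctor.{1} i).flip.obj (constSheaf S m)

attribute [local instance] MvPolynomial.gradedAlgebra

/-- `f : X ⟶ Spec A` is projective: it factors through a closed immersion into some projective
space `Proj A[x_0, ..., x_n]`. -/
def IsProjective {A : Type} [CommRing A] {X : Scheme.{0}} (f : X ⟶ Spec (.of A)) : Prop :=
  ∃ (n : ℕ) (j : X ⟶ Proj (MvPolynomial.homogeneousSubmodule (Fin (n + 1)) A)),
    IsClosedImmersion j ∧
      j ≫ Proj.toSpecZero _ ≫ Spec.map (CommRingCat.ofHom
        (algebraMap A (MvPolynomial.homogeneousSubmodule (Fin (n + 1)) A 0))) = f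

/-- `ι : Y ⟶ X` is a strict normal crossings divisor (Stacks 0BI9): at every point of `Y`
there is a regular system of parameters `x_1, ..., x_d` of the local ring of `X` (generators
of the maximal ideal, as many as the Krull dimension) such that the ideal of `Y` is generated
by the product of a nonempty subfamily. -/
def IsSNC {X Y : Scheme.{0}} (ι : Y ⟶ X) : Prop :=
  IsClosedImmersion ι ∧ ∀ y : Y, ∃ (d : ℕ) (x : Fin d → X.presheaf.stalk (ι y))
    (s : Finset (Fin d)), s.Nonempty ∧
      ringKrullDim (X.presheaf.stalk (ι y)) = d ∧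
      Ideal.span (Set.range x) = IsLocalRing.maximalIdeal (X.presheaf.stalk (ι y)) ∧
      RingHom.ker (ι.stalkMap y).hom = Ideal.span {∏ i ∈ s, x i}

/-- The setting of the problem: `X` is regular, connected, projective and flat over the local
ring `A`, and `ι : Y ⟶ X` is the reduced special fibre, a strict normal crossings divisor of
dimension `d`. -/
def IsSNCModel {A : Type} [CommRing A] [IsLocalRing A] {X Y : Scheme.{0}}
    (f : X ⟶ Spec (.of A)) (ι : Y ⟶ X) (d : ℕ) : Prop :=
  (∀ x : X, IsRegularLocalRing (X.presheaf.stalk x)) ∧ ConnectedSpace X ∧ IsProjective f ∧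
    Flat f ∧ IsReduced Y ∧ Set.range ι = f ⁻¹' {IsLocalRing.closedPoint A} ∧ IsSNC ι ∧
      topologicalKrullDim Y = d

end Pool.Agent.P.MP_6277db_ag
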