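import Pool.Agent.P.MP_6277db_ag.RingB

noncomputable section

open MvPolynomial IsLocalRing

namespace Pool.Agent.P.MP_6277db_ag

variable (k : Type) [Field k]

/-- The dimension of a localisation whose maximal ideal has few generators. -/
private theorem dim_eq_of_span {R : Type} [CommRing R] [IsNoetherianRing R] (P : Ideal R)
    [P.IsPrime] {d : ℕ} (x : Fin d → Localization.AtPrime P)
    (hx : Ideal.span (Set.range x) = maximalIdeal (Localization.AtPrime P))
    (hd : (d : ℕ∞) ≤ P.height) : ringKrullDim (Localization.AtPrime P) = d := by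
  apply le_antisymm
  · refine (ringKrullDim_le_spanFinrank_maximalIdeal _).trans ?_
    rw [← hx]
    have h1 := Submodule.spanFinrank_span_le_ncard_of_finite
      (R := Localization.AtPrime P) (Set.finite_range x)
    have h2 : (Set.range x).ncard ≤ d := by
      rw [← Set.image_univ]
      refine (Set.ncard_image_le Set.finite_univ).trans ?_
      simp
    exact_mod_cast h1.trans h2
  · rw [IsLocalization.AtPrime.ringKrullDim_eq_height P]
    exact_mod_cast hd

variable {k} in
private theorem eq_span_of_map {x y : Bq k} {e : Bq k →+* Polynomial k} (h : LineData k x y e)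
    {P : Ideal (Bq k)} (hK : RingHom.ker e ≤ P) {π : Polynomial k}
    (hπ : P.map e = Ideal.span {π}) : P = Ideal.span {bt k, x, bsec y π} := by
  have hc : (P.map e).comap e = P := by
    rw [Ideal.comap_map_of_surjective e h.surj, sup_eq_left]
    exact hK
  apply le_antisymm
  · intro b hb
    have h1 : e b ∈ Ideal.span {π} := hπ ▸ Ideal.mem_map_of_mem e hb
    obtain ⟨c, hc'⟩ := Ideal.mem_span_singleton'.1 h1
    have h2 : b - bsec y (e b) ∈ Ideal.span {bt k, x, bsec y π} :=
      Ideal.span_mono (by rintro z (rfl | rfl) <;> simp) (h.sub_mem b)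
    have h3 : bsec y (e b) ∈ Ideal.span {bt k, x, bsec y π} := by
      rw [← hc', map_mul]
      exact Ideal.mul_mem_left _ _ (Ideal.subset_span (by simp))
    simpa using add_mem h2 h3
  · rw [Ideal.span_le]
    rintro z (rfl | rfl | rfl)
    · exact hK h.ht
    · exact hK h.hx
    · rw [← hc]
      change e (bsec y π) ∈ P.map e
      rw [h.e_bsec, hπ]
      exact Ideal.subset_span rfl

variable {k} in
private theorem snc_line {x y : Bq k} {e : Bq k →+* Polynomial k} (h : LineData k x y e)
    (P : Ideal (Bq k)) [hP : P.IsPrime] (hK : RingHom.ker e ≤ P) :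
    ∃ (d : ℕ) (z : Fin d → Localization.AtPrime P) (s : Finset (Fin d)), s.Nonempty ∧
      ringKrullDim (Localization.AtPrime P) = d ∧
      Ideal.span (Set.range z) = maximalIdeal (Localization.AtPrime P) ∧
      Ideal.span {algebraMap (Bq k) (Localization.AtPrime P) (bt k)} =
        Ideal.span {∏ i ∈ s, z i} := by
  set L := Localization.AtPrime P
  set φ := algebraMap (Bq k) L with hφ
  have hKp : (RingHom.ker e).IsPrime := RingHom.ker_isPrime e
  have hP' : (P.map e).IsPrime := Ideal.map_isPrime_of_surjective h.surj hK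
  have hx : x ∈ P := hK h.hx
  have h1 : (1 : ℕ∞) ≤ (RingHom.ker e).height := by
    refine (Ideal.one_le_height_span_singleton_of_mem_nonZeroDivisors
      (bt_mem_nonZeroDivisors k)).trans (Ideal.height_mono ?_)
    rw [Ideal.span_le]
    rintro z rfl
    exact h.ht
  have h2 : ∀ b ∈ P, e b ≠ 0 → ((2 : ℕ) : ℕ∞) ≤ P.height := by
    intro b hb hb0
    have hlt : RingHom.ker e < P := lt_of_le_of_ne hK fun he => hb0 (by rw [← he] at hb; exact hb)
    refine le_trans ?_ (Ideal.height_add_one_le_of_lt_of_isPrime hlt)
    calc ((2 : ℕ) : ℕ∞) = 1 + 1 := by norm_num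
      _ ≤ _ := by gcongr
  have hrel : φ x * φ y = φ (bt k) * φ (1 + x ^ 3 + y ^ 3) := by
    rw [← map_mul, ← map_mul, h.hrel]
  have hm : ∀ π : Polynomial k, P.map e = Ideal.span {π} →
      maximalIdeal L = Ideal.span {φ (bt k), φ x, φ (bsec y π)} := by
    intro π hπ
    have h3 : Ideal.map φ P = Ideal.map φ (Ideal.span {bt k, x, bsec y π}) :=
      congrArg (Ideal.map φ) (eq_span_of_map h hK hπ)
    rw [← Localization.AtPrime.map_eq_maximalIdeal, h3, Ideal.map_span]
    simp only [Set.image_insert_eq, Set.image_singleton]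
  by_cases hy : y ∈ P
  · have hw : (1 + x ^ 3 + y ^ 3) ∈ P.primeCompl := by
      change ¬ _ ∈ P
      intro hw
      apply hP.ne_top
      rw [Ideal.eq_top_iff_one]
      have := P.sub_mem (P.sub_mem hw (P.pow_mem_of_mem hy 3 (by norm_num)))
        (P.pow_mem_of_mem hx 3 (by norm_num))
      convert this using 1
      ring
    have hwu : IsUnit (φ (1 + x ^ 3 + y ^ 3)) := IsLocalization.map_units L ⟨_, hw⟩
    have hX : P.map e = Ideal.span {Polynomial.X} := by
      symm
      refine (PrincipalIdealRing.isMaximal_of_irreducible Polynomial.irreducible_X).eq_of_le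
        hP'.ne_top ?_
      rw [Ideal.span_le]
      rintro z rfl
      rw [← h.hy]
      exact Ideal.mem_map_of_mem e hy
    have hby : bsec y Polynomial.X = y := by simp [bsec]
    have hspan : Ideal.span (Set.range ![φ x, φ y]) = maximalIdeal L := by
      rw [hm _ hX, hby, Matrix.range_cons, Matrix.range_cons, Matrix.range_empty,
        Set.union_empty, Set.singleton_union]
      symm
      refine Submodule.span_insert_eq_span ?_
      obtain ⟨w, hw'⟩ := hwu
      have : φ (bt k) = φ x * φ y * ↑w⁻¹ := by
        rw [hrel, ← hw', mul_assoc, Units.mul_inv, mul_one]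
      rw [this, mul_assoc]
      exact Ideal.mul_mem_right _ _ (Ideal.subset_span (by simp))
    refine ⟨2, ![φ x, φ y], Finset.univ, Finset.univ_nonempty,
      dim_eq_of_span P _ hspan (h2 y hy (by rw [h.hy]; exact Polynomial.X_ne_zero)), hspan, ?_⟩
    rw [Fin.prod_univ_two]
    change _ = Ideal.span {φ x * φ y}
    rw [hrel, Ideal.span_singleton_mul_right_unit hwu]
  · have hyu : IsUnit (φ y) := IsLocalization.map_units L (⟨y, hy⟩ : P.primeCompl)
    obtain ⟨π, hπ⟩ := (IsPrincipalIdealRing.principal (P.map e)).principal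
    have hπ' : P.map e = Ideal.span {π} := hπ
    have hm2 : maximalIdeal L = Ideal.span {φ (bt k), φ (bsec y π)} := by
      rw [hm π hπ', Set.insert_comm]
      refine Submodule.span_insert_eq_span ?_
      obtain ⟨w, hw'⟩ := hyu
      have : φ x = φ (bt k) * (φ (1 + x ^ 3 + y ^ 3) * ↑w⁻¹) := by
        rw [← mul_assoc, ← hrel, ← hw', mul_assoc, Units.mul_inv, mul_one]
      rw [this]
      exact Ideal.mul_mem_right _ _ (Ideal.subset_span (by simp))
    by_cases h0 : π = 0
    · have hspan : Ideal.span (Set.range ![φ (bt k)]) = maximalIdeal L := by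
        rw [hm2, h0, map_zero, map_zero, Matrix.range_cons, Matrix.range_empty, Set.union_empty,
          Set.pair_comm]
        exact (Submodule.span_insert_zero).symm
      refine ⟨1, ![φ (bt k)], Finset.univ, Finset.univ_nonempty,
        dim_eq_of_span P _ hspan ?_, hspan, by simp⟩
      exact_mod_cast h1.trans (Ideal.height_mono hK)
    · have hspan : Ideal.span (Set.range ![φ (bt k), φ (bsec y π)]) = maximalIdeal L := by
        rw [hm2, Matrix.range_cons, Matrix.range_cons, Matrix.range_empty, Set.union_empty,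
          Set.singleton_union]
      have hb : bsec y π ∈ P := by
        rw [eq_span_of_map h hK hπ']
        exact Ideal.subset_span (by simp)
      exact ⟨2, ![φ (bt k), φ (bsec y π)], {0}, Finset.singleton_nonempty _,
        dim_eq_of_span P _ hspan (h2 _ hb (by rw [h.e_bsec]; exact h0)), hspan, by simp⟩

theorem snc_B (p : PrimeSpectrum (Bq k)) (hp : bt k ∈ p.asIdeal) :
    ∃ (d : ℕ) (x : Fin d → Localization.AtPrime p.asIdeal) (s : Finset (Fin d)), s.Nonempty ∧
      ringKrullDim (Localization.AtPrime p.asIdeal) = d ∧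
      Ideal.span (Set.range x) = maximalIdeal (Localization.AtPrime p.asIdeal) ∧
      Ideal.span {algebraMap (Bq k) (Localization.AtPrime p.asIdeal) (bt k)} =
        Ideal.span {∏ i ∈ s, x i} := by
  rcases le_of_bt_mem k p.asIdeal hp with h | h
  · exact snc_line (lineU k) p.asIdeal h
  · exact snc_line (lineV k) p.asIdeal h

/-- The quotient of a regular local ring by a regular parameter is regular. -/
private theorem regular_of_surjective {R S : Type} [CommRing R] [CommRing S] [IsRegularLocalRing R]
    [IsLocalRing S] (f : R →+* S) (hf : Function.Surjective f) {x : R}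
    (hker : RingHom.ker f = Ideal.span {x}) (hx : x ∈ maximalIdeal R)
    (hx2 : x ∉ maximalIdeal R * maximalIdeal R) : IsRegularLocalRing S := by
  classical
  have hN : IsNoetherianRing S := isNoetherianRing_of_surjective R S f hf
  obtain ⟨s, hs, hspan⟩ := Submodule.FG.exists_span_finset_card_eq_spanFinrank
    (IsNoetherian.noetherian (maximalIdeal R))
  have hx' : x ∈ Submodule.span R (s : Set R) := hspan ▸ hx
  obtain ⟨c, -, hc⟩ := Submodule.mem_span_finset.1 hx'
  have hsm : ∀ a ∈ s, a ∈ maximalIdeal R := fun a ha => hspan ▸ Submodule.subset_span ha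
  obtain ⟨a, ha, hca⟩ : ∃ a ∈ s, c a ∉ maximalIdeal R := by
    by_contra hcon
    push Not at hcon
    apply hx2
    rw [← hc]
    exact Ideal.sum_mem _ fun a ha => Ideal.mul_mem_mul (hcon a ha) (hsm a ha)
  have hu : IsUnit (f (c a)) := (notMem_maximalIdeal.1 hca).map f
  have hfx : f x = 0 := by
    rw [← RingHom.mem_ker, hker]
    exact Ideal.subset_span rfl
  have hmS : maximalIdeal S = Ideal.span (((s.erase a).image f : Finset S) : Set S) := by
    rw [← map_maximalIdeal_of_surjective f hf]
    apply le_antisymm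
    · have e1 : maximalIdeal R = Ideal.span (s : Set R) := hspan.symm
      rw [e1, Ideal.map_span, Ideal.span_le]
      rintro _ ⟨b, hb, rfl⟩
      by_cases hba : b = a
      · subst hba
        rw [← hc, ← Finset.add_sum_erase s _ ha, map_add, smul_eq_mul, map_mul,
          add_eq_zero_iff_eq_neg] at hfx
        rw [SetLike.mem_coe, ← Ideal.unit_mul_mem_iff_mem _ hu, hfx, Ideal.neg_mem_iff, map_sum]
        refine Ideal.sum_mem _ fun b hb => ?_
        rw [smul_eq_mul, map_mul]
        exact Ideal.mul_mem_left _ _ (Ideal.subset_span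
          (Finset.mem_coe.2 (Finset.mem_image_of_mem f hb)))
      · exact Ideal.subset_span (Finset.mem_coe.2
          (Finset.mem_image_of_mem f (Finset.mem_erase.2 ⟨hba, hb⟩)))
    · rw [Ideal.span_le]
      intro z hz
      obtain ⟨b, hb, rfl⟩ := Finset.mem_image.1 (Finset.mem_coe.1 hz)
      exact Ideal.mem_map_of_mem f (hsm b (Finset.mem_of_mem_erase hb))
  have hle : (maximalIdeal S).spanFinrank + 1 ≤ s.card := by
    have h1 := Submodule.spanFinrank_span_le_ncard_of_finite (R := S)
      (Finset.finite_toSet ((s.erase a).image f))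
    rw [Set.ncard_coe_finset] at h1
    have h2 : ((s.erase a).image f).card ≤ (s.erase a).card := Finset.card_image_le
    have h3 := Finset.card_erase_add_one ha
    have h4 : (maximalIdeal S).spanFinrank ≤ ((s.erase a).image f).card := by
      rw [hmS]
      exact h1
    omega
  have hdim : ringKrullDim R ≤ ringKrullDim S + 1 := by
    have h1 := ringKrullDim_le_ringKrullDim_quotient_add_encard ({x} : Set R) (by
      rw [Set.singleton_subset_iff, SetLike.mem_coe, IsLocalRing.ringJacobson_eq_maximalIdeal]
      exact hx)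
    have e : (R ⧸ Ideal.span {x}) ≃+* S :=
      (Ideal.quotEquivOfEq hker.symm).trans (RingHom.quotientKerEquivOfSurjective hf)
    rw [ringKrullDim_eq_of_ringEquiv e, Set.encard_singleton] at h1
    exact h1
  rw [← IsRegularLocalRing.spanFinrank_maximalIdeal, ← hs] at hdim
  apply IsRegularLocalRing.of_spanFinrank_maximalIdeal_le
  have h5 : (((maximalIdeal S).spanFinrank + 1 : ℕ) : WithBot ℕ∞) ≤ ringKrullDim S + 1 :=
    le_trans (by exact_mod_cast hle) hdim
  generalize ringKrullDim S = D at h5 ⊢
  generalize (maximalIdeal S).spanFinrank = n at h5 ⊢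
  induction D using WithBot.recBotCoe with
  | bot => simp at h5
  | coe D =>
    induction D using ENat.recTopCoe with
    | top => exact_mod_cast le_top
    | coe D =>
      have h6 : n + 1 ≤ D + 1 := by exact_mod_cast h5
      exact_mod_cast Nat.le_of_succ_le_succ h6

/-- An additive map with the product rule detects elements outside the symbolic square. -/
private theorem der_mem {R : Type} [CommRing R] (D : R →+ R)
    (hD : ∀ a b, D (a * b) = a * D b + b * D a) {q : Ideal R} [hq : q.IsPrime] {s F : R}
    (hs : s ∉ q) (hF : F ∈ q) (h : s * F ∈ q * q) : D F ∈ q := by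
  have h1 : ∀ g ∈ q * q, D g ∈ q := by
    intro g hg
    refine Submodule.mul_induction_on hg (fun a ha b hb => ?_) (fun a b ha hb => ?_)
    · rw [hD]
      exact add_mem (q.mul_mem_right _ ha) (q.mul_mem_right _ hb)
    · rw [map_add]
      exact add_mem ha hb
  have h2 := h1 _ h
  rw [hD] at h2
  have h3 : s * D F ∈ q := by simpa using sub_mem h2 (q.mul_mem_right (D s) hF)
  exact (hq.mem_or_mem h3).resolve_left hs

/-- The coefficientwise derivative in the uniformizer, as a map to dual numbers. -/
private def dualCoeff : PowerSeries k →+* TrivSqZeroExt (MvPolynomial (Fin 2) (PowerSeries k))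
    (MvPolynomial (Fin 2) (PowerSeries k)) where
  toFun a := TrivSqZeroExt.inl (C a) + TrivSqZeroExt.inr (C (PowerSeries.derivative k a))
  map_one' := by ext1 <;> simp
  map_mul' a b := by
    ext1
    · simp
    · simp [Derivation.leibniz, mul_comm]
  map_zero' := by ext1 <;> simp
  map_add' a b := by ext1 <;> simp

private def dualMap : MvPolynomial (Fin 2) (PowerSeries k) →+*
    TrivSqZeroExt (MvPolynomial (Fin 2) (PowerSeries k)) (MvPolynomial (Fin 2) (PowerSeries k)) :=
  eval₂Hom (dualCoeff k) fun i => TrivSqZeroExt.inl (X i)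

private theorem fst_dualMap (g : MvPolynomial (Fin 2) (PowerSeries k)) : (dualMap k g).fst = g := by
  induction g using MvPolynomial.induction_on with
  | C a => simp [dualMap, dualCoeff]
  | add f g hf hg => rw [map_add, TrivSqZeroExt.fst_add, hf, hg]
  | mul_X f i hf =>
    rw [map_mul, TrivSqZeroExt.fst_mul, hf]
    simp [dualMap]

private theorem exists_dt : ∃ D : MvPolynomial (Fin 2) (PowerSeries k) →+
    MvPolynomial (Fin 2) (PowerSeries k), (∀ a b, D (a * b) = a * D b + b * D a) ∧
      D (rel k) = -(1 + X 0 ^ 3 + X 1 ^ 3) := by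
  refine ⟨AddMonoidHom.mk' (fun g => (dualMap k g).snd) fun a b => by simp, fun a b => ?_, ?_⟩
  · simp only [AddMonoidHom.mk'_apply, map_mul, TrivSqZeroExt.snd_mul, fst_dualMap]
    simp [mul_comm]
  · simp [rel, dualMap, dualCoeff, ← TrivSqZeroExt.inl_pow]

private theorem rel_notMem (q : Ideal (MvPolynomial (Fin 2) (PowerSeries k))) [hq : q.IsPrime]
    (hF : rel k ∈ q) {s : MvPolynomial (Fin 2) (PowerSeries k)} (hs : s ∉ q) :
    s * rel k ∉ q * q := by
  intro h
  obtain ⟨D, hD, hDF⟩ := exists_dt k
  have hw : (1 + X 0 ^ 3 + X 1 ^ 3 : MvPolynomial (Fin 2) (PowerSeries k)) ∈ q := by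
    have := der_mem D hD hs hF h
    rwa [hDF, Ideal.neg_mem_iff] at this
  have hp : ∀ i : Fin 2, pderiv i (rel k) ∈ q := fun i =>
    der_mem (pderiv i : Derivation (PowerSeries k) _ _).toLinearMap.toAddMonoidHom
      (fun a b => by simp [Derivation.leibniz]) hs hF h
  have h0 : (X 1 - C PowerSeries.X * 3 * X 0 * X 0 : MvPolynomial (Fin 2) (PowerSeries k)) ∈ q := by
    convert hp 0 using 1
    simp [rel, Derivation.leibniz, Derivation.leibniz_pow, pderiv_X]
    ring
  have h1 : (X 0 - C PowerSeries.X * 3 * X 1 * X 1 : MvPolynomial (Fin 2) (PowerSeries k)) ∈ q := by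
    convert hp 1 using 1
    simp [rel, Derivation.leibniz, Derivation.leibniz_pow, pderiv_X]
    ring
  have huv : (X 0 * X 1 : MvPolynomial (Fin 2) (PowerSeries k)) ∈ q := by
    have := add_mem hF (q.mul_mem_left (C PowerSeries.X) hw)
    simpa [rel] using this
  have hboth : (X 0 : MvPolynomial (Fin 2) (PowerSeries k)) ∈ q ∧
      (X 1 : MvPolynomial (Fin 2) (PowerSeries k)) ∈ q := by
    rcases hq.mem_or_mem huv with hu | hv
    · have h2 := add_mem h0 (q.mul_mem_left (C PowerSeries.X * 3 * X 0) hu)
      rw [sub_add_cancel] at h2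
      exact ⟨hu, h2⟩
    · have h2 := add_mem h1 (q.mul_mem_left (C PowerSeries.X * 3 * X 1) hv)
      rw [sub_add_cancel] at h2
      exact ⟨h2, hv⟩
  apply hq.ne_top
  rw [Ideal.eq_top_iff_one]
  have := q.sub_mem (q.sub_mem hw (q.pow_mem_of_mem hboth.2 3 (by norm_num)))
    (q.pow_mem_of_mem hboth.1 3 (by norm_num))
  convert this using 1
  ring

theorem regular_B (p : PrimeSpectrum (Bq k)) :
    IsRegularLocalRing (Localization.AtPrime p.asIdeal) := by
  set q : Ideal (MvPolynomial (Fin 2) (PowerSeries k)) := p.asIdeal.comap (bmk k) with hq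
  have hF0 : bmk k (rel k) = 0 := (bmk_eq_zero k _).2 dvd_rfl
  have hF : rel k ∈ q := by
    rw [hq, Ideal.mem_comap, hF0]
    exact zero_mem _
  have hT : Submonoid.map (bmk k) q.primeCompl = p.asIdeal.primeCompl := by
    ext b
    constructor
    · rintro ⟨g, hg, rfl⟩
      exact hg
    · intro hb
      obtain ⟨g, rfl⟩ := bmk_surjective k b
      exact ⟨g, hb, rfl⟩
  have hreg : IsRegularLocalRing (Localization.AtPrime q) :=
    IsRegularRing.isRegularLocalRing_localization q
  refine regular_of_surjective (Localization.localRingHom q p.asIdeal (bmk k) hq) ?_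
    (x := algebraMap _ (Localization.AtPrime q) (rel k)) ?_ ?_ ?_
  · intro z
    obtain ⟨b, c, rfl⟩ := IsLocalization.exists_mk'_eq p.asIdeal.primeCompl z
    obtain ⟨g, rfl⟩ := bmk_surjective k b
    obtain ⟨c, hc⟩ := c
    obtain ⟨d, rfl⟩ := bmk_surjective k c
    exact ⟨IsLocalization.mk' _ g (⟨d, hc⟩ : q.primeCompl),
      Localization.localRingHom_mk' _ _ _ _ _ _⟩
  · have h1 := IsLocalization.ker_map (S := Localization.AtPrime q)
      (Localization.AtPrime p.asIdeal) (bmk k) hT
    rw [ker_bmk, Ideal.map_span, Set.image_singleton] at h1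
    exact h1
  · rw [← Localization.AtPrime.map_eq_maximalIdeal]
    exact Ideal.mem_map_of_mem _ hF
  · rw [← Localization.AtPrime.map_eq_maximalIdeal, ← Ideal.map_mul]
    intro h
    obtain ⟨s, hs, h2⟩ := (IsLocalization.algebraMap_mem_map_algebraMap_iff q.primeCompl
      (Localization.AtPrime q) (q * q) (rel k)).1 h
    exact rel_notMem k q hF hs h2

end Pool.Agent.P.MP_6277db_ag
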