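import Pool.Agent.P.MP_6277db_ag.Charts
import Pool.Agent.P.MP_6277db_ag.Regular

noncomputable section

open CategoryTheory AlgebraicGeometry

namespace Pool.Agent.P.MP_6277db_ag

variable {k : Type} [Field k]

open Limits in
private theorem isPushout_quot {A B : Type} [CommRing A] [CommRing B] (φ : A →+* B) (t : A) :
    IsPushout (CommRingCat.ofHom (Ideal.Quotient.mk (Ideal.span {t}))) (CommRingCat.ofHom φ)
      (CommRingCat.ofHom (Ideal.quotientMap (I := Ideal.span {t}) (Ideal.span {φ t}) φ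
        ((Ideal.span_singleton_le_iff_mem _).2 (Ideal.mem_span_singleton_self _))))
      (CommRingCat.ofHom (Ideal.Quotient.mk (Ideal.span {φ t}))) := by
  refine ⟨⟨by ext a; simp⟩, ⟨PushoutCocone.IsColimit.mk _ (fun s => CommRingCat.ofHom
    (Ideal.Quotient.lift _ s.inr.hom ?_)) ?_ ?_ ?_⟩⟩
  · intro b hb
    obtain ⟨c, rfl⟩ := Ideal.mem_span_singleton'.1 hb
    have h1 : s.inl.hom (Ideal.Quotient.mk (Ideal.span {t}) t) = s.inr.hom (φ t) :=
      congr($(s.condition).hom t)
    rw [Ideal.Quotient.eq_zero_iff_mem.2 (Ideal.mem_span_singleton_self _), map_zero] at h1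
    rw [map_mul, ← h1, mul_zero]
  · intro s
    ext a
    have h1 : s.inl.hom (Ideal.Quotient.mk (Ideal.span {t}) a) = s.inr.hom (φ a) :=
      congr($(s.condition).hom a)
    simpa using h1.symm
  · intro s
    ext b
    simp
  · intro s m _ h2
    ext b
    have h1 : m.hom (Ideal.Quotient.mk (Ideal.span {φ t}) b) = s.inr.hom b := congr($(h2).hom b)
    simpa using h1

private theorem eq_closedPoint_iff (q : PrimeSpectrum (PowerSeries k)) :
    q = IsLocalRing.closedPoint (PowerSeries k) ↔ PowerSeries.X ∈ q.asIdeal := by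
  constructor
  · rintro rfl
    change _ ∈ IsLocalRing.maximalIdeal _
    rw [PowerSeries.maximalIdeal_eq_span_X]
    exact Ideal.mem_span_singleton_self _
  · intro h
    refine PrimeSpectrum.ext (le_antisymm (IsLocalRing.le_maximalIdeal q.2.ne_top) ?_)
    change IsLocalRing.maximalIdeal _ ≤ _
    rw [PowerSeries.maximalIdeal_eq_span_X]
    exact (Ideal.span_singleton_le_iff_mem _).2 h

open Limits in
theorem exists_fibre (C : Charts k) : Nonempty (Fibre C) := by
  let g : Spec (.of (PowerSeries k ⧸ Ideal.span {(PowerSeries.X : PowerSeries k)})) ⟶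
      Spec (.of (PowerSeries k)) := Spec.map (CommRingCat.ofHom (Ideal.Quotient.mk _))
  have hg : IsClosedImmersion g :=
    IsClosedImmersion.spec_of_surjective _ Ideal.Quotient.mk_surjective
  have hP := isPullback_SpecMap_of_isPushout _ _ _ _
    (isPushout_quot (algebraMap (PowerSeries k) (Bq k)) PowerSeries.X)
  have hP' (i : Fin 3) := (C.c_f i).symm ▸ hP
  refine ⟨⟨pullback C.f g, pullback.fst _ _, fun i => pullback.lift _ _
    (by rw [Category.assoc]; exact (hP' i).w.symm), inferInstance, fun i => ?_, ?_⟩⟩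
  · refine IsPullback.of_right ?_ (pullback.lift_fst _ _ _) (IsPullback.of_hasPullback C.f g).flip
    rw [pullback.lift_snd]
    exact hP' i
  · rw [Scheme.Pullback.range_fst]
    congr 1
    ext q
    refine Iff.trans ?_ (eq_closedPoint_iff q).symm
    have h1 : Set.range g = PrimeSpectrum.zeroLocus (RingHom.ker (Ideal.Quotient.mk
        (Ideal.span {(PowerSeries.X : PowerSeries k)}))) :=
      range_comap_of_surjective _ _ Ideal.Quotient.mk_surjective
    rw [h1, Ideal.mk_ker, PrimeSpectrum.zeroLocus_span]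
    exact Set.singleton_subset_iff

/-- the local ring of `X` at a point of a chart -/
private def Charts.stalkEquiv (C : Charts k) (i : Fin 3) (p : PrimeSpectrum (Bq k)) :
    C.X.presheaf.stalk (C.c i p) ≃+* Localization.AtPrime p.asIdeal :=
  haveI := C.openImm i
  (asIso ((C.c i).stalkMap p) ≪≫ Spec.stalkIso (.of (Bq k)) p).commRingCatIsoToRingEquiv

theorem Charts.regular (C : Charts k) (x : C.X) : IsRegularLocalRing (C.X.presheaf.stalk x) := by
  obtain ⟨i, p, rfl⟩ := C.surj x
  have := regular_B k p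
  exact IsRegularLocalRing.of_ringEquiv (C.stalkEquiv i p).symm

theorem Charts.dvr (C : Charts k) (i : Fin 3) (p : PrimeSpectrum (Bq k)) (hp : p = PU k ∨ p = PV k) :
    ∃ _ : IsDomain (C.X.presheaf.stalk (C.c i p)),
      IsDiscreteValuationRing (C.X.presheaf.stalk (C.c i p)) := by
  have h : ∃ _ : IsDomain (Localization.AtPrime p.asIdeal),
      IsDiscreteValuationRing (Localization.AtPrime p.asIdeal) := by
    rcases hp with rfl | rfl
    · exact dvr_PU k
    · exact dvr_PV k
  obtain ⟨h1, h2⟩ := h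
  have h3 : IsDomain (C.X.presheaf.stalk (C.c i p)) :=
    MulEquiv.isDomain _ (C.stalkEquiv i p).toMulEquiv
  exact ⟨h3, IsDiscreteValuationRing.RingEquivClass.isDiscreteValuationRing
    (C.stalkEquiv i p).symm⟩

/-- the three charts as an open cover -/
private def Charts.cover (C : Charts k) : C.X.OpenCover :=
  Scheme.Cover.mkOfCovers (Fin 3) (fun _ => Spec (.of (Bq k))) C.c C.surj C.openImm

theorem Charts.flat (C : Charts k) : Flat C.f := by
  refine IsZariskiLocalAtSource.of_openCover (P := @Flat) C.cover fun i => ?_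
  change Flat (C.c i ≫ C.f)
  rw [C.c_f, Flat.SpecMap_iff]
  have := flat_B k
  exact RingHom.flat_algebraMap_iff.2 this

private theorem Charts.mem_fibre (C : Charts k) (i : Fin 3) (p : PrimeSpectrum (Bq k)) :
    C.f (C.c i p) = IsLocalRing.closedPoint (PowerSeries k) ↔ bt k ∈ p.asIdeal := by
  rw [← Scheme.Hom.comp_apply, C.c_f]
  exact eq_closedPoint_iff _

private theorem Charts.specializes (C : Charts k) (i : Fin 3) {p q : PrimeSpectrum (Bq k)}
    (h : p.asIdeal ≤ q.asIdeal) : C.c i p ⤳ C.c i q :=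
  ((PrimeSpectrum.le_iff_specializes p q).1 h).map (C.c i).continuous

private theorem bt_mem_PU : bt k ∈ (PU k).asIdeal := by
  rw [PU_eq]
  exact Ideal.subset_span (by simp)

private theorem bu_mem_PU : bu k ∈ (PU k).asIdeal := by
  rw [PU_eq]
  exact Ideal.subset_span (by simp)

private theorem bt_mem_PV : bt k ∈ (PV k).asIdeal := by
  rw [PV_eq]
  exact Ideal.subset_span (by simp)

private theorem bv_mem_PV : bv k ∈ (PV k).asIdeal := by
  rw [PV_eq]
  exact Ideal.subset_span (by simp)

private theorem bv_notMem_PU : bv k ∉ (PU k).asIdeal := by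
  change bv k ∉ RingHom.ker (epsU k)
  simp [RingHom.mem_ker, epsU]

private theorem bu_notMem_PV : bu k ∉ (PV k).asIdeal := by
  change bu k ∉ RingHom.ker (epsV k)
  simp [RingHom.mem_ker, epsV]

private theorem le_or_le (q : PrimeSpectrum (Bq k)) (h : bt k ∈ q.asIdeal) :
    (PU k).asIdeal ≤ q.asIdeal ∨ (PV k).asIdeal ≤ q.asIdeal :=
  le_of_bt_mem k q.asIdeal h

theorem Charts.eta (C : Charts k) (i : Fin 3) : C.c i (PU k) = C.c (i + 2) (PV k) := by
  have hi : i + 2 + 1 = i := by revert i; decide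
  refine (Specializes.antisymm ?_ ?_).eq
  · obtain ⟨q, hq⟩ := (C.memU (i + 2) (PV k)).2 bu_notMem_PV
    rw [hi] at hq
    have h1 : bt k ∈ q.asIdeal := by
      rw [← C.mem_fibre i q, hq, C.mem_fibre]
      exact bt_mem_PV
    have h2 : bv k ∉ q.asIdeal := (C.memV i q).1 ⟨_, hq.symm⟩
    rw [← hq]
    rcases le_or_le q h1 with h | h
    · exact C.specializes i h
    · exact absurd (h bv_mem_PV) h2
  · obtain ⟨q, hq⟩ := (C.memV i (PU k)).2 bv_notMem_PU
    have h1 : bt k ∈ q.asIdeal := by
      rw [← C.mem_fibre (i + 2) q, hq, C.mem_fibre]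
      exact bt_mem_PU
    have h2 : bu k ∉ q.asIdeal := by
      refine (C.memU (i + 2) q).1 ?_
      rw [hi]
      exact ⟨_, hq.symm⟩
    rw [← hq]
    rcases le_or_le q h1 with h | h
    · exact absurd (h bu_mem_PU) h2
    · exact C.specializes (i + 2) h

theorem Charts.connected (C : Charts k) : ConnectedSpace C.X := by
  have := C.proper
  let m : PrimeSpectrum (Bq k) :=
    ⟨RingHom.ker ((Polynomial.evalRingHom 0).comp (epsU k)), RingHom.ker_isPrime _⟩
  have hU : (PU k).asIdeal ≤ m.asIdeal := by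
    intro b hb
    have h : epsU k b = 0 := hb
    change Polynomial.evalRingHom 0 (epsU k b) = 0
    rw [h, map_zero]
  have hV : (PV k).asIdeal ≤ m.asIdeal := by
    rw [PV_eq, Ideal.span_le]
    rintro b (rfl | rfl)
    · exact hU bt_mem_PU
    · change Polynomial.evalRingHom 0 (epsU k (bv k)) = 0
      simp [epsU]
  have key : ∀ S : Set C.X, IsClopen S → S.Nonempty → C.c 0 (PU k) ∈ S := by
    intro S hS ⟨x, hx⟩
    have hsp : ∀ {a b : C.X}, a ⤳ b → (a ∈ S ↔ b ∈ S) := fun h =>
      ⟨h.mem_closed hS.isClosed, h.mem_open hS.isOpen⟩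
    have hUV : ∀ i, C.c i (PU k) ∈ S ↔ C.c i (PV k) ∈ S := fun i =>
      (hsp (C.specializes i hU)).trans (hsp (C.specializes i hV)).symm
    have h02 : C.c 0 (PU k) ∈ S ↔ C.c 2 (PU k) ∈ S := by
      rw [C.eta 0, hUV 2]
      rfl
    have h10 : C.c 1 (PU k) ∈ S ↔ C.c 0 (PU k) ∈ S := by
      rw [C.eta 1, hUV 0]
      rfl
    obtain ⟨z, hz, hzf⟩ := (IsLocalRing.specializes_closedPoint (C.f x)).mem_closed
      (C.f.isClosedMap S hS.isClosed) ⟨x, hx, rfl⟩
    obtain ⟨i, p, rfl⟩ := C.surj z
    have h3 : C.c i (PU k) ∈ S := by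
      rcases le_or_le p ((C.mem_fibre i p).1 hzf) with h | h
      · exact (hsp (C.specializes i h)).2 hz
      · exact (hUV i).2 ((hsp (C.specializes i h)).2 hz)
    fin_cases i
    · exact h3
    · exact h10.1 h3
    · exact h02.2 h3
  have : Nonempty C.X := ⟨C.c 0 (PU k)⟩
  have : PreconnectedSpace C.X := by
    refine preconnectedSpace_iff_clopen.2 fun S hS => ?_
    by_contra h
    rw [not_or] at h
    exact key Sᶜ hS.compl (Set.nonempty_compl.2 h.2) (key S hS (Set.nonempty_iff_ne_empty.2 h.1))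
  exact ⟨inferInstance⟩

private theorem Fibre.openImm {C : Charts k} (F : Fibre C) (i : Fin 3) :
    IsOpenImmersion (F.c' i) :=
  MorphismProperty.of_isPullback (P := @IsOpenImmersion) (F.isPullback i).flip (C.openImm i)

private theorem Fibre.surj {C : Charts k} (F : Fibre C) (y : F.Y) : ∃ i p, F.c' i p = y := by
  obtain ⟨i, p, hp⟩ := C.surj (F.ι y)
  obtain ⟨q, hq, -⟩ := Scheme.exists_preimage_of_isPullback (F.isPullback i) y p hp.symm
  exact ⟨i, q, hq⟩

theorem Fibre.reduced {C : Charts k} (F : Fibre C) : IsReduced F.Y := by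
  have h1 : _root_.IsReduced (Bq k ⧸ Ideal.span {bt k}) := by
    rw [← Ideal.isRadical_iff_quotient_reduced, ← PU_inf_PV]
    exact Ideal.IsRadical.inf (PU k).2.isRadical (PV k).2.isRadical
  let U : F.Y.OpenCover := Scheme.Cover.mkOfCovers (Fin 3)
    (fun _ => Spec (.of (Bq k ⧸ Ideal.span {bt k}))) F.c' F.surj F.openImm
  have h2 : IsReduced (Spec (.of (Bq k ⧸ Ideal.span {bt k}))) := inferInstance
  have : ∀ i, IsReduced (U.X i) := fun _ => h2
  exact IsReduced.of_openCover _ U

private theorem snc_transport {R R' L L' : Type} [CommRing R] [CommRing R'] [CommRing L]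
    [CommRing L'] [IsLocalRing R] [IsLocalRing L] (e : R ≃+* L) (e' : R' ≃+* L') (φ : R →+* R')
    (ψ : L →+* L') (h : ∀ r, e' (φ r) = ψ (e r)) {d : ℕ} (x : Fin d → L) (s : Finset (Fin d))
    (h1 : ringKrullDim L = d) (h2 : Ideal.span (Set.range x) = IsLocalRing.maximalIdeal L)
    (h3 : RingHom.ker ψ = Ideal.span {∏ i ∈ s, x i}) :
    ringKrullDim R = d ∧
      Ideal.span (Set.range fun i => e.symm (x i)) = IsLocalRing.maximalIdeal R ∧
      RingHom.ker φ = Ideal.span {∏ i ∈ s, e.symm (x i)} := by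
  refine ⟨(ringKrullDim_eq_of_ringEquiv e).trans h1, ?_, ?_⟩
  · rw [← IsLocalRing.map_ringEquiv_maximalIdeal e.symm, ← h2, Ideal.map_span, ← Set.range_comp]
    rfl
  · ext r
    rw [← map_prod, RingHom.mem_ker, ← e'.map_eq_zero_iff, h, ← RingHom.mem_ker, h3,
      Ideal.mem_span_singleton, Ideal.mem_span_singleton, ← map_dvd_iff e,
      RingEquiv.apply_symm_apply]

private theorem ker_localRingHom {B : Type} [CommRing B] (t : B)
    (q : Ideal (B ⧸ Ideal.span {t})) [q.IsPrime] :
    RingHom.ker (Localization.localRingHom (q.comap (Ideal.Quotient.mk (Ideal.span {t}))) q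
      (Ideal.Quotient.mk (Ideal.span {t})) rfl) =
      Ideal.span {algebraMap B (Localization.AtPrime
        (q.comap (Ideal.Quotient.mk (Ideal.span {t})))) t} := by
  have hT : Submonoid.map (Ideal.Quotient.mk (Ideal.span {t}))
      (q.comap (Ideal.Quotient.mk (Ideal.span {t}))).primeCompl = q.primeCompl := by
    ext z
    constructor
    · rintro ⟨b, hb, rfl⟩
      exact hb
    · intro hz
      obtain ⟨b, rfl⟩ := Ideal.Quotient.mk_surjective z
      exact ⟨b, hz, rfl⟩
  refine (IsLocalization.ker_map (S := Localization.AtPrime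
    (q.comap (Ideal.Quotient.mk (Ideal.span {t})))) (Localization.AtPrime q) _ hT).trans ?_
  rw [Ideal.mk_ker, Ideal.map_span, Set.image_singleton]

theorem Fibre.snc {C : Charts k} (F : Fibre C) : IsSNC F.ι := by
  refine ⟨F.closed, fun y => ?_⟩
  obtain ⟨i, q, rfl⟩ := F.surj y
  have := F.openImm i
  have := C.openImm i
  let π : CommRingCat.of (Bq k) ⟶ CommRingCat.of (Bq k ⧸ Ideal.span {bt k}) :=
    CommRingCat.ofHom (Ideal.Quotient.mk (Ideal.span {bt k}))
  let p : PrimeSpectrum (Bq k) := PrimeSpectrum.comap π.hom q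
  have w : F.c' i ≫ F.ι = Spec.map π ≫ C.c i := (F.isPullback i).w
  have hpt : F.ι (F.c' i q) = C.c i p := by
    rw [← Scheme.Hom.comp_apply, w]
    rfl
  let e : C.X.presheaf.stalk (F.ι (F.c' i q)) ≅ .of (Localization.AtPrime p.asIdeal) :=
    C.X.presheaf.stalkCongr (.of_eq hpt) ≪≫ asIso ((C.c i).stalkMap p) ≪≫
      Spec.stalkIso (.of (Bq k)) p
  let e' : F.Y.presheaf.stalk (F.c' i q) ≅ .of (Localization.AtPrime q.asIdeal) :=
    asIso ((F.c' i).stalkMap q) ≪≫ Spec.stalkIso (.of (Bq k ⧸ Ideal.span {bt k})) q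
  let ψ := Localization.localRingHom p.asIdeal q.asIdeal π.hom rfl
  have hc : F.ι.stalkMap (F.c' i q) ≫ e'.hom = e.hom ≫ CommRingCat.ofHom ψ := by
    have h1 := Scheme.Hom.stalkMap_congr_hom _ _ w q
    rw [Scheme.Hom.stalkMap_comp, Scheme.Hom.stalkMap_comp,
      ← Scheme.localRingHom_comp_stalkIso π q] at h1
    have h2 : F.ι.stalkMap (F.c' i q) ≫ (F.c' i).stalkMap q =
        (e.hom ≫ CommRingCat.ofHom ψ) ≫
          (Spec.stalkIso (.of (Bq k ⧸ Ideal.span {bt k})) q).inv := h1
    rw [Iso.eq_comp_inv] at h2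
    exact h2
  have hp : bt k ∈ p.asIdeal := by
    change Ideal.Quotient.mk (Ideal.span {bt k}) (bt k) ∈ q.asIdeal
    rw [Ideal.Quotient.eq_zero_iff_mem.2 (Ideal.mem_span_singleton_self _)]
    exact zero_mem _
  obtain ⟨d, x, s, hs, h1, h2, h3⟩ := snc_B k p hp
  exact ⟨d, _, s, hs, snc_transport e.commRingCatIsoToRingEquiv e'.commRingCatIsoToRingEquiv
    (F.ι.stalkMap (F.c' i q)).hom ψ (fun r => congr($(hc).hom r)) x s h1 h2
    ((ker_localRingHom (bt k) q.asIdeal).trans h3)⟩

theorem Fibre.dim {C : Charts k} (F : Fibre C) : topologicalKrullDim F.Y = 1 := by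
  have h0 : topologicalKrullDim (Spec (.of (Bq k ⧸ Ideal.span {bt k}))) = 1 :=
    (PrimeSpectrum.topologicalKrullDim_eq_ringKrullDim _).trans (dim_quot k)
  refine le_antisymm ?_ ?_
  · rw [topologicalKrullDim, Order.krullDim_eq_iSup_coheight]
    refine iSup_le fun Z => ?_
    obtain ⟨y, hy⟩ := (irreducibleSetEquivPoints (α := F.Y)).symm.surjective Z
    obtain ⟨i, p, rfl⟩ := F.surj y
    have := F.openImm i
    have h1 : Z = TopologicalSpace.IrreducibleCloseds.map (F.c' i) (F.c' i).continuous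
        ((irreducibleSetEquivPoints (α := Spec (.of (Bq k ⧸ Ideal.span {bt k})))).symm p) := by
      rw [← hy]
      ext : 1
      simp [closure_image_closure (F.c' i).continuous]
    rw [h1, (F.c' i).isOpenEmbedding.coheight_map, ← h0]
    exact Order.coheight_le_krullDim _
  · have := F.openImm 0
    rw [← h0]
    exact (F.c' 0).isOpenEmbedding.isInducing.topologicalKrullDim_le

end Pool.Agent.P.MP_6277db_ag
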