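import Mathlib

noncomputable section

open scoped NNReal unitInterval

namespace Pool.Agent.P.MP_6277db_ag

namespace Mono

open MvPowerSeries

variable {k : Type} [Field k]

/-- weight of a monomial -/
def wt (c : Fin 2 → ℝ≥0) (d : Fin 2 →₀ ℕ) : ℝ≥0 := ∏ i, c i ^ d i

theorem wt_add (c : Fin 2 → ℝ≥0) (d e : Fin 2 →₀ ℕ) : wt c (d + e) = wt c d * wt c e := by
  simp [wt, pow_add, Finset.prod_mul_distrib]

theorem wt_le_one {c : Fin 2 → ℝ≥0} (hc : ∀ i, c i ≤ 1) (d : Fin 2 →₀ ℕ) : wt c d ≤ 1 :=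
  Finset.prod_le_one' fun i _ => pow_le_one' (hc i) _

theorem wt_pos {c : Fin 2 → ℝ≥0} (hc : ∀ i, 0 < c i) (d : Fin 2 →₀ ℕ) : 0 < wt c d :=
  Finset.prod_pos fun i _ => pow_pos (hc i) _

theorem wt_anti {c : Fin 2 → ℝ≥0} (hc : ∀ i, c i ≤ 1) {d e : Fin 2 →₀ ℕ} (h : d ≤ e) :
    wt c e ≤ wt c d :=
  Finset.prod_le_prod' fun i _ => pow_le_pow_of_le_one (zero_le) (hc i) (h i)

theorem finite_min (S : Set (Fin 2 →₀ ℕ)) : {d | Minimal (· ∈ S) d}.Finite :=
  (setOfPred_minimal_antichain _).finite_of_partiallyWellOrderedOn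
    (Set.isPWO_of_wellQuasiOrderedLE _)

/-- the minimal elements of the support -/
def mins (f : MvPowerSeries (Fin 2) k) : Finset (Fin 2 →₀ ℕ) :=
  (finite_min {d | coeff d f ≠ 0}).toFinset

/-- the monomial valuation as a function -/
def gv (c : Fin 2 → ℝ≥0) (f : MvPowerSeries (Fin 2) k) : ℝ≥0 := (mins f).sup (wt c)

theorem mins_ne {f : MvPowerSeries (Fin 2) k} {d : Fin 2 →₀ ℕ} (h : d ∈ mins f) :
    coeff d f ≠ 0 := by
  rw [mins, Set.Finite.mem_toFinset] at h
  exact h.prop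

theorem exists_mins {f : MvPowerSeries (Fin 2) k} {d : Fin 2 →₀ ℕ} (h : coeff d f ≠ 0) :
    ∃ e ∈ mins f, e ≤ d := by
  obtain ⟨e, he, he'⟩ :=
    (Set.isPWO_of_wellQuasiOrderedLE {d | coeff d f ≠ 0}).exists_le_minimal (a := d) h
  exact ⟨e, by rw [mins, Set.Finite.mem_toFinset]; exact he', he⟩

theorem le_gv {c : Fin 2 → ℝ≥0} (hc : ∀ i, c i ≤ 1) {f : MvPowerSeries (Fin 2) k}
    {d : Fin 2 →₀ ℕ} (h : coeff d f ≠ 0) : wt c d ≤ gv c f := by
  obtain ⟨e, he, hed⟩ := exists_mins h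
  exact (wt_anti hc hed).trans (Finset.le_sup (f := wt c) he)

theorem gv_le {c : Fin 2 → ℝ≥0} {f : MvPowerSeries (Fin 2) k} {b : ℝ≥0}
    (h : ∀ d, coeff d f ≠ 0 → wt c d ≤ b) : gv c f ≤ b :=
  Finset.sup_le fun d hd => h d (mins_ne hd)

theorem exists_gv (c : Fin 2 → ℝ≥0) {f : MvPowerSeries (Fin 2) k} (h : f ≠ 0) :
    ∃ d, coeff d f ≠ 0 ∧ wt c d = gv c f := by
  obtain ⟨d, hd⟩ := (MvPowerSeries.ne_zero_iff_exists_coeff_ne_zero f).mp h
  obtain ⟨e, he, -⟩ := exists_mins hd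
  obtain ⟨e', he', h2⟩ := Finset.exists_mem_eq_sup (mins f) ⟨e, he⟩ (wt c)
  exact ⟨e', mins_ne he', h2.symm⟩

theorem gv_zero (c : Fin 2 → ℝ≥0) : gv c (0 : MvPowerSeries (Fin 2) k) = 0 :=
  le_antisymm (gv_le fun d hd => (hd (by simp)).elim) zero_le

theorem exists_lex (c : Fin 2 → ℝ≥0) {f : MvPowerSeries (Fin 2) k} (h : f ≠ 0) :
    ∃ d, coeff d f ≠ 0 ∧ wt c d = gv c f ∧
      ∀ e, coeff e f ≠ 0 → wt c e = gv c f → toLex d ≤ toLex e := by
  obtain ⟨d, hd⟩ := exists_gv c h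
  obtain ⟨m, hm, hmin⟩ := (wellFounded_lt (α := Lex (Fin 2 →₀ ℕ))).has_min
    {x | coeff (ofLex x) f ≠ 0 ∧ wt c (ofLex x) = gv c f} ⟨toLex d, hd⟩
  exact ⟨ofLex m, hm.1, hm.2, fun e h1 h2 => not_lt.1 (hmin (toLex e) ⟨h1, h2⟩)⟩

theorem gv_mul {c : Fin 2 → ℝ≥0} (hc : ∀ i, c i ≤ 1) (hp : ∀ i, 0 < c i)
    (f g : MvPowerSeries (Fin 2) k) : gv c (f * g) = gv c f * gv c g := by
  classical
  refine le_antisymm (gv_le fun d hd => ?_) ?_
  · rw [coeff_mul] at hd
    obtain ⟨p, hp1, hp2⟩ := Finset.exists_ne_zero_of_sum_ne_zero hd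
    rw [← Finset.HasAntidiagonal.mem_antidiagonal.1 hp1, wt_add]
    exact mul_le_mul' (le_gv hc (left_ne_zero_of_mul hp2)) (le_gv hc (right_ne_zero_of_mul hp2))
  · by_cases hf : f = 0
    · simp [hf, gv_zero]
    by_cases hg : g = 0
    · simp [hg, gv_zero]
    obtain ⟨d, hd, hd1, hd2⟩ := exists_lex c hf
    obtain ⟨e, he, he1, he2⟩ := exists_lex c hg
    rw [← hd1, ← he1, ← wt_add]
    refine le_gv hc ?_
    rw [coeff_mul, Finset.sum_eq_single (d, e)]
    · exact mul_ne_zero hd he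
    · rintro ⟨p, q⟩ hpq hne
      by_contra h0
      have hsum : p + q = d + e := Finset.HasAntidiagonal.mem_antidiagonal.1 hpq
      have h1 := le_gv hc (left_ne_zero_of_mul h0)
      have h2 := le_gv hc (right_ne_zero_of_mul h0)
      have h3 : wt c p * wt c q = gv c f * gv c g := by
        rw [← wt_add, hsum, wt_add, hd1, he1]
      have hf0 : 0 < gv c f := hd1 ▸ wt_pos hp d
      have hg0 : 0 < gv c g := he1 ▸ wt_pos hp e
      have h4 : wt c p = gv c f := by
        by_contra hn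
        exact (mul_lt_mul_of_lt_of_le_of_nonneg_of_pos (lt_of_le_of_ne h1 hn) h2 zero_le hg0).ne h3
      have h5 : wt c q = gv c g := by
        rw [h4] at h3
        exact mul_left_cancel₀ hf0.ne' h3
      have h6 := hd2 p (left_ne_zero_of_mul h0) h4
      have h7 := he2 q (right_ne_zero_of_mul h0) h5
      have h8 : toLex d + toLex e = toLex p + toLex q := congrArg toLex hsum.symm
      obtain ⟨h9, h10⟩ := (add_eq_add_iff_eq_and_eq h6 h7).1 h8
      exact hne (Prod.ext (toLex.injective h9).symm (toLex.injective h10).symm)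
    · intro h
      exact (h (Finset.HasAntidiagonal.mem_antidiagonal.2 rfl)).elim

theorem gv_monomial {c : Fin 2 → ℝ≥0} (hc : ∀ i, c i ≤ 1) (d : Fin 2 →₀ ℕ) :
    gv c (monomial d (1 : k)) = wt c d := by
  classical
  refine le_antisymm (gv_le fun e he => ?_) (le_gv hc (by simp))
  rw [coeff_monomial] at he
  by_cases h : e = d
  · rw [h]
  · simp [h] at he

/-- the monomial valuation -/
def mv (c : Fin 2 → ℝ≥0) (hc : ∀ i, c i ≤ 1) (hp : ∀ i, 0 < c i) :
    Valuation (MvPowerSeries (Fin 2) k) ℝ≥0 where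
  toFun := gv c
  map_zero' := gv_zero c
  map_one' := by
    have := gv_monomial (k := k) hc 0
    simpa [wt] using this
  map_mul' := gv_mul hc hp
  map_add_le_max' f g := by
    refine gv_le fun d hd => ?_
    rw [map_add] at hd
    by_cases h : coeff d f = 0
    · exact le_max_of_le_right (le_gv hc (by simpa [h] using hd))
    · exact le_max_of_le_left (le_gv hc h)

theorem gv_ne_zero {c : Fin 2 → ℝ≥0} (hp : ∀ i, 0 < c i) {f : MvPowerSeries (Fin 2) k}
    (h : f ≠ 0) : gv c f ≠ 0 := by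
  obtain ⟨d, -, hd⟩ := exists_gv c h
  exact hd ▸ (wt_pos hp d).ne'

theorem supp_le (c : Fin 2 → ℝ≥0) (hc : ∀ i, c i ≤ 1) (hp : ∀ i, 0 < c i) :
    nonZeroDivisors (MvPowerSeries (Fin 2) k) ≤ (mv (k := k) c hc hp).supp.primeCompl :=
  fun _ hf => gv_ne_zero hp (nonZeroDivisors.ne_zero hf)

theorem gv_lt_one_iff {c : Fin 2 → ℝ≥0} (hc : ∀ i, c i ≤ 1) (f : MvPowerSeries (Fin 2) k) :
    gv c f < 1 ↔ ∀ d, wt c d = 1 → coeff d f = 0 := by
  constructor
  · intro h d hd
    by_contra h0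
    exact (hd ▸ le_gv hc h0).not_gt h
  · intro h
    by_cases hf : f = 0
    · simp [hf, gv_zero]
    obtain ⟨d, hd, hd1⟩ := exists_gv c hf
    rw [← hd1]
    exact lt_of_le_of_ne (wt_le_one hc d) fun h1 => hd (h d h1)

/-- the inclusion of one variable -/
def emb (i : Fin 2) : Unit ↪ Fin 2 := ⟨fun _ => i, fun _ _ _ => rfl⟩

theorem kill_eq_zero_iff (i : Fin 2) (f : MvPowerSeries (Fin 2) k) :
    killCompl (emb i) f = 0 ↔ ∀ n : ℕ, coeff (Finsupp.single i n) f = 0 := by
  have key : ∀ n : ℕ, Finsupp.embDomain (emb i) (Finsupp.single () n) = Finsupp.single i n :=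
    fun n => Finsupp.embDomain_single _ _ _
  constructor
  · intro h n
    rw [← key, ← coeff_killCompl, h, map_zero]
  · intro h
    refine MvPowerSeries.ext fun x => ?_
    obtain ⟨n, rfl⟩ : ∃ n, x = Finsupp.single () n := ⟨_, Finsupp.unique_single x⟩
    rw [coeff_killCompl, key, h, map_zero]

theorem gv_lt_one_iff_kill {c : Fin 2 → ℝ≥0} {i j : Fin 2} (hij : ∀ l, l = i ∨ l = j)
    (hne : i ≠ j) (hi : c i = 1) (hj : c j < 1) (f : MvPowerSeries (Fin 2) k) :
    gv c f < 1 ↔ killCompl (emb i) f = 0 := by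
  have hc : ∀ l, c l ≤ 1 := fun l => by
    rcases hij l with rfl | rfl
    · exact hi.le
    · exact hj.le
  have hu : (Finset.univ : Finset (Fin 2)) = {i, j} := by
    ext l; simpa using hij l
  have hw : ∀ d, wt c d = c j ^ d j := fun d => by
    rw [wt, hu, Finset.prod_pair hne, hi, one_pow, one_mul]
  rw [gv_lt_one_iff hc, kill_eq_zero_iff]
  constructor
  · intro h n
    refine h _ ?_
    rw [hw, Finsupp.single_eq_of_ne hne.symm, pow_zero]
  · intro h d hd
    have h0 : d j = 0 := by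
      by_contra h0
      rw [hw] at hd
      exact (pow_lt_one₀ zero_le hj h0).ne hd
    have : d = Finsupp.single i (d i) := by
      ext l
      rcases hij l with rfl | rfl
      · simp
      · rw [h0, Finsupp.single_eq_of_ne hne.symm]
    rw [this]
    exact h _

/-- the weights along the path -/
def cw (s : I) : Fin 2 → ℝ≥0 :=
  ![⟨(1 + s) / 2, by have := s.2.1; positivity⟩, ⟨1 - s / 2, by have := s.2.2; linarith⟩]

theorem cw_zero (s : I) : (cw s 0 : ℝ) = (1 + s) / 2 := rfl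

theorem cw_one (s : I) : (cw s 1 : ℝ) = 1 - s / 2 := rfl

theorem cw_le (s : I) (i : Fin 2) : cw s i ≤ 1 := by
  have h0 := s.2.1
  have h1 := s.2.2
  rw [← NNReal.coe_le_coe, NNReal.coe_one]
  fin_cases i
  · exact (cw_zero s).trans_le (by linarith)
  · exact (cw_one s).trans_le (by linarith)

theorem cw_pos (s : I) (i : Fin 2) : 0 < cw s i := by
  have h0 := s.2.1
  have h1 := s.2.2
  rw [← NNReal.coe_pos]
  fin_cases i
  · exact lt_of_lt_of_eq (by linarith) (cw_zero s).symm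
  · exact lt_of_lt_of_eq (by linarith) (cw_one s).symm

theorem cw_mul_lt (s : I) : cw s 0 * cw s 1 < 1 := by
  have h0 := s.2.1
  have h1 := s.2.2
  rw [← NNReal.coe_lt_coe, NNReal.coe_mul, NNReal.coe_one, cw_zero, cw_one]
  nlinarith [sq_nonneg ((s : ℝ) - 1 / 2)]

theorem continuous_cw (i : Fin 2) : Continuous fun s => cw s i := by
  rw [NNReal.isEmbedding_coe.continuous_iff]
  fin_cases i
  · change Continuous fun s : I => ((1 + s) / 2 : ℝ)
    fun_prop
  · change Continuous fun s : I => (1 - s / 2 : ℝ)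
    fun_prop

theorem continuous_gv (f : MvPowerSeries (Fin 2) k) : Continuous fun s => gv (cw s) f :=
  Continuous.finset_sup_apply (f := fun d s => wt (cw s) d) fun _ _ =>
    continuous_finsetProd _ fun i _ => (continuous_cw i).pow _

end Mono

open MvPowerSeries Mono in
theorem exists_path (k : Type) [Field k] :
    ∃ (R : Type) (_ : CommRing R) (_ : IsDomain R) (u v : R) (τ : PowerSeries k →+* R)
      (κ₀ κ₁ : R →+* PowerSeries k) (val : I → Valuation (FractionRing R) ℝ≥0),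
      u * v = τ PowerSeries.X * (1 + u ^ 3 + v ^ 3) ∧
      κ₀ u = 0 ∧ κ₀ v = PowerSeries.X ∧ κ₁ u = PowerSeries.X ∧ κ₁ v = 0 ∧
      (∀ a, κ₀ (τ a) = PowerSeries.C (PowerSeries.constantCoeff a)) ∧
      (∀ a, κ₁ (τ a) = PowerSeries.C (PowerSeries.constantCoeff a)) ∧
      (∀ s r, val s (algebraMap R (FractionRing R) r) ≤ 1) ∧
      (∀ s, val s (algebraMap R (FractionRing R) (τ PowerSeries.X)) < 1) ∧
      (∀ x, Continuous fun s => val s x) ∧
      (∀ r, val 0 (algebraMap R (FractionRing R) r) < 1 ↔ κ₀ r = 0) ∧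
      (∀ r, val 1 (algebraMap R (FractionRing R) r) < 1 ↔ κ₁ r = 0) := by
  let w : MvPowerSeries (Fin 2) k := 1 + X 0 ^ 3 + X 1 ^ 3
  have hw : constantCoeff w ≠ 0 := by simp [w]
  let t : MvPowerSeries (Fin 2) k := X 0 * X 1 * w⁻¹
  have ht : PowerSeries.HasSubst t := PowerSeries.HasSubst.of_constantCoeff_zero (by simp [t])
  let τ : PowerSeries k →ₐ[k] MvPowerSeries (Fin 2) k := PowerSeries.substAlgHom ht
  have hτ : τ PowerSeries.X = t := PowerSeries.substAlgHom_X ht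
  have hX : ∀ i : Fin 2, killCompl (R := k) (emb i) (X i) = PowerSeries.X := fun i =>
    killCompl_X (e := emb i) ()
  have hX0 : killCompl (R := k) (emb 1) (X 0) = 0 :=
    killCompl_X_eq_zero (by rintro ⟨_, h⟩; exact absurd (show (1 : Fin 2) = 0 from h) (by decide))
  have hX1 : killCompl (R := k) (emb 0) (X 1) = 0 :=
    killCompl_X_eq_zero (by rintro ⟨_, h⟩; exact absurd (show (0 : Fin 2) = 1 from h) (by decide))
  have hκ : ∀ κ : MvPowerSeries (Fin 2) k →ₐ[k] PowerSeries k, κ t = 0 →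
      ∀ a, κ (τ a) = PowerSeries.C (PowerSeries.constantCoeff a) := by
    intro κ h a
    conv_lhs => rw [PowerSeries.eq_X_mul_shift_add_const a]
    rw [map_add, map_add, map_mul, map_mul, hτ, h, zero_mul, zero_add,
      PowerSeries.C_eq_algebraMap, AlgHom.commutes, AlgHom.commutes]
  let val : I → Valuation (FractionRing (MvPowerSeries (Fin 2) k)) ℝ≥0 := fun s =>
    (mv (k := k) (cw s) (cw_le s) (cw_pos s)).extendToLocalization
      (supp_le (k := k) (cw s) (cw_le s) (cw_pos s)) (FractionRing (MvPowerSeries (Fin 2) k))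
  have hval : ∀ s r, val s (algebraMap _ _ r) = gv (cw s) r := fun s r =>
    Valuation.extendToLocalization_apply_map_apply _ _ _ _
  have hle : ∀ s (r : MvPowerSeries (Fin 2) k), gv (cw s) r ≤ 1 := fun s r =>
    gv_le fun d _ => wt_le_one (cw_le s) d
  have hgX : ∀ s (i : Fin 2), gv (cw s) (X i : MvPowerSeries (Fin 2) k) = cw s i := by
    intro s i
    rw [X_def, gv_monomial (cw_le s)]
    fin_cases i <;> simp [wt]
  refine ⟨MvPowerSeries (Fin 2) k, inferInstance, NoZeroDivisors.to_isDomain _, X 0, X 1, τ.toRingHom,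
    (killCompl (emb 1)).toRingHom, (killCompl (emb 0)).toRingHom, val, ?_, hX0, hX 1, hX 0, hX1,
    hκ _ ?_, hκ _ ?_, ?_, ?_, ?_, ?_, ?_⟩
  · change X 0 * X 1 = τ PowerSeries.X * w
    rw [hτ, mul_assoc, MvPowerSeries.inv_mul_cancel w hw, mul_one]
  · simp only [t, map_mul, hX0, zero_mul]
  · simp only [t, map_mul, hX1, zero_mul, mul_zero]
  · intro s r
    rw [hval]
    exact hle s r
  · intro s
    rw [hval]
    change gv (cw s) (τ PowerSeries.X) < 1
    rw [hτ, gv_mul (cw_le s) (cw_pos s), gv_mul (cw_le s) (cw_pos s), hgX, hgX]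
    exact (mul_le_of_le_one_right' (hle s _)).trans_lt (cw_mul_lt s)
  · intro x
    obtain ⟨a, b, rfl⟩ :=
      IsLocalization.exists_mk'_eq (nonZeroDivisors (MvPowerSeries (Fin 2) k)) x
    have : (fun s => val s (IsLocalization.mk' _ a b)) =
        fun s => gv (cw s) a * (gv (cw s) (b : MvPowerSeries (Fin 2) k))⁻¹ :=
      funext fun s => Valuation.extendToLocalization_mk' _ _ _ _ _
    rw [this]
    exact (continuous_gv a).mul ((continuous_gv _).inv₀ fun s =>
      gv_ne_zero (cw_pos s) (nonZeroDivisors.ne_zero b.2))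
  · intro r
    rw [hval]
    refine gv_lt_one_iff_kill (i := 1) (j := 0) (by decide) (by decide) ?_ ?_ r
    · exact NNReal.eq (by rw [cw_one]; simp)
    · rw [← NNReal.coe_lt_coe, cw_zero]; norm_num
  · intro r
    rw [hval]
    refine gv_lt_one_iff_kill (i := 0) (j := 1) (by decide) (by decide) ?_ ?_ r
    · exact NNReal.eq (by rw [cw_zero]; simp)
    · rw [← NNReal.coe_lt_coe, cw_one]; norm_num

end Pool.Agent.P.MP_6277db_ag
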