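import Pool.Agent.P.MP_6277db_ag.Path
import Pool.Agent.P.MP_6277db_ag.FibreProps
import Pool.Agent.P.MP_6277db_ag.Monomial

/-!
The restriction map on `H¹` to the triangle is not surjective.
-/

noncomputable section

open CategoryTheory AlgebraicGeometry Limits Opposite IsLocalRing

namespace Pool.Agent.P.MP_6277db_ag

theorem exists_stalk_factor {X : Scheme.{0}} (x : X) [IsDomain (X.presheaf.stalk x)]
    [IsDiscreteValuationRing (X.presheaf.stalk x)] {V : Type} [CommRing V] [IsDomain V]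
    [IsLocalRing V] (φ : Spec (.of V) ⟶ X) (h : φ (closedPoint V) = x) (h' : φ (gen V) ≠ x) :
    ∃ α : X.presheaf.stalk x →+* V, IsLocalHom α ∧ Function.Injective α ∧
      Spec.map (CommRingCat.ofHom α) ≫ X.fromSpecStalk x = φ := by
  subst h
  have e := Scheme.Spec_stalkClosedPointTo_fromSpecStalk φ
  refine ⟨(Scheme.stalkClosedPointTo φ).hom, inferInstance, ?_, e⟩
  rw [RingHom.injective_iff_ker_eq_bot]
  by_contra hne
  apply h'
  have hp : (RingHom.ker (Scheme.stalkClosedPointTo φ).hom).IsPrime := RingHom.ker_isPrime _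
  have hm := IsLocalRing.eq_maximalIdeal (hp.isMaximal hne)
  have : Spec.map (Scheme.stalkClosedPointTo φ) (gen V) = closedPoint _ := PrimeSpectrum.ext hm
  conv_lhs => rw [← e]
  rw [Scheme.Hom.comp_apply, this, Scheme.fromSpecStalk_closedPoint]

theorem jv_eq_of_dvr {S : Scheme.{0}} [IsLocallyNoetherian S] {m : ℕ} {X : FT S}
    (D : GoodData m X) (x : X.obj.left) [IsDomain (X.obj.left.presheaf.stalk x)]
    [IsDiscreteValuationRing (X.obj.left.presheaf.stalk x)] {Ω Ω' : Type} [Field Ω]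
    [IsAlgClosed Ω] [Field Ω'] [IsAlgClosed Ω'] {O : ValuationSubring Ω} {O' : ValuationSubring Ω'}
    (φ : Spec (.of O) ⟶ X.obj.left) (φ' : Spec (.of O') ⟶ X.obj.left)
    (h1 : φ (closedPoint O) = x) (h2 : φ (gen O) ≠ x) (h1' : φ' (closedPoint O') = x)
    (h2' : φ' (gen O') ≠ x) : jv D φ = jv D φ' := by
  obtain ⟨α, _, hα, rfl⟩ := exists_stalk_factor x φ h1 h2
  obtain ⟨α', _, hα', rfl⟩ := exists_stalk_factor x φ' h1' h2'
  exact jv_amalg D α α' hα hα' _

variable {k : Type} [Field k]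

/-- The total space as an object of the site. -/
def Charts.XFT (C : Charts k) : FT (Spec (.of (PowerSeries k))) :=
  ⟨Over.mk C.f, by
    have := C.proper
    exact ⟨inferInstanceAs (LocallyOfFiniteType C.f), inferInstanceAs (QuasiCompact C.f)⟩⟩

/-- The special fibre as an object of the site. -/
def Fibre.YFT {C : Charts k} (F : Fibre C) : FT (Spec (.of (PowerSeries k))) :=
  ⟨Over.mk (F.ι ≫ C.f), by
    have := C.proper
    have := F.closed
    exact ⟨inferInstanceAs (LocallyOfFiniteType (F.ι ≫ C.f)),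
      inferInstanceAs (QuasiCompact (F.ι ≫ C.f))⟩⟩

/-- The inclusion of the special fibre. -/
def Fibre.ιFT {C : Charts k} (F : Fibre C) : F.YFT ⟶ C.XFT := mkHom F.ι rfl

theorem Fibre.openImm {C : Charts k} (F : Fibre C) (i : Fin 3) : IsOpenImmersion (F.c' i) :=
  MorphismProperty.of_isPullback (P := @IsOpenImmersion) (F.isPullback i).flip (C.openImm i)

/-- The charts of the special fibre as objects of the site. -/
def Fibre.WFT {C : Charts k} (F : Fibre C) (i : Fin 3) : FT (Spec (.of (PowerSeries k))) :=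
  ⟨Over.mk (F.c' i ≫ F.ι ≫ C.f), by
    have := C.proper
    have := F.closed
    have := F.openImm i
    exact ⟨inferInstanceAs (LocallyOfFiniteType (F.c' i ≫ F.ι ≫ C.f)),
      inferInstanceAs (QuasiCompact (F.c' i ≫ F.ι ≫ C.f))⟩⟩

/-- The charts of the special fibre. -/
def Fibre.cFT {C : Charts k} (F : Fibre C) (i : Fin 3) : F.WFT i ⟶ F.YFT := mkHom (F.c' i) rfl

theorem Fibre.cover {C : Charts k} (F : Fibre C) :
    IsNisnevichCover (Presieve.ofArrows F.WFT F.cFT) := by
  rw [isNis_iff]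
  constructor
  · rintro _ _ ⟨i⟩
    have := F.openImm i
    exact inferInstanceAs (Etale (F.c' i))
  · intro y
    obtain ⟨i, p, hp⟩ := C.surj (F.ι y)
    obtain ⟨w, hw, -⟩ := Scheme.exists_preimage_of_isPullback (F.isPullback i) y p hp.symm
    have := F.openImm i
    exact ⟨_, F.cFT i, w, Presieve.ofArrows.mk i, hw, isIso_residueFieldMap (F.c' i) w⟩

theorem Fibre.ι_c' {C : Charts k} (F : Fibre C) (i : Fin 3)
    (y : PrimeSpectrum (Bq k ⧸ Ideal.span {bt k})) :
    F.ι (F.c' i y) = C.c i (PrimeSpectrum.comap (Ideal.Quotient.mk _) y) := by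
  rw [← Scheme.Hom.comp_apply, (F.isPullback i).w]
  rfl

theorem uv_mem (y : PrimeSpectrum (Bq k ⧸ Ideal.span {bt k})) :
    bu k ∈ (PrimeSpectrum.comap (Ideal.Quotient.mk _) y).asIdeal ∨
      bv k ∈ (PrimeSpectrum.comap (Ideal.Quotient.mk _) y).asIdeal := by
  apply (PrimeSpectrum.comap (Ideal.Quotient.mk _) y).isPrime.mem_or_mem
  rw [b_rel]
  apply Ideal.mul_mem_right
  change Ideal.Quotient.mk _ (bt k) ∈ y.asIdeal
  rw [Ideal.Quotient.eq_zero_iff_mem.2 (Ideal.mem_span_singleton_self _)]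
  exact y.asIdeal.zero_mem

open Classical in
/-- The cocycle generating `H¹` of the triangle. -/
def Charts.H (C : Charts k) (m : ℕ) (i : Fin 3) (x : C.X) : ZMod m :=
  if i = 0 ∧ x ∈ Set.range (C.c 1) then 1 else 0

theorem Fibre.H_diff {C : Charts k} (F : Fibre C) (m : ℕ) (i j : Fin 3) :
    ∃ a, ∀ y y', F.c' i y = F.c' j y' → C.H m i (F.ι (F.c' i y)) - C.H m j (F.ι (F.c' i y)) = a := by
  have key : ∀ y y', F.c' 0 y = F.c' 2 y' → F.ι (F.c' 0 y) ∉ Set.range (C.c 1) := by
    intro y y' e h1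
    have h2 : F.ι (F.c' 0 y) ∈ Set.range (C.c 2) := ⟨_, by rw [e, F.ι_c']⟩
    rw [F.ι_c'] at h1 h2
    rcases uv_mem y with h | h
    · exact (C.memU 0 _).1 h1 h
    · exact (C.memV 0 _).1 h2 h
  fin_cases i <;> fin_cases j
  · exact ⟨0, fun _ _ _ => sub_self _⟩
  · refine ⟨1, fun y y' e => ?_⟩
    have h : F.ι (F.c' 0 y) ∈ Set.range (C.c 1) := ⟨_, (F.ι_c' 1 y').symm.trans (congrArg F.ι e.symm)⟩
    change C.H m 0 (F.ι (F.c' 0 y)) - C.H m 1 (F.ι (F.c' 0 y)) = 1
    rw [Charts.H, Charts.H, if_pos ⟨rfl, h⟩, if_neg (fun h => absurd h.1 (by decide)), sub_zero]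
  · refine ⟨0, fun y y' e => ?_⟩
    change C.H m 0 (F.ι (F.c' 0 y)) - C.H m 2 (F.ι (F.c' 0 y)) = 0
    rw [Charts.H, Charts.H, if_neg (fun h => key y y' e h.2),
      if_neg (fun h => absurd h.1 (by decide)), sub_zero]
  · refine ⟨-1, fun y y' e => ?_⟩
    have h : F.ι (F.c' 1 y) ∈ Set.range (C.c 1) := ⟨_, (F.ι_c' 1 y).symm⟩
    change C.H m 1 (F.ι (F.c' 1 y)) - C.H m 0 (F.ι (F.c' 1 y)) = -1
    rw [Charts.H, Charts.H, if_neg (fun h => absurd h.1 (by decide)), if_pos ⟨rfl, h⟩, zero_sub]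
  · exact ⟨0, fun _ _ _ => sub_self _⟩
  · refine ⟨0, fun y y' e => ?_⟩
    change C.H m 1 (F.ι (F.c' 1 y)) - C.H m 2 (F.ι (F.c' 1 y)) = 0
    rw [Charts.H, Charts.H, if_neg (fun h => absurd h.1 (by decide)),
      if_neg (fun h => absurd h.1 (by decide)), sub_zero]
  · refine ⟨0, fun y y' e => ?_⟩
    change C.H m 2 (F.ι (F.c' 2 y)) - C.H m 0 (F.ι (F.c' 2 y)) = 0
    have e' : F.c' 2 y = F.c' 0 y' := e
    rw [Charts.H, Charts.H, if_neg (fun h => absurd h.1 (by decide)),
      if_neg (fun h => key y' y e'.symm (e' ▸ h.2)), sub_zero]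
  · refine ⟨0, fun y y' e => ?_⟩
    change C.H m 2 (F.ι (F.c' 2 y)) - C.H m 1 (F.ι (F.c' 2 y)) = 0
    rw [Charts.H, Charts.H, if_neg (fun h => absurd h.1 (by decide)),
      if_neg (fun h => absurd h.1 (by decide)), sub_zero]
  · exact ⟨0, fun _ _ _ => sub_self _⟩

theorem Fibre.not_surjective {C : Charts k} (F : Fibre C) (m : ℕ) (hm : m ≠ 1) :
    ¬ Function.Surjective ((cdhCohomology _ m 1).map F.ιFT.op) := by
  intro hsurj
  have := F.closed
  have := C.proper
  obtain ⟨D, hD⟩ := exists_goodData m F.ιFT F.ι.isClosedEmbedding.injective hsurj F.WFT F.cFT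
    F.cover (fun i y => C.H m i (F.ι y)) (F.H_diff m)
  have hG : ∀ i, Compat D (bt k) (C.c i) (fun p => C.H m i (C.c i p)) := by
    intro i Ω _ _ O β hβ
    let β' : Bq k ⧸ Ideal.span {bt k} →+* O := Ideal.Quotient.lift _ β fun a ha => by
      obtain ⟨b, rfl⟩ := Ideal.mem_span_singleton'.1 ha
      rw [map_mul, hβ, mul_zero]
    have e : β = β'.comp (Ideal.Quotient.mk _) := RingHom.ext fun _ => rfl
    have := jmp_eq D (liftsAll_val O) (φ := Spec.map (CommRingCat.ofHom β) ≫ C.c i)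
      (ψ := Spec.map (CommRingCat.ofHom β')) (hD i) (by
        change _ ≫ F.c' i ≫ F.ι = _
        rw [(F.isPullback i).w, e, CommRingCat.ofHom_comp, Spec.map_comp_assoc]
        rfl)
      (closedPoint O) (gen O)
    rw [jv, this]
    change C.H m i (F.ι (F.c' i _)) - C.H m i (F.ι (F.c' i _)) = _
    rw [F.ι_c', F.ι_c']
    rfl
  obtain ⟨R, _, _, u, v, τ, κ₀, κ₁, val, hrel, k0u, k0v, k1u, k1v, k0τ, k1τ, hle, hlt, hcont,
    hv0, hv1⟩ := exists_path k
  let K := FractionRing R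
  let Ω := AlgebraicClosure K
  let χ₀ : Bq k →+* R := bLift τ u v hrel
  let χ : Bq k →+* K := (algebraMap R K).comp χ₀
  choose O hO using fun s => exists_comap_eq (algebraMap K Ω) (val s).valuationSubring
  have hmem : ∀ s b, algebraMap K Ω (χ b) ∈ O s := fun s b => (hO s).ge (hle s (χ₀ b))
  let β : ∀ s, Bq k →+* O s := fun s =>
    ((algebraMap K Ω).comp χ).codRestrict (O s).toSubring (hmem s)
  have hcen : ∀ s b, b ∈ (PrimeSpectrum.comap (β s) (closedPoint _)).asIdeal ↔ val s (χ b) < 1 := by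
    intro s b
    have := restrictHom_local (algebraMap K Ω) (hO s)
    change restrictHom (algebraMap K Ω) (hO s) ⟨χ b, hle s (χ₀ b)⟩ ∈ maximalIdeal _ ↔ _
    rw [mem_maximalIdeal, map_mem_nonunits_iff, ← mem_maximalIdeal,
      Valuation.mem_maximalIdeal_iff]
  have c0 : PrimeSpectrum.comap (β 0) (closedPoint _) = PU k := by
    have e : κ₀.comp χ₀ = (Polynomial.coeToPowerSeries.ringHom).comp (epsU k) :=
      b_hom_ext (fun a => by simp [χ₀, epsU, k0τ]) (by simp [χ₀, epsU, k0u])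
        (by simp [χ₀, epsU, k0v])
    ext b
    rw [hcen]
    refine (hv0 (χ₀ b)).trans ?_
    rw [← RingHom.comp_apply, e]
    exact Polynomial.coe_eq_zero_iff
  have c1 : PrimeSpectrum.comap (β 1) (closedPoint _) = PV k := by
    have e : κ₁.comp χ₀ = (Polynomial.coeToPowerSeries.ringHom).comp (epsV k) :=
      b_hom_ext (fun a => by simp [χ₀, epsV, k1τ]) (by simp [χ₀, epsV, k1u])
        (by simp [χ₀, epsV, k1v])
    ext b
    rw [hcen]
    refine (hv1 (χ₀ b)).trans ?_
    rw [← RingHom.comp_apply, e]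
    exact Polynomial.coe_eq_zero_iff
  have ht0 : χ₀ (bt k) ≠ 0 := by
    intro h0
    have h1 : τ PowerSeries.X = 0 := by simpa [χ₀] using h0
    rw [h1, zero_mul] at hrel
    rcases mul_eq_zero.1 hrel with h | h
    · rw [h, map_zero] at k1u
      exact PowerSeries.X_ne_zero k1u.symm
    · rw [h, map_zero] at k0v
      exact PowerSeries.X_ne_zero k0v.symm
  have hgen : ∀ s, bt k ∉ (PrimeSpectrum.comap (β s) (gen _)).asIdeal := by
    intro s h
    have h1 : algebraMap K Ω (algebraMap R K (χ₀ (bt k))) = 0 := congrArg Subtype.val h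
    rw [map_eq_zero_iff _ (algebraMap K Ω).injective,
      map_eq_zero_iff _ (IsFractionRing.injective R K)] at h1
    exact ht0 h1
  have hsep : C.XFT.obj.left.IsSeparated := by
    have : IsSeparated (C.f ≫ terminal.from _) := inferInstance
    rw [terminal.comp_from] at this
    exact ⟨this⟩
  have hpath : ∀ i, jv D (Spec.map (CommRingCat.ofHom (β 0)) ≫ C.c i) - C.H m i (C.c i (PU k)) =
      jv D (Spec.map (CommRingCat.ofHom (β 1)) ≫ C.c i) - C.H m i (C.c i (PV k)) := by
    intro i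
    have : IsOpenImmersion (X := Spec (.of (Bq k))) (Y := C.XFT.obj.left) (C.c i) := C.openImm i
    have := psi_path (hG i) (C.c_f i) (algebraMap K Ω) χ val
      (fun s => by simpa [χ, χ₀] using hlt s) hcont O hO β (fun _ _ => rfl)
    rw [psi, psi, c0, c1] at this
    exact this
  have hend : ∀ i, jv D (Spec.map (CommRingCat.ofHom (β 0)) ≫ C.c i) =
      jv D (Spec.map (CommRingCat.ofHom (β 1)) ≫ C.c (i + 2)) := by
    intro i
    obtain ⟨h1, h2⟩ := C.dvr i (PU k) (Or.inl rfl)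
    have := C.openImm i
    have := C.openImm (i + 2)
    have htU : bt k ∈ (PU k).asIdeal := by
      rw [PU_eq]
      exact Ideal.subset_span (by simp)
    have htV : bt k ∈ (PV k).asIdeal := by
      rw [PV_eq]
      exact Ideal.subset_span (by simp)
    refine @jv_eq_of_dvr _ _ _ C.XFT D (C.c i (PU k)) h1 h2 _ _ _ _ _ _ _ _ _ _ ?_ ?_ ?_ ?_
    · exact congrArg (C.c i) c0
    · intro h
      have h' : PrimeSpectrum.comap (β 0) (gen _) = PU k := (C.c i).isOpenEmbedding.injective h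
      exact hgen 0 (h' ▸ htU)
    · rw [C.eta i]
      exact congrArg (C.c (i + 2)) c1
    · intro h
      rw [C.eta i] at h
      have h' : PrimeSpectrum.comap (β 1) (gen _) = PV k :=
        (C.c (i + 2)).isOpenEmbedding.injective h
      exact hgen 1 (h' ▸ htV)
  have g0U : C.H m 0 (C.c 0 (PU k)) = 0 := by
    rw [Charts.H, if_neg]
    rintro ⟨-, h⟩
    refine (C.memU 0 _).1 h ?_
    rw [PU_eq]
    exact Ideal.subset_span (by simp)
  have g0V : C.H m 0 (C.c 0 (PV k)) = 1 := by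
    rw [Charts.H, if_pos]
    refine ⟨rfl, (C.memU 0 _).2 fun h => ?_⟩
    have h' : epsV k (bu k) = 0 := h
    simp [epsV] at h'
  have g1 : ∀ x, C.H m 1 x = 0 := fun x => if_neg fun h => absurd h.1 (by decide)
  have g2 : ∀ x, C.H m 2 x = 0 := fun x => if_neg fun h => absurd h.1 (by decide)
  have p0 := hpath 0
  have p1 := hpath 1
  have p2 := hpath 2
  have q0 : _ = jv D (Spec.map (CommRingCat.ofHom (β 1)) ≫ C.c 2) := hend 0
  have q1 : _ = jv D (Spec.map (CommRingCat.ofHom (β 1)) ≫ C.c 0) := hend 1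
  have q2 : _ = jv D (Spec.map (CommRingCat.ofHom (β 1)) ≫ C.c 1) := hend 2
  rw [g0U, g0V, q0] at p0
  rw [g1, g1, q1] at p1
  rw [g2, g2, q2] at p2
  have h10 : (1 : ZMod m) = 0 := by linear_combination p0 + p1 + p2
  have : Nontrivial (ZMod m) := ZMod.nontrivial_iff.2 hm
  exact one_ne_zero h10

end Pool.Agent.P.MP_6277db_ag
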