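import Pool.Agent.P.MP_6277db_ag.Charts

noncomputable section

open CategoryTheory AlgebraicGeometry

namespace Pool.Agent.P.MP_6277db_ag

attribute [local instance] MvPolynomial.gradedAlgebra

namespace Geom

open MvPolynomial HomogeneousLocalization HomogeneousIdeal Graded

theorem adjoin_X (σ A : Type) [CommRing A] :
    Algebra.adjoin (homogeneousSubmodule σ A 0) (Set.range (X : σ → MvPolynomial σ A)) = ⊤ := by
  refine eq_top_iff.2 fun p hp => ?_
  clear hp
  induction p using MvPolynomial.induction_on with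
  | C a => exact Subalgebra.algebraMap_mem _ (⟨C a, isHomogeneous_C _ a⟩ : homogeneousSubmodule σ A 0)
  | add p q hp hq => exact add_mem hp hq
  | mul_X p i hp => exact mul_mem hp (Algebra.subset_adjoin ⟨i, rfl⟩)

theorem bijective_zero (σ A : Type) [CommRing A] :
    Function.Bijective (algebraMap A (homogeneousSubmodule σ A 0)) := by
  constructor
  · intro a b h
    exact C_injective σ A (congrArg Subtype.val h)
  · rintro ⟨p, hp⟩
    have h := hp
    rw [homogeneousSubmodule_zero, Submodule.mem_one] at h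
    obtain ⟨a, rfl⟩ := h
    exact ⟨a, rfl⟩

theorem scale {σ A L : Type} [CommRing A] [CommRing L] (Φ Ψ : MvPolynomial σ A →+* L) (l : L)
    (hC : ∀ a, Φ (C a) = Ψ (C a)) (hX : ∀ j, Φ (X j) * l = Ψ (X j)) {n : ℕ}
    {p : MvPolynomial σ A} (hp : p.IsHomogeneous n) : Φ p * l ^ n = Ψ p := by
  induction hp using IsWeightedHomogeneous.induction_on with
  | zero => simp
  | add p q _ _ hp hq => rw [map_add, map_add, add_mul, hp, hq]
  | monomial d r hr =>
    rw [monomial_eq, map_mul, map_mul, hC, mul_assoc, ← hr, Finsupp.weight_apply, Finsupp.sum,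
      ← Finset.prod_pow_eq_pow_sum, Finsupp.prod, map_prod, map_prod, ← Finset.prod_mul_distrib]
    congr 1
    refine Finset.prod_congr rfl fun j _ => ?_
    rw [map_pow, map_pow, ← hX, mul_pow]
    simp

section Quot

variable {A P Q : Type} [CommRing A] [CommRing P] [CommRing Q] [Algebra A P]
  (𝒜 : ℕ → Submodule A P) [GradedRing 𝒜] (π : P →+* Q)

/-- The image grading. -/
def qGr (n : ℕ) : AddSubgroup Q := (𝒜 n).toAddSubgroup.map π.toAddMonoidHom

/-- The induced map on graded pieces. -/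
def qMap (n : ℕ) : 𝒜 n →+ qGr 𝒜 π n where
  toFun a := ⟨π a, a, a.2, rfl⟩
  map_zero' := Subtype.ext (map_zero π)
  map_add' a b := Subtype.ext (map_add π a.1 b.1)

theorem qGr_internal (hπ : Function.Surjective π) (hk : (RingHom.ker π).IsHomogeneous 𝒜) :
    DirectSum.IsInternal (qGr 𝒜 π) := by
  have h1 : ∀ w, DirectSum.coeAddMonoidHom (qGr 𝒜 π) (DirectSum.map (qMap 𝒜 π) w)
      = π (DirectSum.coeAddMonoidHom 𝒜 w) := by
    intro w
    induction w using DirectSum.induction_on with
    | zero => simp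
    | of i a =>
      rw [DirectSum.map_of, DirectSum.coeAddMonoidHom_of, DirectSum.coeAddMonoidHom_of]
      rfl
    | add a b ha hb => simp only [map_add, ha, hb]
  have h2 : Function.Surjective (DirectSum.map (qMap 𝒜 π)) :=
    (DirectSum.map_surjective _).2 fun n => by
      rintro ⟨_, a, ha, rfl⟩
      exact ⟨⟨a, ha⟩, rfl⟩
  constructor
  · refine (injective_iff_map_eq_zero _).2 fun z hz => ?_
    obtain ⟨w, rfl⟩ := h2 z
    rw [h1] at hz
    ext n
    have h3 := hk n (RingHom.mem_ker.2 hz)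
    have h4 : DirectSum.decompose 𝒜 (DirectSum.coeAddMonoidHom 𝒜 w) = w :=
      DirectSum.Decomposition.right_inv w
    rw [h4] at h3
    rw [DirectSum.map_apply]
    exact h3
  · intro q
    obtain ⟨p, rfl⟩ := hπ q
    refine ⟨DirectSum.map (qMap 𝒜 π) (DirectSum.decompose 𝒜 p), ?_⟩
    rw [h1]
    exact congrArg π (DirectSum.Decomposition.left_inv p)

/-- The graded ring structure on a quotient by a homogeneous ideal. -/
abbrev qRing (hπ : Function.Surjective π) (hk : (RingHom.ker π).IsHomogeneous 𝒜) :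
    GradedRing (qGr 𝒜 π) where
  one_mem := ⟨1, SetLike.one_mem_graded 𝒜, map_one π⟩
  mul_mem := by
    rintro i j _ _ ⟨a, ha, rfl⟩ ⟨b, hb, rfl⟩
    exact ⟨a * b, SetLike.mul_mem_graded (A := 𝒜) ha hb, map_mul π a b⟩
  __ := (qGr_internal 𝒜 π hπ hk).chooseDecomposition

/-- The quotient map as a graded ring map. -/
def qHom : 𝒜 →+*ᵍ qGr 𝒜 π where
  __ := π
  map_mem h := ⟨_, h, rfl⟩

theorem q_irr [GradedRing (qGr 𝒜 π)] : (qGr 𝒜 π)₊ ≤ 𝒜₊.map (qHom 𝒜 π) := by
  refine (irrelevant_le _).2 ?_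
  rintro i hi _ ⟨a, ha, rfl⟩
  exact Ideal.mem_map_of_mem _ (mem_irrelevant_of_mem 𝒜 hi ha)

theorem q_closed_aux [GradedRing (qGr 𝒜 π)] {i : ℕ} (hi : 0 < i) {s : P} (hs : s ∈ 𝒜 i) :
    IsClosedImmersion (Limits.pullback.snd (Proj.map (qHom 𝒜 π) (q_irr 𝒜 π))
      (Proj.awayι 𝒜 s hs hi)) := by
  have h := IsOpenImmersion.isPullback _ _ _ _
    (Proj.awayι_comp_map (qHom 𝒜 π) (q_irr 𝒜 π) hi s hs)
    (by rw [Proj.opensRange_awayι, Proj.opensRange_awayι, Proj.map_preimage_basicOpen])
  have h2 : IsClosedImmersion (Spec.map (CommRingCat.ofHom (Away.map (qHom 𝒜 π) s))) := by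
    refine IsClosedImmersion.spec_of_surjective _ fun z => ?_
    obtain ⟨n, _, ⟨a, ha, rfl⟩, rfl⟩ := Away.mk_surjective _ ((qHom 𝒜 π).map_mem hs) z
    exact ⟨Away.mk 𝒜 hs n a ha, Away.map_mk _ _ _ _ _ _⟩
  rw [← h.flip.isoPullback_inv_snd]
  infer_instance

theorem q_closed [GradedRing (qGr 𝒜 π)] :
    IsClosedImmersion (Proj.map (qHom 𝒜 π) (q_irr 𝒜 π)) :=
  IsZariskiLocalAtTarget.of_openCover (Proj.affineOpenCover 𝒜).openCover fun s =>
    q_closed_aux 𝒜 π s.1.2 s.2.2

end Quot

theorem val_mk_mul {Q τ : Type} [CommRing Q] [SetLike τ Q] [AddSubgroupClass τ Q] (ℬ : ℕ → τ)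
    [GradedRing ℬ] {x : Q} {d : ℕ} (hx : x ∈ ℬ d) (n : ℕ) (a : Q) (ha : a ∈ ℬ (n • d)) :
    (Away.mk ℬ hx n a ha).val * algebraMap Q (Localization.Away x) x ^ n
      = algebraMap Q (Localization.Away x) a := by
  rw [Away.val_mk, Localization.mk_eq_mk', ← map_pow]
  exact IsLocalization.mk'_spec _ a (⟨x ^ n, n, rfl⟩ : Submonoid.powers x)

variable (k : Type) [Field k]

/-- The grading of the polynomial ring. -/
abbrev gA : ℕ → Submodule (PowerSeries k) (MvPolynomial (Fin 3) (PowerSeries k)) :=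
  homogeneousSubmodule (Fin 3) (PowerSeries k)

/-- The cubic form. -/
def cub : MvPolynomial (Fin 3) (PowerSeries k) :=
  X 0 * X 1 * X 2 - C PowerSeries.X * (X 0 ^ 3 + X 1 ^ 3 + X 2 ^ 3)

theorem cub_eq (i : Fin 3) : cub k = X i * X (i + 1) * X (i + 2)
    - C PowerSeries.X * (X i ^ 3 + X (i + 1) ^ 3 + X (i + 2) ^ 3) := by
  fin_cases i
  · rfl
  · change cub k = X 1 * X 2 * X 0 - C PowerSeries.X * (X 1 ^ 3 + X 2 ^ 3 + X 0 ^ 3)
    rw [cub]; ring
  · change cub k = X 2 * X 0 * X 1 - C PowerSeries.X * (X 2 ^ 3 + X 0 ^ 3 + X 1 ^ 3)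
    rw [cub]; ring

theorem cub_hom : (cub k).IsHomogeneous 3 :=
  (((isHomogeneous_X _ 0).mul (isHomogeneous_X _ 1)).mul (isHomogeneous_X _ 2)).sub
    ((isHomogeneous_C _ _).mul ((((isHomogeneous_X _ 0).pow 3).add ((isHomogeneous_X _ 1).pow 3)).add
      ((isHomogeneous_X _ 2).pow 3)))

/-- The homogeneous coordinate ring. -/
def Qr : Type := MvPolynomial (Fin 3) (PowerSeries k) ⧸ Ideal.span {cub k}

instance : CommRing (Qr k) := Ideal.Quotient.commRing (Ideal.span {cub k})

/-- The quotient map. -/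
def qk : MvPolynomial (Fin 3) (PowerSeries k) →+* Qr k := Ideal.Quotient.mk (Ideal.span {cub k})

theorem qk_surjective : Function.Surjective (qk k) := Ideal.Quotient.mk_surjective

theorem ker_qk : RingHom.ker (qk k) = Ideal.span {cub k} := Ideal.mk_ker

/-- The grading of the homogeneous coordinate ring. -/
abbrev gB : ℕ → AddSubgroup (Qr k) := qGr (gA k) (qk k)

instance : GradedRing (gB k) :=
  qRing (gA k) (qk k) (qk_surjective k) (by
    rw [ker_qk]
    exact Ideal.homogeneous_span _ _ fun x hx => ⟨3, hx ▸ cub_hom k⟩)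

/-- The homogeneous coordinates. -/
abbrev xq (i : Fin 3) : Qr k := qHom (gA k) (qk k) (X i)

theorem X_mem (i : Fin 3) : X i ∈ gA k 1 := isHomogeneous_X _ i

theorem C_mem (a : PowerSeries k) : C a ∈ gA k (0 • 1) := isHomogeneous_C _ a

theorem qC_mem (a : PowerSeries k) : qk k (C a) ∈ gB k (0 • 1) :=
  (qHom (gA k) (qk k)).map_mem (C_mem k a)

theorem xq_mem (i : Fin 3) : xq k i ∈ gB k 1 := (qHom (gA k) (qk k)).map_mem (X_mem k i)

/-- Dehomogenization. -/
def deh (i : Fin 3) : MvPolynomial (Fin 3) (PowerSeries k) →+* Bq k :=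
  eval₂Hom (algebraMap (PowerSeries k) (Bq k)) fun j => ![1, bu k, bv k] (j - i)

theorem deh_C (i : Fin 3) (a : PowerSeries k) :
    deh k i (C a) = algebraMap (PowerSeries k) (Bq k) a := eval₂Hom_C _ _ _

theorem deh_0 (i : Fin 3) : deh k i (X i) = 1 := by
  rw [deh, eval₂Hom_X', sub_self]; rfl

theorem deh_1 (i : Fin 3) : deh k i (X (i + 1)) = bu k := by
  rw [deh, eval₂Hom_X', add_sub_cancel_left]; rfl

theorem deh_2 (i : Fin 3) : deh k i (X (i + 2)) = bv k := by
  rw [deh, eval₂Hom_X', add_sub_cancel_left]; rfl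

/-- Dehomogenization on the quotient. -/
def dq (i : Fin 3) : Qr k →+* Bq k :=
  Ideal.Quotient.lift _ (deh k i) (by
    intro a ha
    obtain ⟨c, rfl⟩ := Ideal.mem_span_singleton'.1 ha
    have : deh k i (cub k) = 0 := by
      rw [cub_eq k i]
      simp only [map_sub, map_mul, map_add, map_pow, deh_C, deh_0, deh_1, deh_2]
      have := b_rel k
      rw [bt] at this
      linear_combination this
    rw [map_mul, this, mul_zero])

theorem dq_unit (i : Fin 3) : IsUnit (dq k i (xq k i)) := by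
  change IsUnit (deh k i (X i))
  rw [deh_0]
  exact isUnit_one

/-- The chart ring map. -/
def psi (i : Fin 3) : Away (gB k) (xq k i) →+* Bq k :=
  (IsLocalization.Away.lift (S := Localization.Away (xq k i)) (xq k i) (dq_unit k i)).comp
    (algebraMap _ _)

theorem psi_mk (i : Fin 3) (n : ℕ) (a : Qr k) (ha : a ∈ gB k (n • 1)) :
    psi k i (Away.mk (gB k) (xq_mem k i) n a ha) = dq k i a := by
  have h := congrArg (IsLocalization.Away.lift (S := Localization.Away (xq k i)) (xq k i)
    (dq_unit k i)) (val_mk_mul (gB k) (xq_mem k i) n a ha)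
  rw [map_mul, map_pow, IsLocalization.Away.lift_eq, IsLocalization.Away.lift_eq] at h
  have h1 : dq k i (xq k i) = 1 := deh_0 k i
  rw [h1, one_pow, mul_one] at h
  exact h

/-- The structure map of the chart. -/
def tau (i : Fin 3) : PowerSeries k →+* Away (gB k) (xq k i) :=
  (Away.map (qHom (gA k) (qk k)) (X i)).comp
    ((fromZeroRingHom (gA k) _).comp (algebraMap (PowerSeries k) (gA k 0)))

theorem tau_eq (i : Fin 3) (a : PowerSeries k) :
    tau k i a = Away.mk (gB k) (xq_mem k i) 0 (qk k (C a)) (qC_mem k a) := by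
  have h : fromZeroRingHom (gA k) _ (algebraMap (PowerSeries k) (gA k 0) a)
      = Away.mk (gA k) (X_mem k i) 0 (C a) (C_mem k a) := by
    apply HomogeneousLocalization.val_injective
    rw [Away.val_mk]
    simp only [pow_zero]
    rfl
  change Away.map (qHom (gA k) (qk k)) (X i) (fromZeroRingHom (gA k) _ _) = _
  rw [h, Away.map_mk]
  rfl

/-- The fraction `x j / x i`. -/
def frac (i j : Fin 3) : Away (gB k) (xq k i) :=
  Away.mk (gB k) (xq_mem k i) 1 (xq k j) (xq_mem k j)

theorem frac_val (i j : Fin 3) :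
    (frac k i j).val * algebraMap _ (Localization.Away (xq k i)) (xq k i)
      = algebraMap _ (Localization.Away (xq k i)) (xq k j) := by
  have h := val_mk_mul (gB k) (xq_mem k i) 1 (xq k j) (xq_mem k j)
  rwa [pow_one] at h

theorem tau_val (i : Fin 3) (a : PowerSeries k) :
    (tau k i a).val = algebraMap _ (Localization.Away (xq k i)) (qk k (C a)) := by
  have h := val_mk_mul (gB k) (xq_mem k i) 0 (qk k (C a)) (qC_mem k a)
  rwa [pow_zero, mul_one, ← tau_eq] at h

theorem frac_rel (i : Fin 3) : frac k i (i + 1) * frac k i (i + 2) =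
    tau k i PowerSeries.X * (1 + frac k i (i + 1) ^ 3 + frac k i (i + 2) ^ 3) := by
  apply HomogeneousLocalization.val_injective
  have hu := (IsLocalization.Away.algebraMap_isUnit (S := Localization.Away (xq k i))
    (xq k i)).pow 3
  refine hu.mul_right_cancel ?_
  have h0 : qk k (cub k) = 0 := Ideal.Quotient.eq_zero_iff_mem.2 (Ideal.subset_span rfl)
  have h1 := congrArg (algebraMap _ (Localization.Away (xq k i))) h0
  rw [cub_eq k i] at h1
  simp only [map_sub, map_mul, map_add, map_pow, map_zero] at h1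
  have h2 := frac_val k i (i + 1)
  have h3 := frac_val k i (i + 2)
  simp only [val_mul, val_add, val_pow, val_one, tau_val]
  change _ = algebraMap _ _ (qk k (X (i + 1))) at h2
  change _ = algebraMap _ _ (qk k (X (i + 2))) at h3
  rw [← h2, ← h3] at h1
  change algebraMap _ _ (xq k i) * _ * _ - _ * (algebraMap _ _ (xq k i) ^ 3 + _ + _) = _ at h1
  linear_combination h1

/-- The inverse chart ring map. -/
def phi (i : Fin 3) : Bq k →+* Away (gB k) (xq k i) :=
  bLift (tau k i) (frac k i (i + 1)) (frac k i (i + 2)) (frac_rel k i)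

theorem psi_tau (i : Fin 3) (a : PowerSeries k) :
    psi k i (tau k i a) = algebraMap (PowerSeries k) (Bq k) a := by
  rw [tau_eq, psi_mk]
  exact deh_C k i a

theorem psi_phi (i : Fin 3) : (psi k i).comp (phi k i) = RingHom.id _ := by
  refine b_hom_ext (fun a => ?_) ?_ ?_
  · rw [RingHom.comp_apply, phi, bLift_algebraMap, psi_tau, RingHom.id_apply]
  · rw [RingHom.comp_apply, phi, bLift_u, frac, psi_mk]
    exact deh_1 k i
  · rw [RingHom.comp_apply, phi, bLift_v, frac, psi_mk]
    exact deh_2 k i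

theorem phi_surjective (i : Fin 3) : Function.Surjective (phi k i) := by
  intro z
  obtain ⟨n, a, ha, rfl⟩ := Away.mk_surjective _ (xq_mem k i) z
  obtain ⟨p, hp, rfl⟩ : ∃ p, p ∈ gA k (n • 1) ∧ qk k p = a := ha
  refine ⟨deh k i p, HomogeneousLocalization.val_injective _ ?_⟩
  have hu := (IsLocalization.Away.algebraMap_isUnit (S := Localization.Away (xq k i))
    (xq k i)).pow n
  refine hu.mul_right_cancel ?_
  refine Eq.trans ?_ (val_mk_mul (gB k) (xq_mem k i) n _ _).symm
  have hp' : p.IsHomogeneous n := by simpa using hp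
  refine scale ((algebraMap _ (Localization.Away (xq k i))).comp ((phi k i).comp (deh k i)))
    ((algebraMap _ (Localization.Away (xq k i))).comp (qk k)) _ (fun a => ?_) (fun j => ?_) hp'
  · change (phi k i (deh k i (C a))).val = _
    rw [deh_C, phi, bLift_algebraMap, tau_val]
    rfl
  · change (phi k i (deh k i (X j))).val * _ = _
    have hj : j = i ∨ j = i + 1 ∨ j = i + 2 :=
      (by decide : ∀ i j : Fin 3, j = i ∨ j = i + 1 ∨ j = i + 2) i j
    rcases hj with rfl | rfl | rfl
    · rw [deh_0, map_one, val_one, one_mul]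
      rfl
    · rw [deh_1, phi, bLift_u, frac_val]
      rfl
    · rw [deh_2, phi, bLift_v, frac_val]
      rfl

theorem psi_bijective (i : Fin 3) : Function.Bijective (psi k i) := by
  have h : Function.LeftInverse (psi k i) (phi k i) := fun b => DFunLike.congr_fun (psi_phi k i) b
  exact ⟨(h.rightInverse_of_surjective (phi_surjective k i)).injective, h.surjective⟩

instance (i : Fin 3) : IsIso (CommRingCat.ofHom (psi k i)) :=
  (ConcreteCategory.isIso_iff_bijective _).2 (psi_bijective k i)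

/-- The `i`-th chart. -/
def chart (i : Fin 3) : Spec (.of (Bq k)) ⟶ Proj (gB k) :=
  Spec.map (CommRingCat.ofHom (psi k i)) ≫ Proj.awayι (gB k) (xq k i) (xq_mem k i) one_pos

theorem range_chart (i : Fin 3) :
    Set.range (chart k i) = (Proj.basicOpen (gB k) (xq k i) : Set (Proj (gB k))) := by
  rw [← Proj.opensRange_awayι (gB k) (xq k i) (xq_mem k i) one_pos, chart,
    ← Scheme.Hom.opensRange_comp_of_isIso (Spec.map (CommRingCat.ofHom (psi k i)))]
  rfl

theorem mem_chart (i j : Fin 3) (p : PrimeSpectrum (Bq k)) :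
    chart k i p ∈ Set.range (chart k j) ↔ deh k i (X j) ∉ p.asIdeal := by
  have h := Proj.awayι_preimage_basicOpen (gB k) (xq_mem k i) one_pos (xq_mem k j) one_pos
  have h2 : psi k i (Away.isLocalizationElem (xq_mem k i) (xq_mem k j)) = deh k i (X j) := by
    rw [Away.isLocalizationElem, psi_mk, pow_one]
    rfl
  rw [range_chart, ← h2]
  change Spec.map (CommRingCat.ofHom (psi k i)) p ∈
    Proj.awayι (gB k) (xq k i) (xq_mem k i) one_pos ⁻¹ᵁ Proj.basicOpen (gB k) (xq k j) ↔ _
  rw [h]
  rfl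

end Geom

theorem IsProjective.isProper {A : Type} [CommRing A] {X : Scheme.{0}} {f : X ⟶ Spec (.of A)}
    (hf : IsProjective f) : IsProper f := by
  obtain ⟨n, j, hj, rfl⟩ := hf
  have h1 : Algebra.FiniteType (MvPolynomial.homogeneousSubmodule (Fin (n + 1)) A 0)
      (MvPolynomial (Fin (n + 1)) A) :=
    ⟨Subalgebra.fg_def.2 ⟨_, Set.finite_range _, Geom.adjoin_X _ A⟩⟩
  have h2 : IsIso (CommRingCat.ofHom
      (algebraMap A (MvPolynomial.homogeneousSubmodule (Fin (n + 1)) A 0))) :=
    (ConcreteCategory.isIso_iff_bijective _).2 (Geom.bijective_zero _ A)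
  infer_instance

open Geom in
theorem exists_charts (k : Type) [Field k] : Nonempty (Charts k) := by
  have hp : IsProjective (Proj.map (qHom (gA k) (qk k)) (q_irr _ _) ≫ Proj.toSpecZero _ ≫
      Spec.map (CommRingCat.ofHom (algebraMap (PowerSeries k) (gA k 0)))) :=
    ⟨2, _, q_closed _ _, rfl⟩
  refine ⟨⟨Proj (gB k), _, chart k, hp, hp.isProper, fun i => ?_, fun x => ?_, fun i => ?_,
    fun i p => ?_, fun i p => ?_⟩⟩
  · unfold chart
    infer_instance
  · have h := Proj.iSup_basicOpen_eq_top' (gA k) MvPolynomial.X (fun i => ⟨1, X_mem k i⟩)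
      (adjoin_X _ _)
    have hx : Proj.map (qHom (gA k) (qk k)) (q_irr _ _) x ∈
        ⨆ i, Proj.basicOpen (gA k) (MvPolynomial.X i) := by
      rw [h]; trivial
    obtain ⟨i, hi⟩ := TopologicalSpace.Opens.mem_iSup.1 hx
    have hi' : x ∈ Set.range (chart k i) := by
      rw [range_chart]
      exact hi
    exact ⟨i, hi'⟩
  · rw [chart, Category.assoc,
      Proj.awayι_comp_map_assoc (qHom (gA k) (qk k)) (q_irr _ _) one_pos _ (X_mem k i),
      Proj.awayι_toSpecZero_assoc, ← Spec.map_comp, ← Spec.map_comp, ← Spec.map_comp]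
    congr 1
    ext a
    exact psi_tau k i a
  · rw [mem_chart, deh_1]
  · rw [mem_chart, deh_2]

end Pool.Agent.P.MP_6277db_ag
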