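import Pool.Agent.P.MP_6277db_ag.SiteC

/-!
Jumps of the local functions along valuation rings.
-/

noncomputable section

open CategoryTheory AlgebraicGeometry Limits Opposite IsLocalRing Filter

namespace Pool.Agent.P.MP_6277db_ag

section general

variable {S : Scheme.{0}} [IsLocallyNoetherian S] {m : ℕ} {X : FT S} (D : GoodData m X)

/-- `T` lifts along all cdh covers. -/
def LiftsAll (S T : Scheme.{0}) : Prop :=
  ∀ (U : FT S) (R : Sieve U), R ∈ cdh S U → Lifts T R.arrows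

/-- `a` is the jump between the points `p` and `q`. -/
def IsJmp {T : Scheme.{0}} (φ : T ⟶ X.obj.left) (p q : T) (a : ZMod m) : Prop :=
  ∃ (U : FT S) (f : U ⟶ X) (h : U.obj.left → ZMod m) (ψ : T ⟶ U.obj.left),
    D.Good U f h ∧ ψ ≫ f.hom.left = φ ∧ a = h (ψ p) - h (ψ q)

open Classical in
/-- The jump between the points `p` and `q`. -/
def jmp {T : Scheme.{0}} (φ : T ⟶ X.obj.left) (p q : T) : ZMod m :=
  if h : ∃ a, IsJmp D φ p q a then h.choose else 0

omit [IsLocallyNoetherian S] in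
theorem exists_good_lift {T : Scheme.{0}} (hT : LiftsAll S T) (φ : T ⟶ X.obj.left) :
    ∃ (U : FT S) (f : U ⟶ X) (h : U.obj.left → ZMod m) (ψ : T ⟶ U.obj.left),
      D.Good U f h ∧ ψ ≫ f.hom.left = φ := by
  obtain ⟨R, hR, hg⟩ := D.cover
  obtain ⟨U, f, ψ, hf, e⟩ := hT X R hR φ
  obtain ⟨h, hh⟩ := hg U f hf
  exact ⟨U, f, h, ψ, hh, e⟩

theorem IsJmp.unique {T : Scheme.{0}} (hT : LiftsAll S T) {φ : T ⟶ X.obj.left} {p q : T}
    {a a' : ZMod m} (h : IsJmp D φ p q a) (h' : IsJmp D φ p q a') : a = a' := by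
  obtain ⟨U, f, h, ψ, hg, e, rfl⟩ := h
  obtain ⟨U', f', h', ψ', hg', e', rfl⟩ := h'
  obtain ⟨P, α, β, w, hP⟩ := exists_pullback f f'
  have g1 := D.pull _ _ _ _ α hg
  have g2 := D.pull _ _ _ _ β hg'
  rw [← w] at g2
  obtain ⟨R, hR, hc⟩ := D.diff _ _ _ _ g1 g2
  obtain ⟨V, g, χ, hg, eχ⟩ := hT P R hR (hP.lift ψ ψ' (e.trans e'.symm))
  obtain ⟨c, hc⟩ := hc V g hg
  have k1 : ∀ x, α.hom.left (g.hom.left (χ x)) = ψ x := fun x => by
    rw [← Scheme.Hom.comp_apply, ← Scheme.Hom.comp_apply, reassoc_of% eχ, hP.lift_fst]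
  have k2 : ∀ x, β.hom.left (g.hom.left (χ x)) = ψ' x := fun x => by
    rw [← Scheme.Hom.comp_apply, ← Scheme.Hom.comp_apply, reassoc_of% eχ, hP.lift_snd]
  have z1 := hc (χ p)
  have z2 := hc (χ q)
  simp only [k1, k2] at z1 z2
  linear_combination z1 - z2

theorem jmp_eq {T : Scheme.{0}} (hT : LiftsAll S T) {φ : T ⟶ X.obj.left} {U : FT S} {f : U ⟶ X}
    {h : U.obj.left → ZMod m} {ψ : T ⟶ U.obj.left} (hg : D.Good U f h)
    (e : ψ ≫ f.hom.left = φ) (p q : T) : jmp D φ p q = h (ψ p) - h (ψ q) := by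
  have h1 : IsJmp D φ p q (h (ψ p) - h (ψ q)) := ⟨U, f, h, ψ, hg, e, rfl⟩
  have h2 : ∃ a, IsJmp D φ p q a := ⟨_, h1⟩
  rw [jmp, dif_pos h2]
  exact IsJmp.unique D hT h2.choose_spec h1

theorem jmp_add {T : Scheme.{0}} (hT : LiftsAll S T) (φ : T ⟶ X.obj.left) (p q r : T) :
    jmp D φ p q + jmp D φ q r = jmp D φ p r := by
  obtain ⟨U, f, h, ψ, hg, e⟩ := exists_good_lift D hT φ
  rw [jmp_eq D hT hg e, jmp_eq D hT hg e, jmp_eq D hT hg e]
  ring

theorem jmp_comp {T T' : Scheme.{0}} (hT : LiftsAll S T) (hT' : LiftsAll S T') (θ : T' ⟶ T)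
    (φ : T ⟶ X.obj.left) (p q : T') : jmp D (θ ≫ φ) p q = jmp D φ (θ p) (θ q) := by
  obtain ⟨U, f, h, ψ, hg, e⟩ := exists_good_lift D hT φ
  rw [jmp_eq D hT hg e, jmp_eq D hT' (ψ := θ ≫ ψ) hg (by rw [Category.assoc, e])]
  simp

theorem liftsAll_val {Ω : Type} [Field Ω] [IsAlgClosed Ω] (O : ValuationSubring Ω) :
    LiftsAll S (Spec (.of O)) := fun _ _ hR => lifts_valuation O hR

/-- The generic point of the spectrum of a domain. -/
def gen (V : Type) [CommRing V] [IsDomain V] : PrimeSpectrum V := ⟨⊥, Ideal.isPrime_bot⟩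

theorem comap_gen {V W : Type} [CommRing V] [IsDomain V] [CommRing W] [IsDomain W] (σ : V →+* W)
    (hσ : Function.Injective σ) : PrimeSpectrum.comap σ (gen W) = gen V :=
  PrimeSpectrum.ext ((RingHom.injective_iff_ker_eq_bot σ).1 hσ)

theorem spec_map_apply {V W : Type} [CommRing V] [CommRing W] (σ : V →+* W) (p : PrimeSpectrum W) :
    Spec.map (CommRingCat.ofHom σ) p = PrimeSpectrum.comap σ p := rfl

/-- The jump from the closed point to the generic point. -/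
def jv {V : Type} [CommRing V] [IsDomain V] [IsLocalRing V] (φ : Spec (.of V) ⟶ X.obj.left) :
    ZMod m := jmp D φ (closedPoint V) (gen V)

theorem jv_comp {Ω Ω' : Type} [Field Ω] [IsAlgClosed Ω] [Field Ω'] [IsAlgClosed Ω']
    {O : ValuationSubring Ω} {O' : ValuationSubring Ω'} (σ : O →+* O') (φ : Spec (.of O) ⟶ X.obj.left) :
    jv D (Spec.map (CommRingCat.ofHom σ) ≫ φ) =
      jmp D φ (PrimeSpectrum.comap σ (closedPoint O')) (PrimeSpectrum.comap σ (gen O')) :=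
  jmp_comp D (liftsAll_val O) (liftsAll_val O') _ _ _ _

theorem jv_amalg {E : Type} [CommRing E] [IsDomain E] [ValuationRing E] {Ω Ω' : Type} [Field Ω]
    [IsAlgClosed Ω] [Field Ω'] [IsAlgClosed Ω'] {O : ValuationSubring Ω} {O' : ValuationSubring Ω'}
    (ρ : E →+* O) (τ : E →+* O') (hρ : Function.Injective ρ) (hτ : Function.Injective τ)
    [IsLocalHom ρ] [IsLocalHom τ] (δ : Spec (.of E) ⟶ X.obj.left) :
    jv D (Spec.map (CommRingCat.ofHom ρ) ≫ δ) = jv D (Spec.map (CommRingCat.ofHom τ) ≫ δ) := by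
  obtain ⟨Ω'', _, _, O'', σ, σ', hσ, hσ', _, _, e⟩ := exists_amalgamation ρ τ hρ hτ
  have h1 := jv_comp D σ (Spec.map (CommRingCat.ofHom ρ) ≫ δ)
  have h2 := jv_comp D σ' (Spec.map (CommRingCat.ofHom τ) ≫ δ)
  rw [comap_closedPoint, comap_gen _ hσ] at h1
  rw [comap_closedPoint, comap_gen _ hσ'] at h2
  rw [← Spec.map_comp_assoc, ← CommRingCat.ofHom_comp] at h1 h2
  rw [e] at h1
  exact h1.symm.trans h2

end general

/-- A specialization of primes is realized by a valuation ring. -/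
theorem exists_val_of_le {Γ : Type} [CommRing Γ] (p q : PrimeSpectrum Γ) (h : p ≤ q) :
    ∃ (Ω : Type) (_ : Field Ω) (_ : IsAlgClosed Ω) (O : ValuationSubring Ω) (σ : Γ →+* O),
      PrimeSpectrum.comap σ (closedPoint O) = q ∧ PrimeSpectrum.comap σ (gen O) = p := by
  let Ω := AlgebraicClosure p.asIdeal.ResidueField
  let γ : Γ →+* Ω := (algebraMap p.asIdeal.ResidueField Ω).comp (algebraMap Γ _)
  have hγ : ∀ x, γ x = 0 ↔ x ∈ p.asIdeal := fun x =>
    (map_eq_zero_iff _ (algebraMap p.asIdeal.ResidueField Ω).injective).trans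
      Ideal.algebraMap_residueField_eq_zero
  let f : Localization.AtPrime q.asIdeal →+* Ω :=
    IsLocalization.lift (M := q.asIdeal.primeCompl) (g := γ) fun y =>
      isUnit_iff_ne_zero.2 fun h0 => y.2 (h ((hγ _).1 h0))
  obtain ⟨O, hO, hloc⟩ := IsLocalRing.exists_factor_valuationRing f
  let f' : Localization.AtPrime q.asIdeal →+* O := f.codRestrict O.toSubring hO
  have : IsLocalHom f' := hloc
  refine ⟨Ω, inferInstance, inferInstance, O, f'.comp (algebraMap Γ _), ?_, ?_⟩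
  · rw [PrimeSpectrum.comap_comp_apply, comap_closedPoint]
    exact PrimeSpectrum.ext (Localization.AtPrime.under_maximalIdeal)
  · ext x
    change f' (algebraMap Γ _ x) = 0 ↔ _
    rw [← hγ, Subtype.ext_iff]
    change f (algebraMap Γ _ x) = 0 ↔ _
    rw [IsLocalization.lift_eq]

end Pool.Agent.P.MP_6277db_ag
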