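import Mathlib

/-!
Commutative algebra of valuation rings with algebraically closed fraction field.
-/

noncomputable section

open IsLocalRing Polynomial TensorProduct Filter

namespace Pool.Agent.P.MP_6277db_ag

/-- A root modulo the maximal ideal of a monic polynomial lifts to a root. -/
theorem exists_root_lift {Ω : Type} [Field Ω] [IsAlgClosed Ω] (O : ValuationSubring Ω)
    (f : O[X]) (hf : f.Monic) (x : ResidueField O)
    (hx : (f.map (residue O)).eval x = 0) : ∃ r : O, f.eval r = 0 ∧ residue O r = x := by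
  have hinj : Function.Injective (algebraMap O Ω) := IsFractionRing.injective O Ω
  have hsp : f.Splits := by
    refine Polynomial.Splits.of_splits_map_of_injective hinj (IsAlgClosed.splits _) ?_
    intro a ha
    have ha' : IsIntegral O a := by
      refine ⟨f, hf, ?_⟩
      have := (Polynomial.mem_roots (hf.map _).ne_zero).1 ha
      rwa [IsRoot.def, eval_map] at this
    obtain ⟨y, hy⟩ := IsIntegrallyClosed.algebraMap_eq_of_integral ha'
    exact ⟨y, hy⟩
  have hprod := hsp.eq_prod_roots_of_monic hf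
  rw [hprod, Polynomial.map_multiset_prod, eval_multiset_prod, Multiset.prod_eq_zero_iff] at hx
  simp only [Multiset.map_map, Function.comp_apply, Polynomial.map_sub, map_X, map_C, eval_sub,
    eval_X, eval_C, Multiset.mem_map] at hx
  obtain ⟨r, hr, hr'⟩ := hx
  exact ⟨r, (Polynomial.mem_roots hf.ne_zero).1 hr, (sub_eq_zero.1 hr').symm⟩

/-- Lifting along etale algebras. -/
theorem exists_etale_lift {Ω : Type} [Field Ω] [IsAlgClosed Ω] (O : ValuationSubring Ω)
    {R B : Type} [CommRing R] [CommRing B] (φ : R →+* B) (hφ : φ.Etale) (α : R →+* O)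
    (β : B →+* ResidueField O) (h : β.comp φ = (residue O).comp α) :
    ∃ γ : B →+* O, γ.comp φ = α := by
  algebraize [φ, α, (residue O).comp α]
  let β' : B →ₐ[R] ResidueField O := ⟨β, fun r => DFunLike.congr_fun h r⟩
  let ρ : O →ₐ[R] ResidueField O := ⟨residue O, fun _ => rfl⟩
  have : (RingHom.ker β).IsPrime := RingHom.ker_isPrime β
  obtain ⟨g, hg, hst⟩ := Algebra.IsEtaleAt.exists_isStandardEtale (R := R) (RingHom.ker β)
  obtain ⟨P⟩ := hst.nonempty_standardEtalePresentation
  have hu : IsUnit (β' g) := isUnit_iff_ne_zero.2 hg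
  let β'' : Localization.Away g →ₐ[R] ResidueField O :=
    IsLocalization.Away.liftAlgHom g hu
  have hm : P.P.HasMap (β'' P.x) := P.hasMap.map β''
  obtain ⟨r, hr, hr'⟩ := exists_root_lift O (P.P.f.map α) (P.P.monic_f.map α) (β'' P.x) (by
    rw [Polynomial.map_map, eval_map]; exact hm.1)
  have hm' : P.P.HasMap r := by
    refine ⟨by rw [aeval_def, ← eval_map]; exact hr, ?_⟩
    have h2 : IsUnit (residue O (aeval r P.P.g)) := by
      have : residue O (aeval r P.P.g) = aeval (β'' P.x) P.P.g := by
        rw [← hr']; exact (aeval_algHom_apply ρ r P.P.g).symm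
      rw [this]; exact hm.2
    exact (isUnit_map_iff (residue O) _).1 h2
  let γ : B →ₐ[R] O := ((P.P.lift r hm').comp P.equivRing.toAlgHom).comp
    (IsScalarTower.toAlgHom R B (Localization.Away g))
  exact ⟨γ.toRingHom, γ.comp_algebraMap⟩

/-- A valuation subring containing the image of a domain in which a given proper ideal
consists of nonunits. -/
theorem exists_valuationSubring_of_ideal {E : Type} [CommRing E] [IsDomain E] (I : Ideal E)
    (hI : I ≠ ⊤) : ∃ (Ω : Type) (_ : Field Ω) (_ : IsAlgClosed Ω) (O : ValuationSubring Ω)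
      (σ : E →+* O), Function.Injective σ ∧ ∀ x ∈ I, σ x ∈ maximalIdeal O := by
  let Ω := AlgebraicClosure (FractionRing E)
  let τ : E →+* Ω := (algebraMap (FractionRing E) Ω).comp (algebraMap E (FractionRing E))
  have hτ : Function.Injective τ :=
    (algebraMap (FractionRing E) Ω).injective.comp (IsFractionRing.injective E _)
  have hb : Function.Bijective τ.rangeRestrict :=
    ⟨fun a b hab => hτ (congrArg Subtype.val hab), τ.rangeRestrict_surjective⟩
  obtain ⟨O, hO, hO'⟩ := Ideal.image_subset_nonunits_valuationSubring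
    (I.map τ.rangeRestrict) (by
      rw [Ne, Ideal.map_eq_top_of_bijective _ hb]; exact hI)
  refine ⟨Ω, inferInstance, inferInstance, O, τ.codRestrict O (fun x => hO ⟨x, rfl⟩),
    fun a b hab => hτ (congrArg Subtype.val hab), fun x hx => ?_⟩
  rw [← ValuationSubring.coe_mem_nonunits_iff]
  exact hO' ⟨τ.rangeRestrict x, Ideal.mem_map_of_mem _ hx, rfl⟩

/-- Amalgamation of two extensions of a valuation ring. -/
theorem exists_amalgamation {D V W : Type} [CommRing D] [IsDomain D] [ValuationRing D]
    [CommRing V] [IsDomain V] [IsLocalRing V] [CommRing W] [IsDomain W] [IsLocalRing W]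
    (ρ : D →+* V) (τ : D →+* W) (hρ : Function.Injective ρ) (hτ : Function.Injective τ)
    [IsLocalHom ρ] [IsLocalHom τ] :
    ∃ (Ω : Type) (_ : Field Ω) (_ : IsAlgClosed Ω) (O : ValuationSubring Ω)
      (σ : V →+* O) (σ' : W →+* O), Function.Injective σ ∧ Function.Injective σ' ∧
        IsLocalHom σ ∧ IsLocalHom σ' ∧ σ.comp ρ = σ'.comp τ := by
  algebraize [ρ, τ]
  have : FaithfulSMul D V := (faithfulSMul_iff_algebraMap_injective D V).2 hρ
  have : FaithfulSMul D W := (faithfulSMul_iff_algebraMap_injective D W).2 hτ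
  have hV : Module.Flat D V := by
    rw [Module.Flat.flat_iff_torsion_eq_bot_of_isBezout,
      ← Submodule.isTorsionFree_iff_torsion_eq_bot]
    infer_instance
  have hW : Module.Flat D W := by
    rw [Module.Flat.flat_iff_torsion_eq_bot_of_isBezout,
      ← Submodule.isTorsionFree_iff_torsion_eq_bot]
    infer_instance
  have : IsLocalHom (algebraMap D V) := ‹IsLocalHom ρ›
  have : IsLocalHom (algebraMap D W) := ‹IsLocalHom τ›
  let F := ResidueField V ⊗[ResidueField D] ResidueField W
  have : Nontrivial F := inferInstance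
  let a₀ : ResidueField V →ₐ[ResidueField D] F := Algebra.TensorProduct.includeLeft
  let b₀ : ResidueField W →ₐ[ResidueField D] F := Algebra.TensorProduct.includeRight
  let a : V →ₐ[D] F := (a₀.restrictScalars D).comp (IsScalarTower.toAlgHom D V (ResidueField V))
  let b : W →ₐ[D] F := (b₀.restrictScalars D).comp (IsScalarTower.toAlgHom D W (ResidueField W))
  let c : V ⊗[D] W →ₐ[D] F := Algebra.TensorProduct.lift a b (fun _ _ => .all _ _)
  obtain ⟨q, hq, hq'⟩ := Ideal.exists_le_maximal (RingHom.ker c) (RingHom.ker_ne_top c)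
  obtain ⟨q₀, hq₀, hq₀'⟩ := Ideal.exists_minimalPrimes_le (I := ⊥) (J := q) bot_le
  have : q₀.IsPrime := hq₀.1.1
  have hdisj := Ideal.disjoint_nonZeroDivisors_of_mem_minimalPrimes hq₀
  obtain ⟨Ω, _, _, O, σ, hσ, hσ'⟩ := exists_valuationSubring_of_ideal
    (q.map (Ideal.Quotient.mk q₀)) (by
      intro h
      have := congrArg (Ideal.comap (Ideal.Quotient.mk q₀)) h
      rw [Ideal.comap_map_of_surjective _ Ideal.Quotient.mk_surjective, Ideal.comap_top,
        ← RingHom.ker_eq_comap_bot, Ideal.mk_ker, sup_eq_left.2 hq₀'] at this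
      exact hq.ne_top this)
  let l : V →+* V ⊗[D] W := Algebra.TensorProduct.includeLeftRingHom
  let r : W →+* V ⊗[D] W := Algebra.TensorProduct.includeRight.toRingHom
  have hl : ∀ x : V, x ≠ 0 → l x ∉ q₀ := by
    intro x hx hmem
    refine Set.disjoint_left.1 hdisj hmem ?_
    have hi := Module.Flat.rTensor_preserves_injective_linearMap (M := W)
      (LinearMap.mulLeft D x) (mul_right_injective₀ hx)
    have he : ∀ z, (LinearMap.mulLeft D x).rTensor W z = l x * z := by
      intro z
      induction z with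
      | zero => simp
      | tmul u v => simp [l]
      | add u v hu hv => simp [mul_add, hu, hv]
    refine mem_nonZeroDivisors_iff_left.2 fun z hz => hi ?_
    rw [he, hz, map_zero]
  have hr : ∀ x : W, x ≠ 0 → r x ∉ q₀ := by
    intro x hx hmem
    refine Set.disjoint_left.1 hdisj hmem ?_
    have hi := Module.Flat.lTensor_preserves_injective_linearMap (M := V)
      (LinearMap.mulLeft D x) (mul_right_injective₀ hx)
    have he : ∀ z, (LinearMap.mulLeft D x).lTensor V z = r x * z := by
      intro z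
      induction z with
      | zero => simp
      | tmul u v => simp [r]
      | add u v hu hv => simp [mul_add, hu, hv]
    refine mem_nonZeroDivisors_iff_left.2 fun z hz => hi ?_
    rw [he, hz, map_zero]
  refine ⟨Ω, inferInstance, inferInstance, O, σ.comp ((Ideal.Quotient.mk q₀).comp l),
    σ.comp ((Ideal.Quotient.mk q₀).comp r), ?_, ?_, ?_, ?_, ?_⟩
  · rw [injective_iff_map_eq_zero]
    intro x hx
    by_contra h0
    exact hl x h0 (Ideal.Quotient.eq_zero_iff_mem.1 (hσ (hx.trans (map_zero σ).symm)))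
  · rw [injective_iff_map_eq_zero]
    intro x hx
    by_contra h0
    exact hr x h0 (Ideal.Quotient.eq_zero_iff_mem.1 (hσ (hx.trans (map_zero σ).symm)))
  · refine ⟨fun x hx => ?_⟩
    by_contra hn
    refine hσ' _ (Ideal.mem_map_of_mem _ (hq' ?_)) hx
    have : residue V x = 0 := (residue_eq_zero_iff x).2 hn
    simp [RingHom.mem_ker, c, l, a, this]
  · refine ⟨fun x hx => ?_⟩
    by_contra hn
    refine hσ' _ (Ideal.mem_map_of_mem _ (hq' ?_)) hx
    have : residue W x = 0 := (residue_eq_zero_iff x).2 hn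
    simp [RingHom.mem_ker, c, r, b, this]
  · ext x
    have : l (ρ x) = r (τ x) := by
      change (algebraMap D V x) ⊗ₜ[D] (1 : W) = (1 : V) ⊗ₜ[D] (algebraMap D W x)
      rw [Algebra.algebraMap_eq_smul_one, Algebra.algebraMap_eq_smul_one, smul_tmul]
    simp [this]

/-- Every valuation subring extends along a field embedding. -/
theorem exists_comap_eq {K Ω : Type} [Field K] [Field Ω] (f : K →+* Ω) (D : ValuationSubring K) :
    ∃ O : ValuationSubring Ω, O.comap f = D := by
  obtain ⟨O, hO, hloc⟩ := IsLocalRing.exists_factor_valuationRing (f.comp D.subtype)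
  refine ⟨O, ValuationSubring.ext _ _ fun x => ⟨fun hx => ?_, fun hx => hO ⟨x, hx⟩⟩⟩
  by_contra hn
  have hx0 : x ≠ 0 := fun h => hn (h ▸ D.zero_mem)
  have hi : x⁻¹ ∈ D := (D.mem_or_inv_mem x).resolve_left hn
  have hu : IsUnit (((f.comp D.subtype).codRestrict O.toSubring hO) ⟨x⁻¹, hi⟩) := by
    refine IsUnit.of_mul_eq_one ⟨f x, hx⟩ (Subtype.ext ?_)
    change f x⁻¹ * f x = 1
    rw [← map_mul, inv_mul_cancel₀ hx0, map_one]
  obtain ⟨y, hy⟩ := (hloc.map_nonunit _ hu).exists_right_inv
  have hy' : x⁻¹ * y = 1 := congrArg Subtype.val hy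
  have : (y : K) = x := by
    rw [← mul_inv_cancel_left₀ hx0 (y : K), hy', mul_one]
  exact hn (this ▸ y.2)

/-- A coarsening downstairs lifts to a coarsening upstairs. -/
theorem exists_ge_comap_eq {K Ω : Type} [Field K] [Field Ω] (f : K →+* Ω)
    (O : ValuationSubring Ω) (D : ValuationSubring K) (h : O.comap f ≤ D) :
    ∃ O' : ValuationSubring Ω, O ≤ O' ∧ O'.comap f = D := by
  let T : Subring Ω :=
    { carrier := {x | ∃ s : K, f s ∈ O ∧ s ≠ 0 ∧ s⁻¹ ∈ D ∧ f s * x ∈ O}
      mul_mem' := by
        rintro x y ⟨s, hs, hs0, hs', hx⟩ ⟨t, ht, ht0, ht', hy⟩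
        refine ⟨s * t, by rw [map_mul]; exact O.mul_mem _ _ hs ht, mul_ne_zero hs0 ht0,
          by rw [mul_inv]; exact D.mul_mem _ _ hs' ht', ?_⟩
        have : f (s * t) * (x * y) = (f s * x) * (f t * y) := by rw [map_mul]; ring
        rw [this]; exact O.mul_mem _ _ hx hy
      one_mem' := ⟨1, by simp [O.one_mem], one_ne_zero, by simp [D.one_mem], by simp [O.one_mem]⟩
      add_mem' := by
        rintro x y ⟨s, hs, hs0, hs', hx⟩ ⟨t, ht, ht0, ht', hy⟩
        refine ⟨s * t, by rw [map_mul]; exact O.mul_mem _ _ hs ht, mul_ne_zero hs0 ht0,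
          by rw [mul_inv]; exact D.mul_mem _ _ hs' ht', ?_⟩
        have : f (s * t) * (x + y) = f t * (f s * x) + f s * (f t * y) := by rw [map_mul]; ring
        rw [this]; exact O.add_mem _ _ (O.mul_mem _ _ ht hx) (O.mul_mem _ _ hs hy)
      zero_mem' := ⟨1, by simp [O.one_mem], one_ne_zero, by simp [D.one_mem], by simp [O.zero_mem]⟩
      neg_mem' := by
        rintro x ⟨s, hs, hs0, hs', hx⟩
        exact ⟨s, hs, hs0, hs', by rw [mul_neg]; exact O.neg_mem _ hx⟩ }
  have hle : O.toSubring ≤ T := fun x hx =>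
    ⟨1, by simp [O.one_mem], one_ne_zero, by simp [D.one_mem], by simpa using hx⟩
  refine ⟨O.ofLE T hle, hle, ValuationSubring.ext _ _ fun x => ⟨?_, fun hx => ?_⟩⟩
  · rintro ⟨s, -, hs0, hs', hx⟩
    have h1 : s * x ∈ D := h (by rw [ValuationSubring.mem_comap, map_mul]; exact hx)
    have := D.mul_mem _ _ hs' h1
    rwa [inv_mul_cancel_left₀ hs0] at this
  · by_cases hx' : f x ∈ O
    · exact hle hx'
    · have hx0 : x ≠ 0 := fun h => hx' (by rw [h, map_zero]; exact O.zero_mem)
      refine ⟨x⁻¹, ?_, inv_ne_zero hx0, by rwa [inv_inv], ?_⟩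
      · rw [map_inv₀]; exact (O.mem_or_inv_mem _).resolve_left hx'
      · rw [← map_mul, inv_mul_cancel₀ hx0, map_one]; exact O.one_mem

/-- The ultralimit of a family of valuation subrings. -/
def ultraLim {Ω I : Type} [Field Ω] (O : I → ValuationSubring Ω) (U : Ultrafilter I) :
    ValuationSubring Ω where
  carrier := {x | ∀ᶠ i in (U : Filter I), x ∈ O i}
  mul_mem' hx hy := (hx.and hy).mono fun i h => (O i).mul_mem _ _ h.1 h.2
  one_mem' := Eventually.of_forall fun i => (O i).one_mem
  add_mem' hx hy := (hx.and hy).mono fun i h => (O i).add_mem _ _ h.1 h.2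
  zero_mem' := Eventually.of_forall fun i => (O i).zero_mem
  neg_mem' hx := hx.mono fun i h => (O i).neg_mem _ h
  mem_or_inv_mem' x := Ultrafilter.eventually_or.1
    (Eventually.of_forall fun i => (O i).mem_or_inv_mem x)

theorem mem_ultraLim {Ω I : Type} [Field Ω] (O : I → ValuationSubring Ω) (U : Ultrafilter I)
    (x : Ω) : x ∈ ultraLim O U ↔ ∀ᶠ i in (U : Filter I), x ∈ O i := Iff.rfl

theorem mem_nonunits_ultraLim {Ω I : Type} [Field Ω] (O : I → ValuationSubring Ω)
    (U : Ultrafilter I) (x : Ω) :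
    x ∈ (ultraLim O U).nonunits ↔ ∀ᶠ i in (U : Filter I), x ∈ (O i).nonunits := by
  simp only [ValuationSubring.mem_nonunits_iff_or, mem_ultraLim]
  by_cases hx : x = 0
  · simp [hx]
  · simp only [hx, false_or, Ultrafilter.eventually_not]

end Pool.Agent.P.MP_6277db_ag
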