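import Pool.Agent.P.MP_6277db_ag.Defs
import Pool.Agent.P.MP_6277db_ag.ValAlg

/-!
Lifting properties of cdh covers: points with values in fields and in valuation rings with
algebraically closed fraction field lift to a member of every covering sieve.
-/

noncomputable section

open CategoryTheory AlgebraicGeometry Limits IsLocalRing

namespace Pool.Agent.P.MP_6277db_ag

variable {S : Scheme.{0}}

/-- A morphism of `FT S` from a morphism of schemes. -/
def mkHom {U V : FT S} (f : U.obj.left ⟶ V.obj.left) (h : f ≫ V.obj.hom = U.obj.hom) : U ⟶ V :=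
  ObjectProperty.homMk (Over.homMk f h)

@[simp] theorem mkHom_left {U V : FT S} (f : U.obj.left ⟶ V.obj.left)
    (h : f ≫ V.obj.hom = U.obj.hom) : (mkHom f h).hom.left = f := rfl

theorem FT.hom_ext {U V : FT S} {f g : U ⟶ V} (h : f.hom.left = g.hom.left) : f = g :=
  ObjectProperty.hom_ext _ (Over.OverMorphism.ext h)

theorem FT.w {U V : FT S} (f : U ⟶ V) : f.hom.left ≫ V.obj.hom = U.obj.hom := Over.w f.hom

theorem FT.comp_left {U V W : FT S} (f : U ⟶ V) (g : V ⟶ W) :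
    (f ≫ g).hom.left = f.hom.left ≫ g.hom.left := rfl

theorem exists_pullback [IsLocallyNoetherian S] {X U V : FT S} (f : U ⟶ X) (g : V ⟶ X) :
    ∃ (T : FT S) (a : T ⟶ U) (b : T ⟶ V), a ≫ f = b ≫ g ∧
      IsPullback a.hom.left b.hom.left f.hom.left g.hom.left := by
  have hX1 : LocallyOfFiniteType X.obj.hom := X.property.1
  have hU1 : LocallyOfFiniteType U.obj.hom := U.property.1
  have hU2 : QuasiCompact U.obj.hom := U.property.2
  have hV1 : LocallyOfFiniteType (g.hom.left ≫ X.obj.hom) := by rw [FT.w]; exact V.property.1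
  have hV2 : QuasiCompact (g.hom.left ≫ X.obj.hom) := by rw [FT.w]; exact V.property.2
  have : IsLocallyNoetherian X.obj.left := LocallyOfFiniteType.isLocallyNoetherian X.obj.hom
  have : LocallyOfFiniteType g.hom.left := locallyOfFiniteType_of_comp _ X.obj.hom
  have : QuasiCompact g.hom.left := QuasiCompact.of_comp _ X.obj.hom
  let T : FT S := ⟨Over.mk (pullback.fst f.hom.left g.hom.left ≫ U.obj.hom),
    inferInstanceAs (LocallyOfFiniteType (pullback.fst f.hom.left g.hom.left ≫ U.obj.hom)),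
    inferInstanceAs (QuasiCompact (pullback.fst f.hom.left g.hom.left ≫ U.obj.hom))⟩
  refine ⟨T, mkHom (pullback.fst f.hom.left g.hom.left) rfl,
    mkHom (pullback.snd f.hom.left g.hom.left) ?_, FT.hom_ext pullback.condition,
    IsPullback.of_hasPullback _ _⟩
  change pullback.snd f.hom.left g.hom.left ≫ V.obj.hom =
    pullback.fst f.hom.left g.hom.left ≫ U.obj.hom
  rw [← FT.w g, ← FT.w f, pullback.condition_assoc]

/-- Lifts into a pullback inside `FT S`. -/
theorem exists_lift_FT {X U V T T' : FT S} {f : U ⟶ X} {g : V ⟶ X} {a : T ⟶ U} {b : T ⟶ V}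
    (h : IsPullback a.hom.left b.hom.left f.hom.left g.hom.left) (a' : T' ⟶ U) (b' : T' ⟶ V)
    (w : a' ≫ f = b' ≫ g) : ∃ l : T' ⟶ T, l ≫ a = a' ∧ l ≫ b = b' := by
  have w' : a'.hom.left ≫ f.hom.left = b'.hom.left ≫ g.hom.left :=
    congrArg (fun k => k.hom.left) w
  refine ⟨mkHom (h.lift _ _ w') ?_, FT.hom_ext (h.lift_fst _ _ w'),
    FT.hom_ext (h.lift_snd _ _ w')⟩
  rw [← FT.w a, h.lift_fst_assoc, FT.w]

theorem isNis_iff {U : FT S} {R : Presieve U} : IsNisnevichCover R ↔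
    (∀ (V : FT S) (f : V ⟶ U), R f → Etale f.hom.left) ∧
      ∀ x : U.obj.left, ∃ (V : FT S) (f : V ⟶ U) (y : V.obj.left),
        R f ∧ f.hom.left y = x ∧ IsIso (f.hom.left.residueFieldMap y) := by
  constructor
  · rintro ⟨I, V, f, rfl, h1, h2⟩
    refine ⟨?_, fun x => ?_⟩
    · rintro _ _ ⟨i⟩
      exact h1 i
    · obtain ⟨i, y, h⟩ := h2 x
      exact ⟨V i, f i, y, Presieve.ofArrows.mk i, h⟩
  · rintro ⟨h1, h2⟩
    obtain ⟨I, V, f, rfl⟩ := R.exists_eq_ofArrows
    refine ⟨I, V, f, rfl, fun i => h1 _ _ (Presieve.ofArrows.mk i), fun x => ?_⟩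
    obtain ⟨_, _, y, ⟨i⟩, h⟩ := h2 x
    exact ⟨i, y, h⟩

/-- Every morphism from `T` lifts to a member of the family. -/
def Lifts (T : Scheme.{0}) {U : FT S} (R : Presieve U) : Prop :=
  ∀ φ : T ⟶ U.obj.left, ∃ (V : FT S) (f : V ⟶ U) (ψ : T ⟶ V.obj.left),
    R f ∧ ψ ≫ f.hom.left = φ

theorem lifts_of_gen [IsLocallyNoetherian S] (T : Scheme.{0})
    (h : ∀ (U : FT S) (R : Presieve U), IsNisnevichCover R ∨ IsBlowupCover R → Lifts T R)
    {U : FT S} {R : Sieve U} (hR : R ∈ cdh S U) : Lifts T R.arrows := by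
  induction hR with
  | of X R hR =>
    intro φ
    obtain ⟨V, f, ψ, hf, e⟩ := h X R hR φ
    exact ⟨V, f, ψ, Sieve.le_generate R _ _ hf, e⟩
  | top X => exact fun φ => ⟨X, 𝟙 X, φ, trivial, Category.comp_id _⟩
  | pullback X R _ Y f ih =>
    intro φ
    obtain ⟨V, g, ψ, hg, e⟩ := ih (φ ≫ f.hom.left)
    obtain ⟨P, a, b, w, hP⟩ := exists_pullback g f
    refine ⟨P, b, hP.lift ψ φ e, ?_, hP.lift_snd _ _ _⟩
    change R (b ≫ f)
    rw [← w]
    exact R.downward_closed hg a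
  | transitive X R R' _ _ ih ih' =>
    intro φ
    obtain ⟨V, f, ψ, hf, e⟩ := ih φ
    obtain ⟨V', g, ψ', hg, e'⟩ := ih' hf ψ
    exact ⟨V', g ≫ f, ψ', hg, by rw [FT.comp_left, ← Category.assoc, e', e]⟩

theorem exists_lift_field {X Y : Scheme.{0}} (f : Y ⟶ X) (y : Y) [IsIso (f.residueFieldMap y)]
    {K : Type} [Field K] (φ : Spec (.of K) ⟶ X) (h : f y = φ (closedPoint K)) :
    ∃ ψ : Spec (.of K) ⟶ Y, ψ ≫ f = φ := by
  obtain ⟨⟨x, a⟩, rfl⟩ := (Scheme.SpecToEquivOfField K X).symm.surjective φ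
  have hx : f y = x := by
    rw [h]
    simp [Scheme.SpecToEquivOfField]
  subst hx
  refine ⟨Spec.map (inv (f.residueFieldMap y) ≫ a) ≫ Y.fromSpecResidueField y, ?_⟩
  rw [Category.assoc, ← Scheme.Hom.SpecMap_residueFieldMap_fromSpecResidueField,
    ← Spec.map_comp_assoc, IsIso.hom_inv_id_assoc]
  rfl

theorem isIso_residueFieldMap {X Y : Scheme.{0}} (f : Y ⟶ X) [SurjectiveOnStalks f] (y : Y) :
    IsIso (f.residueFieldMap y) := by
  rw [ConcreteCategory.isIso_iff_bijective]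
  refine ⟨(f.residueFieldMap y).hom.injective, ?_⟩
  have h : Function.Surjective (X.residue (f y) ≫ f.residueFieldMap y) := by
    rw [Scheme.residue_residueFieldMap]
    exact (Y.residue_surjective y).comp (f.stalkMap_surjective y)
  exact Function.Surjective.of_comp (g := X.residue (f y)) h

theorem range_subset_of_closedPoint {V : Type} [CommRing V] [IsLocalRing V] {X : Scheme.{0}}
    (φ : Spec (.of V) ⟶ X) (O : X.Opens) (h : φ (closedPoint V) ∈ O) :
    Set.range φ ⊆ O := by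
  rintro _ ⟨p, rfl⟩
  exact ((specializes_closedPoint p).map φ.continuous).mem_open O.isOpen h

theorem blowup_lift_field {U : FT S} {Z W : FT S} (i : Z ⟶ U) (p : W ⟶ U) (O : U.obj.left.Opens)
    [IsClosedImmersion i.hom.left] (hO : (O : Set U.obj.left) = (Set.range i.hom.left)ᶜ)
    [IsIso (p.hom.left ∣_ O)] {K : Type} [Field K] (φ : Spec (.of K) ⟶ U.obj.left) :
    (∃ ψ : Spec (.of K) ⟶ Z.obj.left, ψ ≫ i.hom.left = φ) ∨
      ∃ ψ : Spec (.of K) ⟶ W.obj.left, ψ ≫ p.hom.left = φ := by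
  by_cases hx : φ (closedPoint K) ∈ Set.range i.hom.left
  · obtain ⟨y, hy⟩ := hx
    have := isIso_residueFieldMap i.hom.left y
    exact Or.inl (exists_lift_field _ y φ hy)
  · have h1 : Set.range φ ⊆ Set.range O.ι := by
      rw [Scheme.Opens.range_ι]
      exact range_subset_of_closedPoint φ O (by rw [← SetLike.mem_coe, hO]; exact hx)
    refine Or.inr ⟨IsOpenImmersion.lift O.ι φ h1 ≫ inv (p.hom.left ∣_ O) ≫
      (p.hom.left ⁻¹ᵁ O).ι, ?_⟩
    rw [Category.assoc, Category.assoc, ← morphismRestrict_ι, IsIso.inv_hom_id_assoc,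
      IsOpenImmersion.lift_fac]

theorem lifts_field [IsLocallyNoetherian S] (K : Type) [Field K] {U : FT S} {R : Sieve U}
    (hR : R ∈ cdh S U) : Lifts (Spec (.of K)) R.arrows := by
  refine lifts_of_gen _ ?_ hR
  rintro U R (h | ⟨Z, W, i, p, O, hi, hp, hO, hiso, rfl⟩) φ
  · obtain ⟨V, f, y, hf, hy, hiso⟩ := (isNis_iff.1 h).2 (φ (closedPoint K))
    obtain ⟨ψ, e⟩ := exists_lift_field _ y φ hy
    exact ⟨V, f, ψ, hf, e⟩
  · rcases blowup_lift_field i p O hO φ with ⟨ψ, e⟩ | ⟨ψ, e⟩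
    · exact ⟨Z, i, ψ, Or.inl (Presieve.singleton_self i), e⟩
    · exact ⟨W, p, ψ, Or.inr (Presieve.singleton_self p), e⟩

theorem exists_lift_proper {X Y : Scheme.{0}} (f : Y ⟶ X) [UniversallyClosed f] {Ω : Type}
    [Field Ω] (O : ValuationSubring Ω) (φ : Spec (.of O) ⟶ X) (ψ : Spec (.of Ω) ⟶ Y)
    (h : ψ ≫ f = Spec.map (CommRingCat.ofHom (algebraMap O Ω)) ≫ φ) :
    ∃ ψ' : Spec (.of O) ⟶ Y, ψ' ≫ f = φ := by
  have H : ValuativeCriterion.Existence f :=
    (UniversallyClosed.eq_valuativeCriterion ▸ (‹UniversallyClosed f› : @UniversallyClosed _ _ f)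
      : (ValuativeCriterion.Existence ⊓ @QuasiCompact) f).1
  obtain ⟨l, -, hl⟩ := (H { R := O, K := Ω, commSq := ⟨h⟩, .. }).exists_lift
  exact ⟨l, hl⟩

/-- A morphism from the spectrum of a local ring factors through any affine open neighbourhood
of the image of the closed point. -/
theorem exists_ringHom_affine {V : Type} [CommRing V] [IsLocalRing V] {X : Scheme.{0}}
    (φ : Spec (.of V) ⟶ X) {O : X.Opens} (hO : IsAffineOpen O) (h : φ (closedPoint V) ∈ O) :
    ∃ α : Γ(X, O) ⟶ .of V, Spec.map α ≫ hO.fromSpec = φ := by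
  have h1 : Set.range φ ⊆ Set.range hO.fromSpec := by
    rw [hO.range_fromSpec]; exact range_subset_of_closedPoint φ O h
  exact ⟨Spec.preimage (IsOpenImmersion.lift hO.fromSpec φ h1), by
    rw [Spec.map_preimage, IsOpenImmersion.lift_fac]⟩

theorem exists_lift_etale {X Y : Scheme.{0}} (f : Y ⟶ X) [Etale f] {Ω : Type}
    [Field Ω] [IsAlgClosed Ω] (O : ValuationSubring Ω) (φ : Spec (.of O) ⟶ X)
    (ψ : Spec (.of (ResidueField O)) ⟶ Y)
    (h : ψ ≫ f = Spec.map (CommRingCat.ofHom (residue O)) ≫ φ) :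
    ∃ ψ' : Spec (.of O) ⟶ Y, ψ' ≫ f = φ := by
  obtain ⟨U, hU, hxU, -⟩ := exists_isAffineOpen_mem_and_subset
    (x := φ (closedPoint O)) (U := ⊤) trivial
  have hy : ψ (closedPoint (ResidueField O)) ∈ f ⁻¹ᵁ U := by
    change (ψ ≫ f) (closedPoint (ResidueField O)) ∈ U
    rw [h]
    exact range_subset_of_closedPoint φ U hxU ⟨_, rfl⟩
  obtain ⟨V, hV, hyV, hVU⟩ := exists_isAffineOpen_mem_and_subset hy
  obtain ⟨α, hα⟩ := exists_ringHom_affine φ hU hxU
  obtain ⟨β, hβ⟩ := exists_ringHom_affine ψ hV hyV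
  have hVU' : V ≤ f ⁻¹ᵁ U := hVU
  have he : f.appLE U V hVU' ≫ β = α ≫ CommRingCat.ofHom (residue O) := by
    rw [← Spec.map_inj, ← cancel_mono hU.fromSpec, Spec.map_comp, Spec.map_comp, Category.assoc,
      Category.assoc, IsAffineOpen.SpecMap_appLE_fromSpec f hU hV, hα, ← h, ← Category.assoc, hβ]
  obtain ⟨γ, hγ⟩ := exists_etale_lift O (f.appLE U V hVU').hom (f.etale_appLE hU hV hVU') α.hom
    β.hom (congrArg CommRingCat.Hom.hom he)
  refine ⟨Spec.map (CommRingCat.ofHom γ) ≫ hV.fromSpec, ?_⟩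
  rw [Category.assoc, ← IsAffineOpen.SpecMap_appLE_fromSpec f hU hV hVU', ← Spec.map_comp_assoc,
    ← hα]
  congr 2
  exact CommRingCat.hom_ext hγ

theorem lifts_valuation [IsLocallyNoetherian S] {Ω : Type} [Field Ω] [IsAlgClosed Ω]
    (O : ValuationSubring Ω) {U : FT S} {R : Sieve U}
    (hR : R ∈ cdh S U) : Lifts (Spec (.of O)) R.arrows := by
  refine lifts_of_gen _ ?_ hR
  rintro U R (h | ⟨Z, W, i, p, O', hi, hp, hO, hiso, rfl⟩) φ
  · obtain ⟨he, h⟩ := isNis_iff.1 h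
    obtain ⟨V, f, y, hf, hy, hiso⟩ := h ((Spec.map (CommRingCat.ofHom (residue O)) ≫ φ)
      (closedPoint (ResidueField O)))
    obtain ⟨ψ, e⟩ := exists_lift_field _ y _ hy
    have := he V f hf
    obtain ⟨ψ', e'⟩ := exists_lift_etale _ O φ ψ e
    exact ⟨V, f, ψ', hf, e'⟩
  · rcases blowup_lift_field i p O' hO (Spec.map (CommRingCat.ofHom (algebraMap O Ω)) ≫ φ)
      with ⟨ψ, e⟩ | ⟨ψ, e⟩
    · obtain ⟨ψ', e'⟩ := exists_lift_proper _ O φ ψ e
      exact ⟨Z, i, ψ', Or.inl (Presieve.singleton_self i), e'⟩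
    · obtain ⟨ψ', e'⟩ := exists_lift_proper _ O φ ψ e
      exact ⟨W, p, ψ', Or.inr (Presieve.singleton_self p), e'⟩

end Pool.Agent.P.MP_6277db_ag
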