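import Pool.Agent.P.MP_6277db_ag.Jump

/-!
The corrected jump is constant along a continuous path of valuations centred on the special fibre.
-/

noncomputable section

open CategoryTheory AlgebraicGeometry Limits Opposite IsLocalRing Filter Topology
open scoped NNReal unitInterval

namespace Pool.Agent.P.MP_6277db_ag

/-- The restriction of a field embedding to valuation subrings. -/
def restrictHom {K Ω : Type} [Field K] [Field Ω] (f : K →+* Ω) {E : ValuationSubring K}
    {O : ValuationSubring Ω} (h : O.comap f = E) : E →+* O :=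
  (f.comp E.subtype).codRestrict O.toSubring fun x => h.ge x.2

theorem restrictHom_injective {K Ω : Type} [Field K] [Field Ω] (f : K →+* Ω)
    {E : ValuationSubring K} {O : ValuationSubring Ω} (h : O.comap f = E) :
    Function.Injective (restrictHom f h) := fun _ _ e =>
  Subtype.ext (f.injective (congrArg Subtype.val e))

theorem restrictHom_local {K Ω : Type} [Field K] [Field Ω] (f : K →+* Ω)
    {E : ValuationSubring K} {O : ValuationSubring Ω} (h : O.comap f = E) :
    IsLocalHom (restrictHom f h) := by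
  refine ⟨fun x hx => ?_⟩
  obtain ⟨y, hy⟩ := hx.exists_right_inv
  have hy' : f x * y = 1 := congrArg Subtype.val hy
  have hx0 : (x : K) ≠ 0 := by
    intro h0
    rw [h0, map_zero, zero_mul] at hy'
    exact zero_ne_one hy'
  have hi : (x : K)⁻¹ ∈ E := by
    apply h.le
    change f (x : K)⁻¹ ∈ O
    rw [map_inv₀, ← eq_inv_of_mul_eq_one_right hy']
    exact y.2
  exact IsUnit.of_mul_eq_one ⟨_, hi⟩ (Subtype.ext (mul_inv_cancel₀ hx0))

theorem exists_affine_factor {A : Type} [CommRing A] (U : FT (Spec (.of A))) {V : Type}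
    [CommRing V] [IsLocalRing V] (ψ : Spec (.of V) ⟶ U.obj.left) :
    ∃ (Γ : Type) (_ : CommRing Γ) (j : Spec (.of Γ) ⟶ U.obj.left) (μ : A →+* Γ) (α : Γ →+* V),
      Spec.map (CommRingCat.ofHom α) ≫ j = ψ ∧ j ≫ U.obj.hom = Spec.map (CommRingCat.ofHom μ) ∧
        μ.FiniteType := by
  obtain ⟨O, hO, hx, -⟩ := exists_isAffineOpen_mem_and_subset
    (x := ψ (closedPoint V)) (U := ⊤) trivial
  obtain ⟨α, hα⟩ := exists_ringHom_affine ψ hO hx
  have h1 : LocallyOfFiniteType U.obj.hom := U.property.1
  have h2 : LocallyOfFiniteType (Spec.map (Spec.preimage (hO.fromSpec ≫ U.obj.hom))) := by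
    rw [Spec.map_preimage]
    infer_instance
  exact ⟨Γ(U.obj.left, O), inferInstance, hO.fromSpec,
    (Spec.preimage (hO.fromSpec ≫ U.obj.hom)).hom, α.hom, hα, (Spec.map_preimage _).symm,
    HasRingHomProperty.Spec_iff.1 h2⟩

theorem isDominant_val {Ω : Type} [Field Ω] (O : ValuationSubring Ω) :
    IsDominant (Spec.map (CommRingCat.ofHom O.subtype)) := by
  refine ⟨?_⟩
  have : DenseRange (PrimeSpectrum.comap O.subtype) := by
    rw [PrimeSpectrum.denseRange_comap_iff_ker_le_nilRadical,
      (RingHom.injective_iff_ker_eq_bot _).1 O.subtype_injective]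
    exact bot_le
  exact this

variable {A : Type} [CommRing A] [IsNoetherianRing A] {m : ℕ} {X : FT (Spec (.of A))}
  (D : GoodData m X) {B : Type} [CommRing B] (t : B) (c : Spec (.of B) ⟶ X.obj.left)
  (G : PrimeSpectrum B → ZMod m)

/-- The corrected jump. -/
def psi {Ω : Type} [Field Ω] {O : ValuationSubring Ω} (β : B →+* O) : ZMod m :=
  jv D (Spec.map (CommRingCat.ofHom β) ≫ c) - G (PrimeSpectrum.comap β (closedPoint O))

/-- On the special fibre the jumps are those of `G`. -/
def Compat : Prop :=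
  ∀ (Ω : Type) [Field Ω] [IsAlgClosed Ω] (O : ValuationSubring Ω) (β : B →+* O), β t = 0 →
    jv D (Spec.map (CommRingCat.ofHom β) ≫ c) =
      G (PrimeSpectrum.comap β (closedPoint O)) - G (PrimeSpectrum.comap β (gen O))

variable {D t c G}

omit [IsNoetherianRing A] in
theorem Compat.jv_eq (hG : Compat D t c G) [IsOpenImmersion c] {Ω : Type} [Field Ω] [IsAlgClosed Ω]
    {O : ValuationSubring Ω} (θ : Spec (.of O) ⟶ X.obj.left) (p p' : PrimeSpectrum B)
    (hp : θ (closedPoint O) = c p) (hp' : θ (gen O) = c p') (ht : t ∈ p'.asIdeal) :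
    jv D θ = G p - G p' := by
  have h1 : Set.range θ ⊆ Set.range c :=
    range_subset_of_closedPoint θ c.opensRange ⟨p, hp.symm⟩
  obtain ⟨β, hβ⟩ : ∃ β : B →+* O, Spec.map (CommRingCat.ofHom β) ≫ c = θ :=
    ⟨(Spec.preimage (IsOpenImmersion.lift c θ h1)).hom, by
      rw [CommRingCat.ofHom_hom, Spec.map_preimage, IsOpenImmersion.lift_fac]⟩
  subst hβ
  have e1 : PrimeSpectrum.comap β (closedPoint O) = p := c.isOpenEmbedding.injective hp
  have e2 : PrimeSpectrum.comap β (gen O) = p' := c.isOpenEmbedding.injective hp'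
  rw [← e1, ← e2]
  rw [← e2] at ht
  exact hG Ω O β ht

theorem psi_comap {K Ω : Type} [Field K] [Field Ω] [IsAlgClosed Ω] (f : K →+* Ω) (χ : B →+* K)
    {O O' : ValuationSubring Ω} (h : O.comap f = O'.comap f) (β : B →+* O) (β' : B →+* O')
    (hβ : ∀ b, (β b : Ω) = f (χ b)) (hβ' : ∀ b, (β' b : Ω) = f (χ b)) :
    psi D c G β = psi D c G β' := by
  let βE : B →+* O.comap f := χ.codRestrict (O.comap f).toSubring fun b => by
    change f (χ b) ∈ O
    rw [← hβ]
    exact (β b).2
  have e1 : β = (restrictHom f rfl).comp βE := RingHom.ext fun b => Subtype.ext (hβ b)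
  have e2 : β' = (restrictHom f h.symm).comp βE := RingHom.ext fun b => Subtype.ext (hβ' b)
  have := restrictHom_local f (rfl : O.comap f = _)
  have := restrictHom_local f h.symm
  rw [psi, psi, e1, e2, PrimeSpectrum.comap_comp_apply, PrimeSpectrum.comap_comp_apply,
    comap_closedPoint (restrictHom f rfl), comap_closedPoint (restrictHom f h.symm),
    CommRingCat.ofHom_comp, CommRingCat.ofHom_comp,
    Spec.map_comp_assoc, Spec.map_comp_assoc,
    jv_amalg D _ _ (restrictHom_injective f rfl) (restrictHom_injective f h.symm)]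

theorem psi_le (hG : Compat D t c G) {Ω : Type} [Field Ω] [IsAlgClosed Ω]
    {O O' : ValuationSubring Ω} (h : O ≤ O') (β : B →+* O) (β' : B →+* O')
    (hβ : ∀ b, (β b : Ω) = β' b) (ht : β' t ∈ maximalIdeal O') :
    psi D c G β = psi D c G β' := by
  let ι : O →+* O' := ValuationSubring.inclusion O O' h
  have hι : Function.Injective ι := fun _ _ e =>
    Subtype.ext (congrArg (Subtype.val : O' → Ω) e)
  have e1 : β' = ι.comp β := RingHom.ext fun b => Subtype.ext (hβ b).symm
  subst e1
  obtain ⟨Ω'', _, _, O'', ω, h1, h2⟩ := exists_val_of_le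
    (PrimeSpectrum.comap ι (closedPoint O')) (closedPoint O) (le_maximalIdeal
      (PrimeSpectrum.comap ι (closedPoint O')).isPrime.ne_top)
  have z1 := jv_comp D ω (Spec.map (CommRingCat.ofHom β) ≫ c)
  have z2 := jv_comp D ι (Spec.map (CommRingCat.ofHom β) ≫ c)
  have z3 := hG Ω'' O'' (ω.comp β) (by
    have : β t ∈ (PrimeSpectrum.comap ω (gen O'')).asIdeal := by
      rw [h2]
      exact ht
    exact this)
  have z4 := jmp_add D (liftsAll_val O) (Spec.map (CommRingCat.ofHom β) ≫ c) (closedPoint O)
    (PrimeSpectrum.comap ι (closedPoint O')) (gen O)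
  rw [h1, h2] at z1
  rw [comap_gen _ hι] at z2
  rw [PrimeSpectrum.comap_comp_apply, PrimeSpectrum.comap_comp_apply, h1, h2,
    CommRingCat.ofHom_comp, Spec.map_comp_assoc, z1] at z3
  rw [psi, psi, CommRingCat.ofHom_comp, Spec.map_comp_assoc, z2, PrimeSpectrum.comap_comp_apply,
    jv, ← z4, z3]
  ring

theorem psi_ultra (hG : Compat D t c G) [IsOpenImmersion c] [X.obj.left.IsSeparated] [Algebra A B]
    (hc : c ≫ X.obj.hom = Spec.map (CommRingCat.ofHom (algebraMap A B)))
    {Ω J : Type} [Field Ω] [IsAlgClosed Ω] (O : J → ValuationSubring Ω) (U : Ultrafilter J)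
    (γ : B →+* Ω) (β : ∀ i, B →+* O i) (β' : B →+* ultraLim O U)
    (hβ : ∀ i b, (β i b : Ω) = γ b) (hβ' : ∀ b, (β' b : Ω) = γ b)
    (ht : β' t ∈ maximalIdeal (ultraLim O U)) :
    ∀ᶠ i in (U : Filter J), psi D c G (β i) = psi D c G β' := by
  obtain ⟨W, f, h, ψ, hg, e⟩ := exists_good_lift D (liftsAll_val (ultraLim O U))
    (Spec.map (CommRingCat.ofHom β') ≫ c)
  obtain ⟨Γ, _, j, μ, α, rfl, hj, hμ⟩ := exists_affine_factor W ψ
  have hαμ : α.comp μ = β'.comp (algebraMap A B) := by
    have : Spec.map (CommRingCat.ofHom (α.comp μ)) =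
        Spec.map (CommRingCat.ofHom (β'.comp (algebraMap A B))) := by
      rw [CommRingCat.ofHom_comp, CommRingCat.ofHom_comp, Spec.map_comp, Spec.map_comp, ← hj, ← hc,
        ← FT.w f, ← Category.assoc _ c, ← e]
      simp only [Category.assoc]
    exact congrArg CommRingCat.Hom.hom (Spec.map_inj.1 this)
  algebraize [μ]
  have : IsNoetherianRing Γ := Algebra.FiniteType.isNoetherianRing A Γ
  obtain ⟨s, hs⟩ := Algebra.FiniteType.out (R := A) (A := Γ)
  obtain ⟨s', hs'⟩ := IsNoetherian.noetherian (PrimeSpectrum.comap α (closedPoint _)).asIdeal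
  have ev1 : ∀ᶠ i in (U : Filter J), ∀ x ∈ s, (α x : Ω) ∈ O i :=
    (eventually_all_finset s).2 fun x _ => (α x).2
  have ev2 : ∀ᶠ i in (U : Filter J), ∀ x ∈ s', (α x : Ω) ∈ (O i).nonunits :=
    (eventually_all_finset s').2 fun x hx => by
      rw [← mem_nonunits_ultraLim, ValuationSubring.coe_mem_nonunits_iff]
      have : x ∈ (PrimeSpectrum.comap α (closedPoint _)).asIdeal := by
        rw [← hs']
        exact Submodule.subset_span hx
      exact this
  filter_upwards [ev1, ev2] with i h1 h2
  have hall : ∀ x, (α x : Ω) ∈ O i := by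
    intro x
    have hx : x ∈ Algebra.adjoin A (s : Set Γ) := by rw [hs]; trivial
    induction hx using Algebra.adjoin_induction with
    | mem x hx => exact h1 x hx
    | algebraMap a =>
      have : α (μ a) = β' (algebraMap A B a) := DFunLike.congr_fun hαμ a
      change (α (μ a) : Ω) ∈ O i
      rw [this, hβ', ← hβ i]
      exact (β i _).2
    | add x y _ _ hx hy => rw [map_add]; exact (O i).add_mem _ _ hx hy
    | mul x y _ _ hx hy => rw [map_mul]; exact (O i).mul_mem _ _ hx hy
  let αi : Γ →+* O i := ((ultraLim O U).subtype.comp α).codRestrict (O i).toSubring hall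
  have ei : (Spec.map (CommRingCat.ofHom αi) ≫ j) ≫ f.hom.left =
      Spec.map (CommRingCat.ofHom (β i)) ≫ c := by
    have := isDominant_val (O i)
    refine ext_of_isDominant (Spec.map (CommRingCat.ofHom (O i).subtype)) ?_
    have k1 : (O i).subtype.comp αi = (ultraLim O U).subtype.comp α := rfl
    have k2 : (O i).subtype.comp (β i) = (ultraLim O U).subtype.comp β' :=
      RingHom.ext fun b => (hβ i b).trans (hβ' b).symm
    rw [Category.assoc, ← Spec.map_comp_assoc, ← Spec.map_comp_assoc, ← CommRingCat.ofHom_comp,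
      ← CommRingCat.ofHom_comp, k1, k2, CommRingCat.ofHom_comp, CommRingCat.ofHom_comp,
      Spec.map_comp_assoc, Spec.map_comp_assoc, ← e, Category.assoc]
  have hle : PrimeSpectrum.comap α (closedPoint _) ≤ PrimeSpectrum.comap αi (closedPoint _) := by
    change (PrimeSpectrum.comap α (closedPoint _)).asIdeal ≤ _
    rw [← hs', Submodule.span_le]
    intro x hx
    exact ValuationSubring.coe_mem_nonunits_iff.1 (h2 x hx : ((αi x : O i) : Ω) ∈ _)
  have hgen : PrimeSpectrum.comap αi (gen _) = PrimeSpectrum.comap α (gen _) := by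
    ext x
    change αi x = 0 ↔ α x = 0
    rw [Subtype.ext_iff, Subtype.ext_iff]
    rfl
  obtain ⟨Ω'', _, _, O'', ω, k1, k2⟩ := exists_val_of_le _ _ hle
  have z1 := jmp_eq D (liftsAll_val (O i)) hg ei (closedPoint _) (gen _)
  have z2 := jmp_eq D (liftsAll_val (ultraLim O U)) hg e (closedPoint _) (gen _)
  have z3 := jmp_eq D (liftsAll_val O'') (ψ := Spec.map (CommRingCat.ofHom ω) ≫ j) hg rfl
    (closedPoint _) (gen _)
  have z4 := hG.jv_eq ((Spec.map (CommRingCat.ofHom ω) ≫ j) ≫ f.hom.left)
    (PrimeSpectrum.comap (β i) (closedPoint _)) (PrimeSpectrum.comap β' (closedPoint _)) (by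
      rw [← spec_map_apply, ← Scheme.Hom.comp_apply, ← ei]
      simp only [Scheme.Hom.comp_apply, spec_map_apply, k1]) (by
      rw [← spec_map_apply, ← Scheme.Hom.comp_apply, ← e]
      simp only [Scheme.Hom.comp_apply, spec_map_apply, k2]) ht
  simp only [Scheme.Hom.comp_apply, spec_map_apply] at z1 z2 z3
  rw [k1, k2] at z3
  rw [hgen] at z1
  rw [psi, psi, jv, jv, z1, z2]
  rw [jv, z3] at z4
  linear_combination z4

theorem psi_path (hG : Compat D t c G) [IsOpenImmersion c] [X.obj.left.IsSeparated] [Algebra A B]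
    (hc : c ≫ X.obj.hom = Spec.map (CommRingCat.ofHom (algebraMap A B)))
    {K Ω : Type} [Field K] [Field Ω] [IsAlgClosed Ω] (f : K →+* Ω) (χ : B →+* K)
    (val : I → Valuation K ℝ≥0) (ht : ∀ s, val s (χ t) < 1)
    (hcont : ∀ x, Continuous fun s => val s x)
    (O : I → ValuationSubring Ω) (hO : ∀ s, (O s).comap f = (val s).valuationSubring)
    (β : ∀ s, B →+* O s) (hβ : ∀ s b, (β s b : Ω) = f (χ b)) :
    psi D c G (β 0) = psi D c G (β 1) := by
  have hnu : ∀ (s : I) (O' : ValuationSubring Ω), O'.comap f = (val s).valuationSubring →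
      f (χ t) ∈ O'.nonunits := by
    intro s O' h
    rw [ValuationSubring.mem_nonunits_iff_or]
    by_cases h0 : χ t = 0
    · left
      rw [h0, map_zero]
    · right
      intro hm
      rw [← map_inv₀] at hm
      have : (χ t)⁻¹ ∈ (val s).valuationSubring := by
        rw [← h]
        exact hm
      rw [Valuation.mem_valuationSubring_iff, map_inv₀,
        inv_le_one₀ ((Valuation.pos_iff _).2 h0)] at this
      exact absurd (ht s) (not_lt.2 this)
  have hloc : IsLocallyConstant fun s => psi D c G (β s) := by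
    rw [IsLocallyConstant.iff_eventually_eq]
    intro s
    refine Filter.mem_iff_ultrafilter.2 fun U hU => ?_
    have hmem : ∀ b, f (χ b) ∈ ultraLim O U := fun b =>
      Eventually.of_forall fun i => by rw [← hβ i]; exact (β i b).2
    let β' : B →+* ultraLim O U := (f.comp χ).codRestrict (ultraLim O U).toSubring hmem
    have hle : (ultraLim O U).comap f ≤ (val s).valuationSubring := by
      intro x hx
      have hx' : ∀ᶠ i in (U : Filter I), f x ∈ O i := hx
      rw [Valuation.mem_valuationSubring_iff]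
      refine le_of_tendsto (((hcont x).tendsto s).mono_left hU) (hx'.mono fun i hi => ?_)
      rw [← Valuation.mem_valuationSubring_iff, ← hO]
      exact hi
    obtain ⟨O', hO', hO''⟩ := exists_ge_comap_eq f _ _ hle
    let β'' : B →+* O' := (f.comp χ).codRestrict O'.toSubring fun b => hO' (hmem b)
    have e1 : psi D c G β' = psi D c G β'' := psi_le hG hO' β' β'' (fun _ => rfl)
      (ValuationSubring.coe_mem_nonunits_iff.1 (hnu s O' hO''))
    have e2 : psi D c G β'' = psi D c G (β s) :=
      psi_comap f χ (hO''.trans (hO s).symm) β'' (β s) (fun _ => rfl) (hβ s)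
    have e3 := psi_ultra hG hc O U (f.comp χ) β β' hβ (fun _ => rfl)
      (ValuationSubring.coe_mem_nonunits_iff.1 ((mem_nonunits_ultraLim O U _).2
        (Eventually.of_forall fun i => hnu i (O i) (hO i))))
    rw [e1, e2] at e3
    exact e3
  exact hloc.apply_eq_of_preconnectedSpace 0 1

end Pool.Agent.P.MP_6277db_ag
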