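import Pool.Agent.P.MP_6277db_ag.Model

noncomputable section

open MvPolynomial IsLocalRing

namespace Pool.Agent.P.MP_6277db_ag

variable (k : Type) [Field k]

theorem bt_mem_nonZeroDivisors : bt k ∈ nonZeroDivisors (Bq k) := by
  rw [mem_nonZeroDivisors_iff_right]
  intro b hb
  obtain ⟨g, rfl⟩ := bmk_surjective k b
  rw [bt, algebraMap_Bq, ← map_mul, bmk_eq_zero] at hb
  obtain ⟨h, hh⟩ := hb
  have hC : ∀ q : MvPolynomial (Fin 2) (PowerSeries k), C PowerSeries.X ∣ q ↔
      MvPolynomial.map (PowerSeries.constantCoeff (R := k)) q = 0 := fun q =>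
    MvPolynomial.C_dvd_iff_map_hom_eq_zero _ _ (fun r => PowerSeries.X_dvd_iff.symm) q
  have h1 := congrArg (MvPolynomial.map (PowerSeries.constantCoeff (R := k))) hh
  have h2 : MvPolynomial.map (PowerSeries.constantCoeff (R := k)) h = 0 := by
    simp only [rel, map_mul, map_sub, map_C, map_X, PowerSeries.constantCoeff_X, map_zero,
      mul_zero, zero_mul, sub_zero] at h1
    have hX : (X 0 * X 1 : MvPolynomial (Fin 2) k) ≠ 0 := mul_ne_zero (X_ne_zero _) (X_ne_zero _)
    exact (mul_eq_zero.1 h1.symm).resolve_left hX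
  obtain ⟨h', rfl⟩ := (hC h).2 h2
  rw [bmk_eq_zero]
  refine ⟨h', ?_⟩
  have hne : (C PowerSeries.X : MvPolynomial (Fin 2) (PowerSeries k)) ≠ 0 := by
    rw [Ne, C_eq_zero]
    exact PowerSeries.X_ne_zero
  apply mul_right_cancel₀ hne
  rw [hh]
  ring

theorem flat_B : Module.Flat (PowerSeries k) (Bq k) := by
  refine (@Module.Flat.flat_iff_torsion_eq_bot_of_isBezout (PowerSeries k) (Bq k) _ _
    (@Algebra.toModule (PowerSeries k) (Bq k) _ _ (instAlgebraPowerSeriesBq k)) _ _).2 ?_
  rw [eq_bot_iff]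
  rintro b ⟨⟨a, ha⟩, hab⟩
  have ha0 : a ≠ 0 := nonZeroDivisors.ne_zero ha
  obtain ⟨n, c, rfl⟩ := IsDiscreteValuationRing.eq_unit_mul_pow_irreducible ha0
    (PowerSeries.X_irreducible (R := k))
  have h1 : algebraMap (PowerSeries k) (Bq k)
      ((c : PowerSeries k) * (PowerSeries.X : PowerSeries k) ^ n) * b = 0 := by
    rw [← Algebra.smul_def]
    exact hab
  rw [map_mul, map_pow, mul_assoc] at h1
  have h2 := ((c.isUnit.map (algebraMap (PowerSeries k) (Bq k))).mul_right_eq_zero).1 h1
  have h3 : bt k ^ n ∈ nonZeroDivisors (Bq k) := pow_mem (bt_mem_nonZeroDivisors k) n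
  exact (mem_nonZeroDivisors_iff_left.1 h3) b h2

/-- Induction principle for the chart ring. -/
theorem b_induction {p : Bq k → Prop} (hA : ∀ a, p (algebraMap (PowerSeries k) (Bq k) a))
    (hadd : ∀ b c, p b → p c → p (b + c)) (hu : ∀ b, p b → p (b * bu k))
    (hv : ∀ b, p b → p (b * bv k)) (b : Bq k) : p b := by
  obtain ⟨g, rfl⟩ := bmk_surjective k b
  induction g using MvPolynomial.induction_on with
  | C a => exact hA a
  | add f g hf hg => rw [map_add]; exact hadd _ _ hf hg
  | mul_X f i hf =>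
    rw [map_mul]
    fin_cases i
    · exact hu _ hf
    · exact hv _ hf

/-- The data shared by the two lines of the special fibre. -/
structure LineData (x y : Bq k) (e : Bq k →+* Polynomial k) : Prop where
  ind : ∀ p : Bq k → Prop, (∀ a, p (algebraMap (PowerSeries k) (Bq k) a)) →
    (∀ b c, p b → p c → p (b + c)) → (∀ b, p b → p (b * x)) → (∀ b, p b → p (b * y)) → ∀ b, p b
  hx : e x = 0
  hy : e y = Polynomial.X
  hA : ∀ a, e (algebraMap (PowerSeries k) (Bq k) a) = Polynomial.C (PowerSeries.constantCoeff a)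
  hrel : x * y = bt k * (1 + x ^ 3 + y ^ 3)

theorem lineU : LineData k (bu k) (bv k) (epsU k) where
  ind := fun _ hA hadd hu hv => b_induction k hA hadd hu hv
  hx := by simp [epsU]
  hy := by simp [epsU]
  hA := fun a => by simp [epsU]
  hrel := b_rel k

theorem lineV : LineData k (bv k) (bu k) (epsV k) where
  ind := fun _ hA hadd hv hu => b_induction k hA hadd hu hv
  hx := by simp [epsV]
  hy := by simp [epsV]
  hA := fun a => by simp [epsV]
  hrel := by rw [mul_comm, b_rel]; ring

variable {k}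

/-- Polynomials in one element of the chart ring. -/
def bsec (y : Bq k) : Polynomial k →+* Bq k :=
  Polynomial.eval₂RingHom ((algebraMap (PowerSeries k) (Bq k)).comp PowerSeries.C) y

namespace LineData

variable {x y : Bq k} {e : Bq k →+* Polynomial k}

theorem ht (h : LineData k x y e) : e (bt k) = 0 := by
  rw [bt, h.hA]
  simp

theorem e_bsec (h : LineData k x y e) (q : Polynomial k) : e (bsec y q) = q := by
  have : e.comp (bsec y) = RingHom.id _ := by
    refine Polynomial.ringHom_ext (fun a => ?_) ?_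
    · simp [bsec, h.hA]
    · simp [bsec, h.hy]
  exact DFunLike.congr_fun this q

theorem surj (h : LineData k x y e) : Function.Surjective e := fun q => ⟨_, h.e_bsec q⟩

theorem sub_mem (h : LineData k x y e) (b : Bq k) :
    b - bsec y (e b) ∈ Ideal.span {bt k, x} := by
  have hx : x ∈ Ideal.span {bt k, x} := Ideal.subset_span (by simp)
  have ht : bt k ∈ Ideal.span {bt k, x} := Ideal.subset_span (by simp)
  refine h.ind (fun b => b - bsec y (e b) ∈ Ideal.span {bt k, x}) (fun a => ?_)
    (fun b c hb hc => ?_) (fun b _ => ?_) (fun b hb => ?_) b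
  · obtain ⟨c, hc⟩ : PowerSeries.X ∣ a - PowerSeries.C (PowerSeries.constantCoeff a) := by
      rw [PowerSeries.X_dvd_iff]
      simp
    have h1 : bsec y (e (algebraMap (PowerSeries k) (Bq k) a)) =
        algebraMap (PowerSeries k) (Bq k) (PowerSeries.C (PowerSeries.constantCoeff a)) := by
      rw [h.hA]
      simp [bsec]
    rw [h1, ← map_sub, hc, map_mul]
    exact Ideal.mul_mem_right _ _ ht
  · have := add_mem hb hc
    rw [map_add, map_add]
    convert this using 1
    ring
  · rw [map_mul, h.hx, mul_zero, map_zero, sub_zero]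
    exact Ideal.mul_mem_left _ _ hx
  · have h1 : bsec y Polynomial.X = y := by simp [bsec]
    rw [map_mul, h.hy, map_mul, h1, ← sub_mul]
    exact Ideal.mul_mem_right _ _ hb

theorem ker_eq (h : LineData k x y e) : RingHom.ker e = Ideal.span {bt k, x} := by
  apply le_antisymm
  · intro b hb
    have := h.sub_mem b
    rwa [RingHom.mem_ker.1 hb, map_zero, sub_zero] at this
  · rw [Ideal.span_le]
    rintro z (rfl | rfl)
    · exact h.ht
    · exact h.hx

theorem dvr (h : LineData k x y e) (P : Ideal (Bq k)) [P.IsPrime] (hP : P = RingHom.ker e) :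
    ∃ _ : IsDomain (Localization.AtPrime P), IsDiscreteValuationRing (Localization.AtPrime P) := by
  set L := Localization.AtPrime P
  set φ := algebraMap (Bq k) L with hφ
  have hw : (1 + x ^ 3 + y ^ 3) ∈ P.primeCompl := by
    change ¬ _ ∈ P
    rw [hP, RingHom.mem_ker]
    simp only [map_add, map_pow, map_one, h.hx, h.hy]
    intro h0
    have := congrArg (Polynomial.eval 0) h0
    simp at this
  have hwu : IsUnit (φ (1 + x ^ 3 + y ^ 3)) := IsLocalization.map_units L ⟨_, hw⟩
  have hrel : φ x * φ y = φ (bt k) * φ (1 + x ^ 3 + y ^ 3) := by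
    rw [← map_mul, ← map_mul, h.hrel]
  have htreg : φ (bt k) ∈ nonZeroDivisors L :=
    IsLocalization.nonZeroDivisors_le_comap P.primeCompl L (bt_mem_nonZeroDivisors k)
  have hxreg : φ x ∈ nonZeroDivisors L := by
    have : φ x * φ y ∈ nonZeroDivisors L := by
      rw [hrel]
      exact mul_mem htreg hwu.mem_nonZeroDivisors
    exact (mul_mem_nonZeroDivisors.1 this).1
  have hm : maximalIdeal L = Ideal.span {φ x} := by
    have hP' : Ideal.map φ P = Ideal.map φ (Ideal.span {bt k, x}) :=
      congrArg (Ideal.map φ) (hP.trans h.ker_eq)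
    rw [← Localization.AtPrime.map_eq_maximalIdeal, hP', Ideal.map_span]
    apply le_antisymm
    · rw [Ideal.span_le]
      rintro z ⟨z, rfl | rfl, rfl⟩
      · obtain ⟨w, hw⟩ := hwu
        refine Ideal.mem_span_singleton.2 ⟨φ y * ↑w⁻¹, ?_⟩
        rw [← mul_assoc, hrel, ← hw, mul_assoc, Units.mul_inv, mul_one]
      · exact Ideal.subset_span rfl
    · exact Ideal.span_mono (by rintro z rfl; exact ⟨x, by simp, rfl⟩)
  have hfac : ∀ a : L, a ≠ 0 → ∃ (n : ℕ) (c : L), IsUnit c ∧ a = φ x ^ n * c := by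
    intro a ha
    have hex : ∃ n : ℕ, ¬ φ x ^ (n + 1) ∣ a := by
      by_contra hcon
      push Not at hcon
      apply ha
      have hbot := Ideal.iInf_pow_eq_bot_of_isLocalRing (maximalIdeal L)
        (maximalIdeal.isMaximal L).ne_top
      rw [← Ideal.mem_bot, ← hbot, Ideal.mem_iInf]
      intro n
      rw [hm, Ideal.span_singleton_pow, Ideal.mem_span_singleton]
      exact (pow_dvd_pow _ (Nat.le_succ n)).trans (hcon n)
    classical
    have hn := Nat.find_spec hex
    have hd : φ x ^ Nat.find hex ∣ a := by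
      rcases Nat.eq_zero_or_pos (Nat.find hex) with h0 | h0
      · rw [h0, pow_zero]
        exact one_dvd _
      · have := Nat.find_min hex (Nat.sub_lt h0 one_pos)
        rwa [not_not, Nat.sub_one_add_one h0.ne'] at this
    obtain ⟨c, hc⟩ := hd
    refine ⟨_, c, ?_, hc⟩
    by_contra hcu
    have : c ∈ maximalIdeal L := hcu
    rw [hm, Ideal.mem_span_singleton] at this
    obtain ⟨d, rfl⟩ := this
    exact hn ⟨d, by rw [pow_succ, mul_assoc]; exact hc⟩
  have : NoZeroDivisors L := ⟨fun {a b} hab => by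
    by_contra hcon
    push Not at hcon
    obtain ⟨n, c, hc, rfl⟩ := hfac a hcon.1
    have h1 : φ x ^ n * c ∈ nonZeroDivisors L := mul_mem (pow_mem hxreg n) hc.mem_nonZeroDivisors
    exact hcon.2 ((mem_nonZeroDivisors_iff_left.1 h1) b hab)⟩
  have hdom : IsDomain L := NoZeroDivisors.to_isDomain L
  refine ⟨hdom, ?_⟩
  have hnf : ¬ IsField L := by
    rw [isField_iff_maximalIdeal_eq, hm, Ideal.span_singleton_eq_bot]
    exact nonZeroDivisors.ne_zero hxreg
  have hpr : (maximalIdeal L).IsPrincipal := ⟨⟨φ x, hm⟩⟩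
  exact ((IsDiscreteValuationRing.TFAE L hnf).out 0 4).2 hpr

theorem eq_or_max (h : LineData k x y e) (q : Ideal (Bq k)) [q.IsPrime]
    (hq : RingHom.ker e ≤ q) : q = RingHom.ker e ∨ q.IsMaximal := by
  have hp : (q.map e).IsPrime := Ideal.map_isPrime_of_surjective h.surj hq
  have hc : (q.map e).comap e = q := by
    rw [Ideal.comap_map_of_surjective e h.surj, sup_eq_left]
    exact hq
  by_cases h0 : q.map e = ⊥
  · left
    rw [← hc, h0]
    rfl
  · right
    have := IsPrime.to_maximal_ideal h0
    rw [← hc]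
    exact Ideal.comap_isMaximal_of_surjective e h.surj

end LineData

variable (k)

theorem epsU_surjective : Function.Surjective (epsU k) := (lineU k).surj

theorem epsV_surjective : Function.Surjective (epsV k) := (lineV k).surj

theorem PU_eq : (PU k).asIdeal = Ideal.span {bt k, bu k} := (lineU k).ker_eq

theorem PV_eq : (PV k).asIdeal = Ideal.span {bt k, bv k} := (lineV k).ker_eq

theorem PU_inf_PV : (PU k).asIdeal ⊓ (PV k).asIdeal = Ideal.span {bt k} := by
  apply le_antisymm
  · rintro b ⟨hU, hV⟩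
    rw [PU_eq] at hU
    obtain ⟨a, c, rfl⟩ := Ideal.mem_span_pair.1 hU
    have h1 : epsV k (a * bt k + c * bu k) = 0 := hV
    rw [map_add, map_mul, map_mul, (lineV k).ht, (lineV k).hy, mul_zero, zero_add] at h1
    have h2 : c ∈ (PV k).asIdeal := (mul_eq_zero.1 h1).resolve_right Polynomial.X_ne_zero
    rw [PV_eq] at h2
    obtain ⟨d, f, rfl⟩ := Ideal.mem_span_pair.1 h2
    refine Ideal.mem_span_singleton.2
      ⟨a + d * bu k + f * (1 + bu k ^ 3 + bv k ^ 3), ?_⟩
    linear_combination f * b_rel k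
  · rw [Ideal.span_le]
    rintro z rfl
    exact ⟨(lineU k).ht, (lineV k).ht⟩

theorem dvr_PU : ∃ _ : IsDomain (Localization.AtPrime (PU k).asIdeal),
    IsDiscreteValuationRing (Localization.AtPrime (PU k).asIdeal) :=
  (lineU k).dvr _ rfl

theorem dvr_PV : ∃ _ : IsDomain (Localization.AtPrime (PV k).asIdeal),
    IsDiscreteValuationRing (Localization.AtPrime (PV k).asIdeal) :=
  (lineV k).dvr _ rfl

theorem le_of_bt_mem (q : Ideal (Bq k)) [hq : q.IsPrime] (ht : bt k ∈ q) :
    RingHom.ker (epsU k) ≤ q ∨ RingHom.ker (epsV k) ≤ q := by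
  have h1 : bu k * bv k ∈ q := by
    rw [b_rel]
    exact Ideal.mul_mem_right _ _ ht
  rw [(lineU k).ker_eq, (lineV k).ker_eq, Ideal.span_le, Ideal.span_le]
  rcases hq.mem_or_mem h1 with h | h
  · left
    rintro z (rfl | rfl)
    exacts [ht, h]
  · right
    rintro z (rfl | rfl)
    exacts [ht, h]

theorem dim_quot : ringKrullDim (Bq k ⧸ Ideal.span {bt k}) = 1 := by
  apply le_antisymm
  · rw [ringKrullDim_quotient, Order.krullDim_le_one_iff]
    rintro ⟨q, hq⟩
    have hmem : ∀ r : PrimeSpectrum (Bq k),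
        r ∈ PrimeSpectrum.zeroLocus (Ideal.span {bt k} : Set (Bq k)) → bt k ∈ r.asIdeal :=
      fun r hr => hr (Ideal.subset_span rfl)
    have hmax : q.asIdeal.IsMaximal → IsMax (⟨q, hq⟩ :
        PrimeSpectrum.zeroLocus (Ideal.span {bt k} : Set (Bq k))) := by
      rintro hm ⟨r, hr⟩ hle
      exact (hm.eq_of_le r.isPrime.ne_top hle).ge
    have hUV : ¬ RingHom.ker (epsU k) ≤ RingHom.ker (epsV k) := fun hle => by
      have : epsV k (bu k) = 0 := hle (lineU k).hx
      rw [(lineV k).hy] at this
      exact Polynomial.X_ne_zero this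
    have hVU : ¬ RingHom.ker (epsV k) ≤ RingHom.ker (epsU k) := fun hle => by
      have : epsU k (bv k) = 0 := hle (lineV k).hx
      rw [(lineU k).hy] at this
      exact Polynomial.X_ne_zero this
    rcases le_of_bt_mem k q.asIdeal (hmem q hq) with hle | hle
    · rcases (lineU k).eq_or_max q.asIdeal hle with he | he
      · left
        rintro ⟨r, hr⟩ hrq
        have hrq' : r.asIdeal ≤ q.asIdeal := hrq
        change q.asIdeal ≤ r.asIdeal
        rw [he] at hrq' ⊢
        exact (le_of_bt_mem k r.asIdeal (hmem r hr)).resolve_right fun h => hVU (h.trans hrq')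
      · exact Or.inr (hmax he)
    · rcases (lineV k).eq_or_max q.asIdeal hle with he | he
      · left
        rintro ⟨r, hr⟩ hrq
        have hrq' : r.asIdeal ≤ q.asIdeal := hrq
        change q.asIdeal ≤ r.asIdeal
        rw [he] at hrq' ⊢
        exact (le_of_bt_mem k r.asIdeal (hmem r hr)).resolve_left fun h => hUV (h.trans hrq')
      · exact Or.inr (hmax he)
  · have hk : ∀ a ∈ Ideal.span {bt k}, epsU k a = 0 := by
      intro a ha
      obtain ⟨c, rfl⟩ := Ideal.mem_span_singleton'.1 ha
      rw [map_mul, (lineU k).ht, mul_zero]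
    have hs : Function.Surjective (Ideal.Quotient.lift (Ideal.span {bt k}) (epsU k) hk) :=
      Ideal.Quotient.lift_surjective_of_surjective _ hk (epsU_surjective k)
    have h1 := ringKrullDim_le_of_surjective _ hs
    rwa [IsPrincipalIdealRing.ringKrullDim_eq_one _ (Polynomial.not_isField k)] at h1

end Pool.Agent.P.MP_6277db_ag
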