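import Pool.Agent.P.MP_6277db_ag.Lift

/-!
Elementwise calculus for abelian cdh sheaves.
-/

noncomputable section

open CategoryTheory AlgebraicGeometry Limits Opposite

namespace Pool.Agent.P.MP_6277db_ag

variable {S : Scheme.{0}}

/-- Abelian cdh sheaves. -/
abbrev Sh (S : Scheme.{0}) := Sheaf (cdh S) AddCommGrpCat.{1}

/-- Sections. -/
abbrev Sec (F : Sh S) (U : FT S) : Type 1 := F.obj.obj (op U)

/-- Restriction of sections. -/
def res (F : Sh S) {U V : FT S} (f : V ⟶ U) : Sec F U →+ Sec F V := (F.obj.map f.op).hom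

/-- A morphism of sheaves on sections. -/
def ap {F G : Sh S} (φ : F ⟶ G) (U : FT S) : Sec F U →+ Sec G U := (φ.hom.app (op U)).hom

theorem res_comp (F : Sh S) {U V W : FT S} (f : V ⟶ U) (g : W ⟶ V) (x : Sec F U) :
    res F (g ≫ f) x = res F g (res F f x) := by
  simp [res]

theorem res_id (F : Sh S) {U : FT S} (x : Sec F U) : res F (𝟙 U) x = x := by
  simp [res]

theorem ap_res {F G : Sh S} (φ : F ⟶ G) {U V : FT S} (f : V ⟶ U) (x : Sec F U) :
    ap φ V (res F f x) = res G f (ap φ U x) :=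
  NatTrans.naturality_apply φ.hom f.op x

theorem ap_comp {F G H : Sh S} (φ : F ⟶ G) (ψ : G ⟶ H) (U : FT S) (x : Sec F U) :
    ap (φ ≫ ψ) U x = ap ψ U (ap φ U x) := rfl

theorem ap_zero {F G : Sh S} (U : FT S) (x : Sec F U) : ap (0 : F ⟶ G) U x = 0 := rfl

theorem isSheaf_type (F : Sh S) : Presieve.IsSheaf (cdh S) (F.obj ⋙ forget AddCommGrpCat.{1}) := by
  rw [← isSheaf_iff_isSheaf_of_type]
  exact (Presheaf.isSheaf_iff_isSheaf_forget (cdh S) F.obj (forget AddCommGrpCat.{1})).1 F.property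

theorem sec_ext (F : Sh S) {U : FT S} {R : Sieve U} (hR : R ∈ cdh S U) {x y : Sec F U}
    (h : ∀ (V : FT S) (f : V ⟶ U), R f → res F f x = res F f y) : x = y :=
  (isSheaf_type F R hR).isSeparatedFor.ext fun V f hf => h V f hf

theorem sec_glue (F : Sh S) {U : FT S} {R : Sieve U} (hR : R ∈ cdh S U)
    (x : ∀ (V : FT S) (f : V ⟶ U), R f → Sec F V)
    (hx : ∀ (V W : FT S) (f : V ⟶ U) (g : W ⟶ V) (hf : R f),
      x W (g ≫ f) (R.downward_closed hf g) = res F g (x V f hf)) :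
    ∃ t : Sec F U, ∀ (V : FT S) (f : V ⟶ U) (hf : R f), res F f t = x V f hf := by
  obtain ⟨t, ht, -⟩ := isSheaf_type F R hR (fun V f hf => x V f hf)
    ((Presieve.compatible_iff_sieveCompatible _).2 fun V W f g hf => hx V W f g hf)
  exact ⟨t, fun V f hf => ht f hf⟩

theorem sec_glue_arrows (F : Sh S) {U : FT S} {I : Type} (W : I → FT S) (c : ∀ i, W i ⟶ U)
    (hR : Sieve.generate (Presieve.ofArrows W c) ∈ cdh S U) (x : ∀ i, Sec F (W i))
    (hx : ∀ i j (Z : FT S) (gi : Z ⟶ W i) (gj : Z ⟶ W j), gi ≫ c i = gj ≫ c j →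
      res F gi (x i) = res F gj (x j)) :
    ∃ t : Sec F U, ∀ i, res F (c i) t = x i := by
  have h := (Presieve.isSheafFor_iff_generate _).2 (isSheaf_type F _ hR)
  obtain ⟨t, ht, -⟩ := (Presieve.isSheafFor_arrows_iff _ _).1 h x hx
  exact ⟨t, ht⟩

theorem ap_injective {F G : Sh S} (φ : F ⟶ G) [Mono φ] (U : FT S) :
    Function.Injective (ap φ U) :=
  (AddCommGrpCat.mono_iff_injective (φ.hom.app (op U))).1 inferInstance

theorem imageSieve_mem_of_epi {F G : Sh S} (φ : F ⟶ G) [Epi φ] {U : FT S} (x : Sec G U) :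
    ∃ R ∈ cdh S U, ∀ (V : FT S) (f : V ⟶ U), R f ↔ ∃ y, ap φ V y = res G f x := by
  have : Sheaf.IsLocallySurjective φ := (Sheaf.isLocallySurjective_iff_epi' _ φ).2 inferInstance
  exact ⟨Presheaf.imageSieve φ.hom x, Presheaf.imageSieve_mem _ φ.hom x, fun _ _ => Iff.rfl⟩

/-- The adjunction defining free sheaves. -/
def freeAdj (S : Scheme.{0}) :
    (Functor.whiskeringRight (FT S)ᵒᵖ _ _).obj AddCommGrpCat.free.{1} ⋙
      presheafToSheaf (cdh S) AddCommGrpCat.{1} ⊣ sheafToPresheaf (cdh S) AddCommGrpCat.{1} ⋙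
        (Functor.whiskeringRight (FT S)ᵒᵖ _ _).obj (forget AddCommGrpCat.{1}) :=
  (AddCommGrpCat.adj.whiskerRight (FT S)ᵒᵖ).comp
    (sheafificationAdjunction (cdh S) AddCommGrpCat.{1})

/-- Morphisms out of the free sheaf on `U` are sections over `U`. -/
def ev (U : FT S) (F : Sh S) : ((freeSheaf S).obj U ⟶ F) ≃ Sec F U :=
  ((freeAdj S).homEquiv (uliftYoneda.{1}.obj U) F).trans uliftYonedaEquiv.{1}

theorem ev_comp {U : FT S} {F G : Sh S} (a : (freeSheaf S).obj U ⟶ F) (φ : F ⟶ G) :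
    ev U G (a ≫ φ) = ap φ U (ev U F a) :=
  congrArg uliftYonedaEquiv.{1}
    ((freeAdj S).homEquiv_naturality_right (X := uliftYoneda.{1}.obj U) a φ)

theorem ev_map {U V : FT S} {F : Sh S} (f : V ⟶ U) (a : (freeSheaf S).obj U ⟶ F) :
    ev V F ((freeSheaf S).map f ≫ a) = res F f (ev U F a) :=
  (congrArg uliftYonedaEquiv.{1}
    ((freeAdj S).homEquiv_naturality_left (uliftYoneda.{1}.map f) a)).trans
    (uliftYonedaEquiv_naturality.{1} (X := op U) (Y := op V) _ f.op).symm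

theorem sec_exact {T : ShortComplex (Sh S)} (hT : T.ShortExact) (U : FT S) (x : Sec T.X₂ U)
    (hx : ap T.g U x = 0) : ∃ y, ap T.f U y = x := by
  obtain ⟨a, rfl⟩ := (ev U T.X₂).surjective x
  have h0 : a ≫ T.g = 0 := by
    apply (ev U T.X₃).injective
    rw [ev_comp, hx, ← comp_zero (f := a), ev_comp, ap_zero]
  have := hT.mono_f
  exact ⟨ev U _ (hT.exact.lift a h0), by rw [← ev_comp, hT.exact.lift_f]⟩

end Pool.Agent.P.MP_6277db_ag
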