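import Pool.Agent.P.MP_6277db_ag.SiteA

/-!
The sheaf of all functions on the underlying set of points, an acyclic sheaf containing the
constant sheaf.
-/

noncomputable section

open CategoryTheory AlgebraicGeometry Limits Opposite IsLocalRing

namespace Pool.Agent.P.MP_6277db_ag

variable {S : Scheme.{0}}

theorem exists_point [IsLocallyNoetherian S] {U : FT S} {R : Sieve U} (hR : R ∈ cdh S U)
    (x : U.obj.left) : ∃ (V : FT S) (f : V ⟶ U) (y : V.obj.left), R f ∧ f.hom.left y = x := by
  obtain ⟨V, f, ψ, hf, e⟩ := lifts_field (U.obj.left.residueField x) hR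
    (U.obj.left.fromSpecResidueField x)
  refine ⟨V, f, ψ (closedPoint _), hf, ?_⟩
  rw [← Scheme.Hom.comp_apply, e]
  exact Scheme.fromSpecResidueField_apply _ _

/-- The presheaf of all functions on points. -/
def funP (S : Scheme.{0}) (L : Type 1) [AddCommGroup L] : (FT S)ᵒᵖ ⥤ AddCommGrpCat.{1} where
  obj U := AddCommGrpCat.of (U.unop.obj.left → L)
  map f := AddCommGrpCat.ofHom
    (AddMonoidHom.mk' (fun h y => h (f.unop.hom.left y)) fun _ _ => rfl)

theorem funP_isSheaf [IsLocallyNoetherian S] (L : Type 1) [AddCommGroup L] :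
    Presheaf.IsSheaf (cdh S) (funP S L) := by
  rw [Presheaf.isSheaf_iff_isSheaf_forget (cdh S) _ (forget AddCommGrpCat.{1}),
    isSheaf_iff_isSheaf_of_type]
  intro U R hR x hx
  choose V f y hf hy using exists_point hR
  have key : ∀ (W : FT S) (g : W ⟶ U) (hg : R g) (w : W.obj.left),
      x (f (g.hom.left w)) (hf _) (y _) = x g hg w := by
    intro W g hg w
    obtain ⟨T, a, b, e, hT⟩ := exists_pullback (f (g.hom.left w)) g
    obtain ⟨τ, h1, h2⟩ := Scheme.exists_preimage_of_isPullback hT (y _) w (hy _)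
    have := congrFun (hx a b (hf _) hg e) τ
    change x (f (g.hom.left w)) (hf _) (a.hom.left τ) = x g hg (b.hom.left τ) at this
    rw [← h1, this]
    exact congrArg _ h2
  refine ⟨fun u => x (f u) (hf u) (y u), fun W g hg => funext fun w => key W g hg w, ?_⟩
  intro t ht
  funext u
  have := congrFun (ht (f u) (hf u)) (y u)
  change t ((f u).hom.left (y u)) = _ at this
  rw [← this, hy]

/-- The sheaf of all functions on points. -/
def funS (S : Scheme.{0}) [IsLocallyNoetherian S] (L : Type 1) [AddCommGroup L] : Sh S :=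
  ⟨funP S L, funP_isSheaf L⟩

variable [IsLocallyNoetherian S]

/-- A function as a section. -/
def toS {L : Type 1} [AddCommGroup L] {U : FT S} (h : U.obj.left → L) : Sec (funS S L) U := h

/-- A section as a function. -/
def ofS {L : Type 1} [AddCommGroup L] {U : FT S} (h : Sec (funS S L) U) : U.obj.left → L := h

theorem ofS_res {L : Type 1} [AddCommGroup L] {U V : FT S} (f : V ⟶ U) (h : Sec (funS S L) U)
    (y : V.obj.left) : ofS (res _ f h) y = ofS h (f.hom.left y) := rfl

theorem ofS_sub {L : Type 1} [AddCommGroup L] {U : FT S} (h h' : Sec (funS S L) U)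
    (y : U.obj.left) : ofS (h - h') y = ofS h y - ofS h' y := rfl

theorem ofS_ext {L : Type 1} [AddCommGroup L] {U : FT S} {h h' : Sec (funS S L) U}
    (e : ∀ y, ofS h y = ofS h' y) : h = h' := funext e

theorem spec_field_point {K : Type} [Field K] (p : Spec (.of K)) : p = closedPoint K :=
  Subsingleton.elim (α := PrimeSpectrum K) _ _

/-- Extensions by the sheaf of functions are exact on sections. -/
theorem sec_surjective {L : Type 1} [AddCommGroup L] {E C : Sh S} (i : funS S L ⟶ E) (p : E ⟶ C)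
    (w : i ≫ p = 0) (hT : (ShortComplex.mk i p w).ShortExact) (X : FT S) (c : Sec C X) :
    ∃ e, ap p X e = c := by
  have hi : Mono i := hT.mono_f
  have hp : Epi p := hT.epi_g
  have hex : ∀ (U : FT S) (x : Sec E U), ap p U x = 0 → ∃ y, ap i U y = x :=
    fun U x hx => sec_exact hT U x hx
  have hip : ∀ (U : FT S) (y), ap p U (ap i U y) = 0 := fun U y => by
    rw [← ap_comp, w, ap_zero]
  obtain ⟨R, hR, hRi⟩ := imageSieve_mem_of_epi p c
  have h1 : ∀ x : X.obj.left, ∃ (U : FT S) (f : U ⟶ X)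
      (σ : Spec (X.obj.left.residueField x) ⟶ U.obj.left) (e : Sec E U),
      σ ≫ f.hom.left = X.obj.left.fromSpecResidueField x ∧ ap p U e = res C f c := by
    intro x
    obtain ⟨U, f, σ, hf, e⟩ := lifts_field (X.obj.left.residueField x) hR
      (X.obj.left.fromSpecResidueField x)
    obtain ⟨y, hy⟩ := (hRi U f).1 hf
    exact ⟨U, f, σ, y, e, hy⟩
  choose U f σ e hσ he using h1
  let Nm : ∀ (V : FT S) (g : V ⟶ X), Sec E V → Prop := fun V g s =>
    ap p V s = res C g c ∧ ∀ (x : X.obj.left) (T : FT S) (a : T ⟶ V) (b : T ⟶ U x)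
      (γ : Sec (funS S L) T) (K : Type) (_ : Field K) (φ : Spec (.of K) ⟶ T.obj.left)
      (χ : Spec (.of K) ⟶ Spec (X.obj.left.residueField x)),
      a ≫ g = b ≫ f x → φ ≫ b.hom.left = χ ≫ σ x → ap i T γ = res E a s - res E b (e x) →
        ofS γ (φ (closedPoint K)) = 0
  have hpull : ∀ (V W : FT S) (g : V ⟶ X) (l : W ⟶ V) (s : Sec E V), Nm V g s →
      Nm W (l ≫ g) (res E l s) := by
    rintro V W g l s ⟨h1, h2⟩
    refine ⟨by rw [ap_res, h1, res_comp], ?_⟩
    intro x T a b γ K _ φ χ w1 w2 hγ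
    exact h2 x T (a ≫ l) b γ K _ φ χ (by rw [Category.assoc, w1]) w2 (by rw [hγ, res_comp])
  have hdiff : ∀ (V : FT S) (g : V ⟶ X) (s : Sec E V), ap p V s = res C g c →
      ∀ (x : X.obj.left) (T : FT S) (a : T ⟶ V) (b : T ⟶ U x), a ≫ g = b ≫ f x →
      ∃ γ, ap i T γ = res E a s - res E b (e x) := by
    intro V g s hs x T a b w1
    apply hex
    rw [map_sub, ap_res, ap_res, hs, he, ← res_comp, ← res_comp, w1, sub_self]
  have hsq : ∀ (V : FT S) (g : V ⟶ X) (v : V.obj.left),
      V.obj.left.fromSpecResidueField v ≫ g.hom.left =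
        (Spec.map (g.hom.left.residueFieldMap v) ≫ σ (g.hom.left v)) ≫ (f _).hom.left := by
    intro V g v
    rw [Category.assoc, hσ, Scheme.Hom.SpecMap_residueFieldMap_fromSpecResidueField]
  have huniq : ∀ (V : FT S) (g : V ⟶ X) (s s' : Sec E V), Nm V g s → Nm V g s' → s = s' := by
    rintro V g s s' ⟨h1, h2⟩ ⟨h1', h2'⟩
    obtain ⟨γ0, hγ0⟩ := hex V (s - s') (by rw [map_sub, h1, h1', sub_self])
    suffices h : γ0 = 0 by rw [← sub_eq_zero, ← hγ0, h, map_zero]
    refine ofS_ext fun v => ?_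
    obtain ⟨T, a, b, w1, hT'⟩ := exists_pullback g (f (g.hom.left v))
    obtain ⟨γ, hγ⟩ := hdiff V g s h1 _ T a b w1
    obtain ⟨γ', hγ'⟩ := hdiff V g s' h1' _ T a b w1
    have z1 := h2 _ T a b γ (V.obj.left.residueField v) inferInstance
      (hT'.lift _ _ (hsq V g v)) _ w1 (hT'.lift_snd _ _ _) hγ
    have z2 := h2' _ T a b γ' (V.obj.left.residueField v) inferInstance
      (hT'.lift _ _ (hsq V g v)) _ w1 (hT'.lift_snd _ _ _) hγ'
    have z3 : γ - γ' = res _ a γ0 := by
      apply ap_injective i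
      rw [map_sub, hγ, hγ', ap_res, hγ0, map_sub]
      abel
    have z4 := congrArg (fun s => ofS s (hT'.lift _ _ (hsq V g v) (closedPoint _))) z3
    simp only [ofS_sub, ofS_res] at z4
    rw [z1, z2, sub_self, ← Scheme.Hom.comp_apply, hT'.lift_fst] at z4
    rw [Scheme.fromSpecResidueField_apply] at z4
    exact z4.symm
  have hexist : ∀ (V : FT S) (g : V ⟶ X), R g → ∃ s, Nm V g s := by
    intro V g hg
    obtain ⟨s, hs⟩ := (hRi V g).1 hg
    choose T a b w1 hT' using fun x => exists_pullback g (f x)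
    choose γ hγ using fun x => hdiff V g s hs x (T x) (a x) (b x) (w1 x)
    let δ : Sec (funS S L) V := toS fun v =>
      ofS (γ (g.hom.left v)) ((hT' _).lift _ _ (hsq V g v) (closedPoint _))
    refine ⟨s - ap i V δ, by rw [map_sub, hip, hs, sub_zero], ?_⟩
    intro x T' a' b' γ' K _ φ χ w1' w2' hγ'
    obtain ⟨⟨v, ω⟩, hω⟩ := (Scheme.SpecToEquivOfField K V.obj.left).symm.surjective
      (φ ≫ a'.hom.left)
    have hω' : Spec.map ω ≫ V.obj.left.fromSpecResidueField v = φ ≫ a'.hom.left := hω
    have hv : a'.hom.left (φ (closedPoint K)) = v := by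
      rw [← Scheme.Hom.comp_apply, ← hω']
      simp
    have hc : φ ≫ a'.hom.left ≫ g.hom.left = χ ≫ X.obj.left.fromSpecResidueField x := by
      rw [← FT.comp_left, w1', FT.comp_left, ← Category.assoc, w2', Category.assoc, hσ]
    have hx : g.hom.left v = x := by
      rw [← hv, ← Scheme.Hom.comp_apply, ← Scheme.Hom.comp_apply, hc]
      simp
    subst hx
    obtain ⟨l, hl1, hl2⟩ := exists_lift_FT (hT' (g.hom.left v)) a' b' w1'
    have z3 : γ' = res _ l (γ _) - res _ a' δ := by
      apply ap_injective i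
      rw [hγ', map_sub, map_sub, ap_res, ap_res, hγ, map_sub, ← res_comp, ← res_comp, hl1, hl2]
      abel
    have hχ : χ = Spec.map ω ≫ Spec.map (g.hom.left.residueFieldMap v) := by
      rw [← cancel_mono (X.obj.left.fromSpecResidueField _), ← hc, Category.assoc,
        Scheme.Hom.SpecMap_residueFieldMap_fromSpecResidueField, reassoc_of% hω']
    have z4 : φ ≫ l.hom.left = Spec.map ω ≫ (hT' _).lift _ _ (hsq V g v) := by
      apply (hT' _).hom_ext
      · rw [Category.assoc, Category.assoc, ← FT.comp_left, hl1, (hT' _).lift_fst, hω']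
      · rw [Category.assoc, Category.assoc, ← FT.comp_left, hl2, (hT' _).lift_snd, w2', hχ,
          Category.assoc]
    rw [z3, ofS_sub, ofS_res, ofS_res, hv, ← Scheme.Hom.comp_apply, z4, Scheme.Hom.comp_apply,
      spec_field_point (K := V.obj.left.residueField v) (Spec.map ω _)]
    exact sub_self _
  choose s hs using hexist
  obtain ⟨t, ht⟩ := sec_glue E hR s fun V W g l hg =>
    huniq _ _ _ _ (hs _ _ _) (hpull _ _ _ _ _ (hs _ _ hg))
  refine ⟨t, sec_ext C hR fun V g hg => ?_⟩
  rw [← ap_res, ht V g hg, (hs V g hg).1]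

end Pool.Agent.P.MP_6277db_ag
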