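import Pool.Agent.P.MP_6277db_ag.SiteB

/-!
From surjectivity of the restriction map on `H¹` to a class of local functions on a cdh cover.
-/

noncomputable section

open CategoryTheory AlgebraicGeometry Limits Opposite IsLocalRing Abelian

namespace Pool.Agent.P.MP_6277db_ag

variable {S : Scheme.{0}} [IsLocallyNoetherian S]

omit [IsLocallyNoetherian S] in
theorem generate_mem_cdh {U : FT S} {R : Presieve U} (h : IsNisnevichCover R) :
    Sieve.generate R ∈ cdh S U :=
  Precoverage.generate_mem_toGrothendieck (Or.inl h)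

/-- Constant functions, on presheaves. -/
def constP (S : Scheme.{0}) [IsLocallyNoetherian S] (m : ℕ) :
    (Functor.const (FT S)ᵒᵖ).obj (AddCommGrpCat.of (ULift.{1} (ZMod m))) ⟶
      (funS S (ULift.{1} (ZMod m))).obj where
  app U := AddCommGrpCat.ofHom (AddMonoidHom.mk' (fun a _ => a) fun _ _ => rfl)

/-- Constant functions, on sheaves. -/
def constι (S : Scheme.{0}) [IsLocallyNoetherian S] (m : ℕ) :
    constSheaf S m ⟶ funS S (ULift.{1} (ZMod m)) :=
  ((sheafificationAdjunction (cdh S) AddCommGrpCat.{1}).homEquiv _ _).symm (constP S m)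

theorem toSheafify_constι (m : ℕ) :
    toSheafify (cdh S) _ ≫ (constι S m).hom = constP S m :=
  ((sheafificationAdjunction (cdh S) AddCommGrpCat.{1}).homEquiv_unit _ _ _).symm.trans
    (((sheafificationAdjunction (cdh S) AddCommGrpCat.{1}).homEquiv _ _).apply_symm_apply _)

/-- The constant section with value `a`. -/
def cst (m : ℕ) (U : FT S) (a : ULift.{1} (ZMod m)) : Sec (constSheaf S m) U :=
  (toSheafify (cdh S) ((Functor.const (FT S)ᵒᵖ).obj
    (AddCommGrpCat.of (ULift.{1} (ZMod m))))).app (op U) a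

theorem ofS_cst (m : ℕ) (U : FT S) (a : ULift.{1} (ZMod m)) (y : U.obj.left) :
    ofS (ap (constι S m) U (cst m U a)) y = a :=
  congrArg (fun φ : _ ⟶ (funS S (ULift.{1} (ZMod m))).obj => ofS (φ.app (op U) a) y)
    (toSheafify_constι m)

omit [IsLocallyNoetherian S] in
theorem locally_cst (m : ℕ) (U : FT S) (x : Sec (constSheaf S m) U) :
    ∃ R ∈ cdh S U, ∀ (V : FT S) (f : V ⟶ U), R f →
      ∃ a, cst m V a = res (constSheaf S m) f x :=
  ⟨_, Presheaf.imageSieve_mem (cdh S) (toSheafify (cdh S) ((Functor.const (FT S)ᵒᵖ).obj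
    (AddCommGrpCat.of (ULift.{1} (ZMod m))))) (U := op U) x, fun _ _ h => h⟩

instance (m : ℕ) : Mono (constι S m) := by
  have h1 : Presheaf.IsLocallyInjective (cdh S) (constP S m) := by
    constructor
    intro U a b h
    by_cases hU : Nonempty U.unop.obj.left
    · obtain ⟨y⟩ := hU
      have : a = b := congrFun h y
      subst this
      rw [Presheaf.equalizerSieve_self_eq_top]
      exact (cdh S).top_mem _
    · refine (cdh S).superset_covering ?_ 
        (generate_mem_cdh (R := ⊥) (isNis_iff.2 ⟨fun _ _ h => h.elim, ?_⟩))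
      · rw [Sieve.generate_bot]
        exact bot_le
      · exact fun x => (hU ⟨x⟩).elim
  have h3 : Presheaf.IsLocallySurjective (cdh S) (toSheafify (cdh S) ((Functor.const (FT S)ᵒᵖ).obj
      (AddCommGrpCat.of (ULift.{1} (ZMod m))))) := ⟨fun x => Presheaf.imageSieve_mem (cdh S) _ x⟩
  have h2 : Sheaf.IsLocallyInjective (constι S m) :=
    @Presheaf.isLocallyInjective_of_isLocallyInjective_of_isLocallySurjective_fac _ _ (cdh S)
      _ _ _ _ _ _ _ _ _ _ _ _ (toSheafify_constι m) h1 h3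
  exact Sheaf.mono_of_isLocallyInjective _

omit [IsLocallyNoetherian S] in
theorem shortExact_cokernel {F G : Sh S} (φ : F ⟶ G) [Mono φ] :
    (ShortComplex.mk φ (cokernel.π φ) (cokernel.condition φ)).ShortExact :=
  { exact := ShortComplex.exact_of_g_is_cokernel _ (cokernelIsCokernel φ) }

theorem ext_one_eq_zero {L : Type 1} [AddCommGroup L] (X : FT S)
    (e : Ext.{1} ((freeSheaf S).obj X) (funS S L) 1) : e = 0 := by
  have hT := shortExact_cokernel (Injective.ι (funS S L))
  obtain ⟨x, rfl⟩ := Ext.covariant_sequence_exact₁ _ hT e (Ext.eq_zero_of_injective _)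
    (zero_add 1)
  obtain ⟨c, rfl⟩ := Ext.homEquiv₀.symm.surjective x
  obtain ⟨s, hs⟩ := sec_surjective _ _ _ hT X (ev X _ c)
  obtain ⟨a, rfl⟩ := (ev X _).surjective s
  rw [← ev_comp] at hs
  rw [← (ev X _).injective hs, Ext.homEquiv₀_symm_apply, ← Ext.mk₀_comp_mk₀,
    Ext.comp_assoc_of_second_deg_zero]
  rw [hT.comp_extClass, Ext.comp_zero]

theorem sec_Q_surjective (m : ℕ) {X Y : FT S} (ι : Y ⟶ X)
    (hι : Function.Injective ι.hom.left)
    (hsurj : Function.Surjective ((cdhCohomology S m 1).map ι.op))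
    (q₀ : Sec (cokernel (constι S m)) Y) : ∃ q, res _ ι q = q₀ := by
  have hT := shortExact_cokernel (constι S m)
  obtain ⟨b, rfl⟩ := (ev Y _).surjective q₀
  obtain ⟨e, he⟩ := hsurj ((Ext.mk₀ b).comp hT.extClass (zero_add 1))
  replace he : (Ext.mk₀ ((freeSheaf S).map ι)).comp e (zero_add 1) =
    (Ext.mk₀ b).comp hT.extClass (zero_add 1) := he
  obtain ⟨x, hx⟩ := Ext.covariant_sequence_exact₁ _ hT e (ext_one_eq_zero X _) (zero_add 1)
  obtain ⟨a, rfl⟩ := Ext.homEquiv₀.symm.surjective x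
  rw [Ext.homEquiv₀_symm_apply] at hx
  obtain ⟨y, hy⟩ := Ext.covariant_sequence_exact₃ _ hT
    (Ext.mk₀ (b - (freeSheaf S).map ι ≫ a)) (zero_add 1) (by
      rw [sub_eq_add_neg, Ext.mk₀_add, Ext.add_comp, Ext.mk₀_neg, Ext.neg_comp, ← he, ← hx,
        ← Ext.mk₀_comp_mk₀, Ext.comp_assoc_of_second_deg_zero, add_neg_cancel])
  obtain ⟨g, rfl⟩ := Ext.homEquiv₀.symm.surjective y
  rw [Ext.homEquiv₀_symm_apply, Ext.mk₀_comp_mk₀] at hy
  have hy' : g ≫ cokernel.π (constι S m) = b - (freeSheaf S).map ι ≫ a :=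
    (Ext.mk₀_bijective _ _).1 hy
  obtain ⟨g', hg'⟩ := (ev X _).surjective (toS (Function.extend ι.hom.left (ofS (ev Y _ g)) 0))
  have hg : (freeSheaf S).map ι ≫ g' = g := by
    apply (ev Y _).injective
    rw [ev_map, hg']
    exact ofS_ext fun y => hι.extend_apply _ _ y
  let a' : (freeSheaf S).obj X ⟶ cokernel (constι S m) := a
  refine ⟨ev X _ (a' + g' ≫ cokernel.π (constι S m)), ?_⟩
  rw [← ev_map, Preadditive.comp_add, reassoc_of% hg, hy']
  exact congrArg _ (add_sub_cancel _ _)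

/-- The data extracted from surjectivity of the restriction map. -/
structure GoodData (m : ℕ) (X : FT S) where
  Good : ∀ U : FT S, (U ⟶ X) → (U.obj.left → ZMod m) → Prop
  cover : ∃ R ∈ cdh S X, ∀ (U : FT S) (f : U ⟶ X), R f → ∃ h, Good U f h
  pull : ∀ (U V : FT S) (f : U ⟶ X) (h : U.obj.left → ZMod m) (g : V ⟶ U), Good U f h →
    Good V (g ≫ f) (fun y => h (g.hom.left y))
  diff : ∀ (U : FT S) (f : U ⟶ X) (h h' : U.obj.left → ZMod m), Good U f h → Good U f h' →
    ∃ R ∈ cdh S U, ∀ (V : FT S) (g : V ⟶ U), R g →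
      ∃ a, ∀ y : V.obj.left, h (g.hom.left y) - h' (g.hom.left y) = a

theorem exists_goodData (m : ℕ) {X Y : FT S} (ι : Y ⟶ X)
    (hι : Function.Injective ι.hom.left)
    (hsurj : Function.Surjective ((cdhCohomology S m 1).map ι.op))
    {I : Type} (W : I → FT S) (c : ∀ i, W i ⟶ Y) (hc : IsNisnevichCover (Presieve.ofArrows W c))
    (H : I → Y.obj.left → ZMod m)
    (hH : ∀ i j, ∃ a, ∀ (y : (W i).obj.left) (y' : (W j).obj.left),
      (c i).hom.left y = (c j).hom.left y' →
        H i ((c i).hom.left y) - H j ((c i).hom.left y) = a) :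
    ∃ D : GoodData m X, ∀ i, D.Good (W i) (c i ≫ ι) (fun y => H i ((c i).hom.left y)) := by
  have hT := shortExact_cokernel (constι S m)
  let π := cokernel.π (constι S m)
  have hz : ∀ (U : FT S) (y), ap π U (ap (constι S m) U y) = 0 := fun U y => by
    rw [← ap_comp, cokernel.condition, ap_zero]
  obtain ⟨q₀, hq₀⟩ := sec_glue_arrows (cokernel (constι S m)) W c (generate_mem_cdh hc)
    (fun i => ap π _ (toS fun y => ULift.up (H i ((c i).hom.left y)))) (by
      intro i j Z gi gj w
      obtain ⟨a, ha⟩ := hH i j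
      rw [← ap_res, ← ap_res, ← sub_eq_zero, ← map_sub, ← hz Z (cst m Z (ULift.up a))]
      congr 1
      refine ofS_ext fun z => ?_
      have hw : (c i).hom.left (gi.hom.left z) = (c j).hom.left (gj.hom.left z) := by
        rw [← Scheme.Hom.comp_apply, ← Scheme.Hom.comp_apply, ← FT.comp_left, w, FT.comp_left]
      rw [ofS_cst, ← ha _ _ hw]
      change ULift.up (H i ((c i).hom.left (gi.hom.left z)) -
        H j ((c j).hom.left (gj.hom.left z))) = _
      rw [← hw])
  obtain ⟨q, hq⟩ := sec_Q_surjective m ι hι hsurj q₀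
  refine ⟨⟨fun U f h => ap π U (toS fun y => ULift.up (h y)) = res _ f q, ?_, ?_, ?_⟩, ?_⟩
  · obtain ⟨R, hR, hRi⟩ := imageSieve_mem_of_epi π q
    refine ⟨R, hR, fun U f hf => ?_⟩
    obtain ⟨y, hy⟩ := (hRi U f).1 hf
    exact ⟨fun u => (ofS y u).down, hy⟩
  · intro U V f h g hf
    rw [res_comp, ← hf, ← ap_res]
    rfl
  · intro U f h h' hf hf'
    obtain ⟨x, hx⟩ := sec_exact hT U
      ((toS fun y => ULift.up (h y)) - toS fun y => ULift.up (h' y)) (by
        change ap π U _ = 0
        rw [map_sub, hf, hf', sub_self])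
    obtain ⟨R, hR, hRc⟩ := locally_cst m U x
    refine ⟨R, hR, fun V g hg => ?_⟩
    obtain ⟨a, ha⟩ := hRc V g hg
    refine ⟨a.down, fun y => ?_⟩
    have := ofS_cst m V a y
    rw [ha, ap_res, ofS_res] at this
    change ofS (ap (constι S m) U x) _ = _ at this
    replace hx : ap (constι S m) U x = _ := hx
    rw [hx] at this
    exact congrArg ULift.down this
  · intro i
    change _ = res _ (c i ≫ ι) q
    rw [res_comp, hq, hq₀]

end Pool.Agent.P.MP_6277db_ag
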